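import Pool.Agent.Run7.h446.Smyth.Iface

/-!
# Piece CONJ of MP_ed3ef1_nt: vectors compatible with complex conjugation
-/

set_option autoImplicit false

namespace Pool.Agent.Run7.h688.SmythCONJ

open Pool.Agent.Run7.h446.Smyth NumberField Module

theorem main : St_conj := by
  intro K _ _ y hy
  classical
  let I := Free.ChooseBasisIndex ℤ (𝓞 K)
  let b := NumberField.canonicalEmbedding.latticeBasis K
  let c : I → ℂ := fun i => b.repr y i
  let ω : I → 𝓞 K := fun i => RingOfIntegers.basis K i
  have hω : ∀ i (σ : K →+* ℂ), b i σ = σ (ω i : K) := by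
    intro i σ
    rw [canonicalEmbedding.latticeBasis_apply, integralBasis_apply]
    rfl
  have h1 : ∀ σ : K →+* ℂ, y σ = ∑ i, c i * σ (ω i : K) := by
    intro σ
    conv_lhs => rw [← b.sum_repr y]
    rw [Finset.sum_apply]
    refine Finset.sum_congr rfl fun i _ => ?_
    rw [Pi.smul_apply, smul_eq_mul, hω]
  have h2 : ∀ σ : K →+* ℂ, y σ = ∑ i, (starRingEnd ℂ) (c i) * σ (ω i : K) := by
    intro σ
    have h3 := hy σ
    have h4 := h1 (NumberField.ComplexEmbedding.conjugate σ)
    rw [h3] at h4
    have h5 := congrArg (starRingEnd ℂ) h4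
    rw [Complex.conj_conj, map_sum] at h5
    rw [h5]
    refine Finset.sum_congr rfl fun i _ => ?_
    rw [map_mul, ComplexEmbedding.conjugate_coe_eq, Complex.conj_conj]
  have h6 : ∀ i, (starRingEnd ℂ) (c i) = c i := by
    intro i
    have h7 : y = ∑ i, (starRingEnd ℂ) (c i) • b i := by
      ext σ
      rw [Finset.sum_apply, h2 σ]
      refine Finset.sum_congr rfl fun i _ => ?_
      rw [Pi.smul_apply, smul_eq_mul, hω]
    have h8 := b.repr_sum_self (fun i => (starRingEnd ℂ) (c i))
    rw [← h7] at h8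
    exact (congrFun h8 i).symm
  let e := Fintype.equivFin I
  refine ⟨Fintype.card I, fun l => (c (e.symm l)).re, fun l => ω (e.symm l), fun σ => ?_⟩
  rw [h1 σ, ← e.symm.sum_comp]
  refine Finset.sum_congr rfl fun l _ => ?_
  rw [Complex.conj_eq_iff_re.1 (h6 _)]

end Pool.Agent.Run7.h688.SmythCONJ
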