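import Pool.Agent.Run7.h446.Smyth.Iface

/-!
# Piece FIN of MP_ed3ef1_nt: finite-dimensional repair
-/

set_option autoImplicit false

namespace Pool.Agent.Run7.h688.SmythFIN

open Pool.Agent.Run7.h446.Smyth

theorem exists_section {K E F : Type*} [Field K] [AddCommGroup E] [Module K E]
    [AddCommGroup F] [Module K F] (φ : E →ₗ[K] F) :
    ∃ ψ : F →ₗ[K] E, ∀ x, φ (ψ (φ x)) = φ x := by
  obtain ⟨q, hq⟩ := LinearMap.exists_rightInverse_of_surjective φ.rangeRestrict
    (LinearMap.range_rangeRestrict φ)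
  obtain ⟨ψ, hψ⟩ := LinearMap.exists_extend q
  refine ⟨ψ, fun x => ?_⟩
  have h1 : ψ (φ x) = q (φ.rangeRestrict x) := LinearMap.congr_fun hψ (φ.rangeRestrict x)
  have h2 := LinearMap.congr_fun hq (φ.rangeRestrict x)
  have h3 := congrArg Subtype.val h2
  rw [h1]
  exact h3

theorem main (hcount : St_count) : St_fin := by
  intro ι Λ A V W _ _ _ _ _ _ _ S C₁
  classical
  obtain ⟨C, D, hC, hcnt⟩ := hcount ι Λ A V W S
  have hfin : {t : A | ‖S.f t‖ ≤ C₁}.Finite := by
    have := (hcnt (max C₁ 1) (le_max_right _ _)).1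
    exact this.subset fun t ht => show ‖S.f t‖ ≤ _ from
      le_trans (show ‖S.f t‖ ≤ C₁ from ht) (le_max_left _ _)
  have hft : Fintype {t : A | ‖S.f t‖ ≤ C₁} := hfin.fintype
  let m : ι → (Λ →₀ ℝ) →ₗ[ℝ] (A →₀ ℝ) := fun i => Finsupp.lmapDomain ℝ ℝ (S.π i)
  have hm : ∀ i ν, m i ν = Finsupp.mapDomain (S.π i) ν := fun i ν => rfl
  let E₀ : Submodule ℝ (Λ →₀ ℝ) :=
    { carrier := {ν | ∀ i j s, C₁ < ‖S.f s‖ → m i ν s = m j ν s}
      add_mem' := by
        intro a b ha hb i j s hs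
        rw [map_add, map_add, Finsupp.add_apply, Finsupp.add_apply, ha i j s hs, hb i j s hs]
      zero_mem' := by
        intro i j s hs
        rw [map_zero, map_zero]
      smul_mem' := by
        intro r a ha i j s hs
        rw [map_smul, map_smul, Finsupp.smul_apply, Finsupp.smul_apply, ha i j s hs] }
  let φ : E₀ →ₗ[ℝ] ((ι × ι × {t : A | ‖S.f t‖ ≤ C₁}) → ℝ) :=
    { toFun := fun ν x => m x.1 (ν : Λ →₀ ℝ) x.2.2 - m x.2.1 (ν : Λ →₀ ℝ) x.2.2
      map_add' := by
        intro a b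
        ext x
        simp only [Submodule.coe_add, map_add, Finsupp.add_apply, Pi.add_apply]
        ring
      map_smul' := by
        intro r a
        ext x
        simp only [Submodule.coe_smul, map_smul, Finsupp.smul_apply, Pi.smul_apply, smul_eq_mul,
          RingHom.id_apply]
        ring }
  obtain ⟨ψ, hψ'⟩ := exists_section (K := ℝ) (E := E₀)
    (F := (ι × ι × {t : A | ‖S.f t‖ ≤ C₁}) → ℝ) φ
  -- the finitely many generators
  let e : (ι × ι × {t : A | ‖S.f t‖ ≤ C₁}) → (Λ →₀ ℝ) := fun x => (ψ (Pi.single x 1) : Λ →₀ ℝ)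
  have he : ∀ r, (ψ r : Λ →₀ ℝ) = ∑ x, r x • e x := by
    intro r
    have h1 : r = ∑ x, r x • Pi.single x (1 : ℝ) := by
      ext y
      rw [Finset.sum_apply, Finset.sum_eq_single y]
      · simp
      · intro z _ hz
        simp [hz.symm]
      · intro h
        exact absurd (Finset.mem_univ _) h
    conv_lhs => rw [h1, map_sum]
    rw [Submodule.coe_sum]
    refine Finset.sum_congr rfl fun x _ => ?_
    rw [map_smul, Submodule.coe_smul]
  set T : Finset Λ := Finset.univ.biUnion fun x => (e x).support with hT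
  set K1 : ℝ := ∑ x ∈ T, ‖S.g x‖ with hK1
  set K2 : ℝ := ∑ x, ∑ y ∈ T, |e x y| with hK2
  have hK1' : 0 ≤ K1 := Finset.sum_nonneg fun _ _ => norm_nonneg _
  have hK2' : 0 ≤ K2 := Finset.sum_nonneg fun _ _ => Finset.sum_nonneg fun _ _ => abs_nonneg _
  have heT : ∀ x y, y ∉ T → e x y = 0 := by
    intro x y hy
    by_contra hne
    apply hy
    rw [hT, Finset.mem_biUnion]
    exact ⟨x, Finset.mem_univ _, Finsupp.mem_support_iff.2 hne⟩
  refine ⟨K1 + K2 + 1, by linarith, ?_⟩
  intro ν B hB hb hs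
  have hν : ν ∈ E₀ := fun i j s h => hs i j s h
  refine ⟨ψ (φ ⟨ν, hν⟩), ?_, ?_, ?_⟩
  · intro i j
    ext s
    rw [Finsupp.sub_apply, Finsupp.sub_apply]
    by_cases h : ‖S.f s‖ ≤ C₁
    · have := congrFun (hψ' ⟨ν, hν⟩) (i, j, ⟨s, h⟩)
      exact this
    · push Not at h
      have h1 := (ψ (φ ⟨ν, hν⟩)).2 i j s h
      have h2 := hν i j s h
      rw [← hm, ← hm, ← hm, ← hm, h1, h2, sub_self, sub_self]
  · intro x hx
    have hxT : x ∈ T := by
      by_contra hxT
      apply hx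
      rw [he, Finsupp.finsetSum_apply]
      refine Finset.sum_eq_zero fun y _ => ?_
      rw [Finsupp.smul_apply, heT y x hxT, smul_zero]
    have : ‖S.g x‖ ≤ K1 := Finset.single_le_sum (f := fun x => ‖S.g x‖)
      (fun _ _ => norm_nonneg _) hxT
    linarith
  · intro x
    have h1 : |(ψ (φ ⟨ν, hν⟩) : Λ →₀ ℝ) x| ≤ K2 * B := by
      rw [he, Finsupp.finsetSum_apply, hK2, Finset.sum_mul]
      refine (Finset.abs_sum_le_sum_abs _ _).trans (Finset.sum_le_sum fun y _ => ?_)
      rw [Finsupp.smul_apply, smul_eq_mul, abs_mul, mul_comm]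
      refine mul_le_mul ?_ ?_ (abs_nonneg _) (Finset.sum_nonneg fun _ _ => abs_nonneg _)
      · by_cases hxT : x ∈ T
        · exact Finset.single_le_sum (f := fun z => |e y z|) (fun _ _ => abs_nonneg _) hxT
        · rw [heT y x hxT, abs_zero]
          exact Finset.sum_nonneg fun _ _ => abs_nonneg _
      · exact hb _ _ _
    have h2 : K2 * B ≤ (K1 + K2 + 1) * B := mul_le_mul_of_nonneg_right (by linarith) hB
    exact h1.trans h2

end Pool.Agent.Run7.h688.SmythFIN
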