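import Pool.Agent.Run7.h446.Smyth.Iface

/-!
# Piece INDEP of MP_ed3ef1_nt: integrally independent families stay independent over the reals
-/

set_option autoImplicit false

namespace Pool.Agent.Run7.h688.SmythINDEP

open Pool.Agent.Run7.h446.Smyth

theorem main : St_indep := by
  intro G V _ _ _ m β F hF n c hc
  let L : G →ₗ[ℤ] (Fin m → ℚ) :=
    { toFun := fun x l => ((β.repr x l : ℤ) : ℚ)
      map_add' := fun x y => by ext l; simp
      map_smul' := fun r x => by ext l; simp }
  have hL : Function.Injective L := by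
    intro x y hxy
    apply β.repr.injective
    ext l
    have := congrFun hxy l
    simpa [L] using this
  have h1 : LinearIndependent ℤ (L ∘ c) := hc.map' L (LinearMap.ker_eq_bot.2 hL)
  have h2 : LinearIndependent ℚ (L ∘ c) := (LinearIndependent.iff_fractionRing ℤ ℚ).1 h1
  rw [Fintype.linearIndependent_iff] at hF h2 ⊢
  intro r hr k
  have h3 : ∀ l, ∑ k, r k * ((β.repr (c k) l : ℤ) : ℝ) = 0 := by
    apply hF
    rw [← hr]
    simp_rw [Finset.sum_smul]
    rw [Finset.sum_comm]
    refine Finset.sum_congr rfl fun k _ => ?_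
    have : F (c k) = ∑ l, ((β.repr (c k) l : ℤ) : ℝ) • F (β l) := by
      conv_lhs => rw [← β.sum_repr (c k)]
      rw [map_sum]
      refine Finset.sum_congr rfl fun l _ => ?_
      rw [map_zsmul, Int.cast_smul_eq_zsmul]
    rw [this, Finset.smul_sum]
    refine Finset.sum_congr rfl fun l _ => ?_
    rw [smul_smul]
  rw [← Module.forall_dual_apply_eq_zero_iff ℚ (r k)]
  intro φ
  refine h2 (fun k => φ (r k)) ?_ k
  ext l
  have := congrArg φ (h3 l)
  rw [map_zero, map_sum] at this
  rw [Finset.sum_apply, Pi.zero_apply, ← this]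
  refine Finset.sum_congr rfl fun k _ => ?_
  rw [mul_comm (r k), ← Rat.cast_intCast (β.repr (c k) l), ← Rat.smul_def, map_smul]
  simp [L, mul_comm]

end Pool.Agent.Run7.h688.SmythINDEP
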