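import Pool.Agent.Run7.h446.Smyth.Iface

/-!
# Piece PUSH of MP_ed3ef1_nt: a unit mass can be pushed to a bounded region
-/

set_option autoImplicit false

namespace Pool.Agent.Run7.h688.SmythPUSH

open Pool.Agent.Run7.h446.Smyth

variable {ι Λ A V W : Type} [Fintype ι] [AddCommGroup Λ] [AddCommGroup A]
    [NormedAddCommGroup V] [InnerProductSpace ℝ V]
    [NormedAddCommGroup W] [InnerProductSpace ℝ W]

/-- The covering radius. -/
noncomputable def rad (S : Sys ι Λ A V W) : ℝ := (S.c : ℝ) * ∑ l, ‖S.f (S.basisA l)‖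

theorem rad_nonneg (S : Sys ι Λ A V W) : 0 ≤ rad S :=
  mul_nonneg (by exact_mod_cast S.c_pos.le) (Finset.sum_nonneg fun _ _ => norm_nonneg _)

theorem cover (S : Sys ι Λ A V W) (b : ℝ) (t : A) :
    ∃ t' : A, ‖S.f (S.c • t') - b • S.f t‖ ≤ rad S := by
  have hc : (0 : ℝ) < S.c := by exact_mod_cast S.c_pos
  set n : Fin S.rkA → ℤ := fun l => S.basisA.repr t l with hn
  refine ⟨∑ l, ⌊b * n l / S.c⌋ • S.basisA l, ?_⟩
  have h1 : S.f t = ∑ l, (n l : ℝ) • S.f (S.basisA l) := by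
    conv_lhs => rw [← S.basisA.sum_repr t]
    rw [map_sum]
    refine Finset.sum_congr rfl fun l _ => ?_
    rw [map_zsmul, Int.cast_smul_eq_zsmul]
  have h2 : S.f (S.c • ∑ l, ⌊b * n l / S.c⌋ • S.basisA l) =
      ∑ l, ((S.c : ℝ) * (⌊b * n l / S.c⌋ : ℝ)) • S.f (S.basisA l) := by
    rw [map_zsmul, map_sum, Finset.smul_sum]
    refine Finset.sum_congr rfl fun l _ => ?_
    rw [map_zsmul, smul_smul, ← Int.cast_smul_eq_zsmul ℝ, Int.cast_mul]
  rw [h1, h2, Finset.smul_sum, ← Finset.sum_sub_distrib, rad, Finset.mul_sum]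
  refine (norm_sum_le _ _).trans (Finset.sum_le_sum fun l _ => ?_)
  rw [smul_smul, ← sub_smul, norm_smul]
  refine mul_le_mul_of_nonneg_right ?_ (norm_nonneg _)
  rw [Real.norm_eq_abs, abs_le]
  have h3 := Int.floor_le (b * n l / S.c)
  have h4 := Int.lt_floor_add_one (b * n l / S.c)
  rw [le_div_iff₀ hc] at h3
  rw [div_lt_iff₀ hc] at h4
  constructor <;> nlinarith

/-- The elementary move. -/
noncomputable def mv (x u v : Λ) : Λ →₀ ℝ :=
  Finsupp.single x 1 - Finsupp.single (x - u) 1 - Finsupp.single (x - v) 1 +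
    Finsupp.single (x - u - v) 1

theorem mapDomain_mv {B : Type} [AddCommGroup B] (p : Λ →+ B) (x u v : Λ) :
    Finsupp.mapDomain p (mv x u v) = Finsupp.single (p x) 1 - Finsupp.single (p x - p u) 1 -
      Finsupp.single (p x - p v) 1 + Finsupp.single (p x - p u - p v) (1 : ℝ) := by
  have : ∀ a : Λ →₀ ℝ, Finsupp.mapDomain p a = Finsupp.lmapDomain ℝ ℝ p a := fun a => rfl
  rw [this, mv, map_add, map_sub, map_sub]
  simp only [Finsupp.lmapDomain_apply, Finsupp.mapDomain_single, map_sub]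

theorem mv_bound (x u v y : Λ) : |mv x u v y| ≤ 4 := by
  classical
  simp only [mv, Finsupp.add_apply, Finsupp.sub_apply, Finsupp.single_apply]
  split_ifs <;> norm_num

theorem mv_supp (x u v y : Λ) (h : mv x u v y ≠ 0) :
    y = x ∨ y = x - u ∨ y = x - v ∨ y = x - u - v := by
  classical
  by_contra hcon
  push Not at hcon
  apply h
  simp only [mv, Finsupp.add_apply, Finsupp.sub_apply, Finsupp.single_apply]
  rw [if_neg (Ne.symm hcon.1), if_neg (Ne.symm hcon.2.1), if_neg (Ne.symm hcon.2.2.1),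
    if_neg (Ne.symm hcon.2.2.2)]
  norm_num

/-- The statement proved by induction. -/
def Good (S : Sys ι Λ A V W) (C K ε : ℝ) (i : ι) (t : A) : Prop :=
  ∃ ν : Λ →₀ ℝ,
      (∀ j, j ≠ i → Finsupp.mapDomain (S.π j) ν = 0) ∧
      (∀ s, C < ‖S.f s‖ →
        Finsupp.mapDomain (S.π i) ν s = (Finsupp.single t 1 : A →₀ ℝ) s) ∧
      (∀ x, ν x ≠ 0 → ‖S.g x‖ ≤ ‖S.f t‖ + C) ∧
      (∀ x, |ν x| ≤ K * Real.exp (ε * ‖S.f t‖) - 2) ∧
      (∀ s, |Finsupp.mapDomain (S.π i) ν s - (Finsupp.single t 1 : A →₀ ℝ) s| ≤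
        K * Real.exp (ε * ‖S.f t‖) - 2)

theorem good_base (S : Sys ι Λ A V W) (C K ε : ℝ) (hε : 0 < ε) (hK : 3 ≤ K) (i : ι) (t : A)
    (ht : ‖S.f t‖ ≤ C) : Good S C K ε i t := by
  classical
  have h1 : 1 ≤ Real.exp (ε * ‖S.f t‖) := Real.one_le_exp (by positivity)
  have h2 : (1 : ℝ) ≤ K * Real.exp (ε * ‖S.f t‖) - 2 := by nlinarith
  refine ⟨0, fun j _ => Finsupp.mapDomain_zero, ?_, ?_, ?_, ?_⟩
  · intro s hs
    have : t ≠ s := by
      rintro rfl
      linarith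
    rw [Finsupp.mapDomain_zero, Finsupp.single_apply, if_neg this]
    rfl
  · intro x hx
    exact absurd rfl hx
  · intro x
    rw [Finsupp.zero_apply, abs_zero]
    linarith
  · intro s
    rw [Finsupp.mapDomain_zero, Finsupp.single_apply, Finsupp.zero_apply]
    split_ifs <;> norm_num <;> linarith

theorem good_step (S : Sys ι Λ A V W) (C K ε ℓ : ℝ) (hε : 0 < ε) (hK : 0 ≤ K)
    (hℓ : 3 ≤ Real.exp (ε * ℓ)) (i : ι) (t α : A)
    (x u v : Λ) (hx : S.π i x = t) (hu : S.π i u = α) (hv : S.π i v = α)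
    (huv : ∀ l, l ≠ i → S.π l u = 0 ∨ S.π l v = 0)
    (hgx : ‖S.g x‖ + ‖S.g u‖ + ‖S.g v‖ ≤ ‖S.f t‖ + C)
    (h1 : ‖S.f (t - α)‖ ≤ ‖S.f t‖ - ℓ) (h2 : ‖S.f (t - α - α)‖ ≤ ‖S.f t‖ - ℓ) (hℓ0 : 0 ≤ ℓ)
    (g1 : Good S C K ε i (t - α)) (g2 : Good S C K ε i (t - α - α)) : Good S C K ε i t := by
  classical
  obtain ⟨a, a1, a2, a3, a4, a5⟩ := g1
  obtain ⟨b, b1, b2, b3, b4, b5⟩ := g2
  have hlin : ∀ j, Finsupp.mapDomain (S.π j) (mv x u v + (2 : ℝ) • a - b) =
      Finsupp.mapDomain (S.π j) (mv x u v) + (2 : ℝ) • Finsupp.mapDomain (S.π j) a -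
        Finsupp.mapDomain (S.π j) b := by
    intro j
    have : ∀ a : Λ →₀ ℝ, Finsupp.mapDomain (S.π j) a = Finsupp.lmapDomain ℝ ℝ (S.π j) a :=
      fun a => rfl
    rw [this, this, this, this, map_sub, map_add, map_smul]
  have hi : ∀ s, Finsupp.mapDomain (S.π i) (mv x u v + (2 : ℝ) • a - b) s -
      (Finsupp.single t 1 : A →₀ ℝ) s =
      2 * (Finsupp.mapDomain (S.π i) a s - (Finsupp.single (t - α) 1 : A →₀ ℝ) s) -
      (Finsupp.mapDomain (S.π i) b s - (Finsupp.single (t - α - α) 1 : A →₀ ℝ) s) := by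
    intro s
    rw [hlin, mapDomain_mv, hx, hu, hv]
    simp only [Finsupp.add_apply, Finsupp.sub_apply, Finsupp.smul_apply, smul_eq_mul]
    ring
  have hexp : ∀ r : ℝ, r ≤ ‖S.f t‖ - ℓ →
      3 * (K * Real.exp (ε * r)) ≤ K * Real.exp (ε * ‖S.f t‖) := by
    intro r hr
    have e1 : Real.exp (ε * r) * Real.exp (ε * ℓ) ≤ Real.exp (ε * ‖S.f t‖) := by
      rw [← Real.exp_add]
      exact Real.exp_le_exp.2 (by nlinarith)
    have e2 : 0 < Real.exp (ε * r) := Real.exp_pos _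
    have e3 : 3 * Real.exp (ε * r) ≤ Real.exp (ε * ‖S.f t‖) := by nlinarith
    nlinarith
  have ea := hexp _ h1
  have eb := hexp _ h2
  refine ⟨mv x u v + (2 : ℝ) • a - b, ?_, ?_, ?_, ?_, ?_⟩
  · intro j hj
    rw [hlin, a1 j hj, b1 j hj, mapDomain_mv]
    rcases huv j hj with h | h
    · rw [h, sub_zero, smul_zero, add_zero, sub_zero, sub_self, zero_sub, neg_add_cancel]
    · rw [h, sub_zero, sub_zero, smul_zero, add_zero, sub_zero]
      abel
  · intro s hs
    have := hi s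
    rw [a2 s hs, b2 s hs, sub_self, sub_self, mul_zero, sub_self] at this
    exact sub_eq_zero.1 this
  · intro y hy
    by_cases hm : mv x u v y = 0
    · by_cases ha : a y = 0
      · have hb : b y ≠ 0 := by
          intro hb
          apply hy
          rw [Finsupp.sub_apply, Finsupp.add_apply, Finsupp.smul_apply, hm, ha, hb]
          simp
        have := b3 y hb
        linarith
      · have := a3 y ha
        linarith
    · have g1 : ‖S.g (x - u)‖ ≤ ‖S.g x‖ + ‖S.g u‖ := by rw [map_sub]; exact norm_sub_le _ _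
      have g2 : ‖S.g (x - v)‖ ≤ ‖S.g x‖ + ‖S.g v‖ := by rw [map_sub]; exact norm_sub_le _ _
      have g3 : ‖S.g (x - u - v)‖ ≤ ‖S.g (x - u)‖ + ‖S.g v‖ := by
        rw [map_sub S.g (x - u)]; exact norm_sub_le _ _
      have p1 := norm_nonneg (S.g u)
      have p2 := norm_nonneg (S.g v)
      rcases mv_supp x u v y hm with rfl | rfl | rfl | rfl <;> linarith
  · intro y
    have m1 := abs_le.1 (mv_bound x u v y)
    have m2 := abs_le.1 (a4 y)
    have m3 := abs_le.1 (b4 y)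
    rw [Finsupp.sub_apply, Finsupp.add_apply, Finsupp.smul_apply, smul_eq_mul, abs_le]
    constructor <;> linarith
  · intro s
    have m2 := abs_le.1 (a5 s)
    have m3 := abs_le.1 (b5 s)
    have m4 : 0 ≤ K * Real.exp (ε * ‖S.f t‖) := mul_nonneg hK (Real.exp_pos _).le
    rw [hi s, abs_le]
    constructor <;> linarith

theorem main (hcount : St_count) (hcenter : St_center) : St_push := by
  intro ι Λ A V W _ _ _ _ _ _ _ S ε hε
  classical
  obtain ⟨Cc, D, hCc, hcnt⟩ := hcount ι Λ A V W S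
  obtain ⟨C₀, hC₀, hcen⟩ := hcenter ι Λ A V W S
  have hc1 : (1 : ℝ) ≤ S.c := by exact_mod_cast S.c_pos
  -- the step length
  obtain ⟨ℓ, hℓ1, hℓr, hℓe⟩ : ∃ ℓ : ℝ, 1 ≤ ℓ ∧ rad S ≤ ℓ ∧ 3 ≤ Real.exp (ε * ℓ) := by
    refine ⟨1 + rad S + 2 / ε, ?_, ?_, ?_⟩
    · have := rad_nonneg S
      have : 0 < 2 / ε := by positivity
      linarith
    · have : 0 < 2 / ε := by positivity
      linarith
    · have h1 := Real.add_one_le_exp (ε * (1 + rad S + 2 / ε))
      have h2 : ε * (1 + rad S + 2 / ε) = ε + ε * rad S + 2 := by field_simp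
      have h3 := mul_nonneg hε.le (rad_nonneg S)
      rw [h2] at h1 ⊢
      linarith
  -- the finitely many moves
  have hF : {t : A | ‖S.f t‖ ≤ 3 * ℓ}.Finite := (hcnt (3 * ℓ) (by linarith)).1
  have hmv : ∀ (i : ι) (t' : A), ∃ u v : Λ, S.π i u = S.c • t' ∧ S.π i v = S.c • t' ∧
      ∀ l, l ≠ i → S.π l u = 0 ∨ S.π l v = 0 := by
    intro i t'
    obtain ⟨j, k, u, v, -, -, hjk, hu, hv, hu0, hv0⟩ := S.move i t'
    refine ⟨u, v, hu, hv, fun l hl => ?_⟩
    by_cases h : l = j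
    · right
      exact hv0 l hl (by rw [h]; exact hjk)
    · left
      exact hu0 l hl h
  choose U W' hU hW hUW using hmv
  obtain ⟨Cm, hCm⟩ : ∃ Cm : ℝ, ∀ i t', ‖S.f t'‖ ≤ 3 * ℓ → ‖S.g (U i t')‖ + ‖S.g (W' i t')‖ ≤ Cm := by
    refine ⟨∑ i, ∑ t ∈ hF.toFinset, (‖S.g (U i t)‖ + ‖S.g (W' i t)‖), fun i t' ht' => ?_⟩
    have h1 : ‖S.g (U i t')‖ + ‖S.g (W' i t')‖ ≤
        ∑ t ∈ hF.toFinset, (‖S.g (U i t)‖ + ‖S.g (W' i t)‖) :=
      Finset.single_le_sum (f := fun t => ‖S.g (U i t)‖ + ‖S.g (W' i t)‖)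
        (fun _ _ => by positivity) (hF.mem_toFinset.2 ht')
    exact h1.trans (Finset.single_le_sum
      (f := fun i => ∑ t ∈ hF.toFinset, (‖S.g (U i t)‖ + ‖S.g (W' i t)‖))
      (fun _ _ => Finset.sum_nonneg fun _ _ => by positivity) (Finset.mem_univ i))
  set C : ℝ := 4 * ℓ + C₀ + |Cm| with hC
  have hCm' := le_abs_self Cm
  have hCm0 := abs_nonneg Cm
  have key : ∀ n : ℕ, ∀ (i : ι) (t : A), ‖S.f t‖ ≤ n * ℓ → Good S C 3 ε i t := by
    intro n
    induction n with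
    | zero =>
      intro i t ht
      refine good_base S C 3 ε hε le_rfl i t ?_
      rw [Nat.cast_zero, zero_mul] at ht
      linarith
    | succ n ih =>
      intro i t ht
      by_cases hb : ‖S.f t‖ ≤ C
      · exact good_base S C 3 ε hε le_rfl i t hb
      push Not at hb
      have h4 : 4 * ℓ < ‖S.f t‖ := by linarith
      have hpos : 0 < ‖S.f t‖ := by linarith
      obtain ⟨t', ht'⟩ := cover S (2 * ℓ / ‖S.f t‖) t
      set α := S.c • t' with hα
      have n1 : ‖(2 * ℓ / ‖S.f t‖) • S.f t‖ = 2 * ℓ := by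
        rw [norm_smul, Real.norm_eq_abs, abs_of_pos (by positivity)]
        field_simp
      have n2 : ‖(1 - 2 * ℓ / ‖S.f t‖) • S.f t‖ = ‖S.f t‖ - 2 * ℓ := by
        have : 0 ≤ 1 - 2 * ℓ / ‖S.f t‖ := by
          rw [sub_nonneg, div_le_one hpos]
          linarith
        rw [norm_smul, Real.norm_eq_abs, abs_of_nonneg this, sub_mul, one_mul]
        field_simp
      have n3 : ‖(1 - 4 * ℓ / ‖S.f t‖) • S.f t‖ = ‖S.f t‖ - 4 * ℓ := by
        have : 0 ≤ 1 - 4 * ℓ / ‖S.f t‖ := by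
          rw [sub_nonneg, div_le_one hpos]
          linarith
        rw [norm_smul, Real.norm_eq_abs, abs_of_nonneg this, sub_mul, one_mul]
        field_simp
      have d1 : ‖S.f (t - α)‖ ≤ ‖S.f t‖ - ℓ := by
        have : S.f (t - α) = (1 - 2 * ℓ / ‖S.f t‖) • S.f t -
            (S.f α - (2 * ℓ / ‖S.f t‖) • S.f t) := by
          rw [map_sub, sub_smul, one_smul]
          abel
        rw [this]
        have := norm_sub_le ((1 - 2 * ℓ / ‖S.f t‖) • S.f t) (S.f α - (2 * ℓ / ‖S.f t‖) • S.f t)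
        linarith
      have d2 : ‖S.f (t - α - α)‖ ≤ ‖S.f t‖ - ℓ := by
        have : S.f (t - α - α) = (1 - 4 * ℓ / ‖S.f t‖) • S.f t -
            ((S.f α - (2 * ℓ / ‖S.f t‖) • S.f t) + (S.f α - (2 * ℓ / ‖S.f t‖) • S.f t)) := by
          have h5 : (1 - 4 * ℓ / ‖S.f t‖) • S.f t =
              S.f t - (2 * ℓ / ‖S.f t‖) • S.f t - (2 * ℓ / ‖S.f t‖) • S.f t := by
            rw [sub_sub, ← add_smul, sub_smul, one_smul]
            congr 2
            ring
          rw [map_sub, map_sub, h5]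
          abel
        rw [this]
        have h6 := norm_sub_le ((1 - 4 * ℓ / ‖S.f t‖) • S.f t)
          ((S.f α - (2 * ℓ / ‖S.f t‖) • S.f t) + (S.f α - (2 * ℓ / ‖S.f t‖) • S.f t))
        have h7 := norm_add_le (S.f α - (2 * ℓ / ‖S.f t‖) • S.f t)
          (S.f α - (2 * ℓ / ‖S.f t‖) • S.f t)
        linarith
      have d3 : ‖S.f t'‖ ≤ 3 * ℓ := by
        have h5 : ‖S.f α‖ ≤ 3 * ℓ := by
          have h6 := norm_add_le (S.f α - (2 * ℓ / ‖S.f t‖) • S.f t) ((2 * ℓ / ‖S.f t‖) • S.f t)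
          rw [sub_add_cancel] at h6
          linarith
        have h6 : ‖S.f α‖ = S.c * ‖S.f t'‖ := by
          rw [hα, map_zsmul, ← Int.cast_smul_eq_zsmul ℝ, norm_smul, Real.norm_eq_abs,
            abs_of_pos (by linarith)]
        have h7 := norm_nonneg (S.f t')
        nlinarith
      obtain ⟨x, hx, hxr⟩ := hcen i t
      have hgx : ‖S.g x‖ ≤ ‖S.f t‖ + C₀ := by
        have h5 := S.pyth i x
        rw [hx] at h5
        have h6 := norm_nonneg (S.r i x)
        have h7 := norm_nonneg (S.f t)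
        refine abs_le_of_sq_le_sq' ?_ (by positivity) |>.2
        nlinarith
      have hn : ((n + 1 : ℕ) : ℝ) * ℓ = n * ℓ + ℓ := by
        push_cast
        ring
      rw [hn] at ht
      refine good_step S C 3 ε ℓ hε (by norm_num) hℓe i t α x (U i t') (W' i t') hx (hU i t')
        (hW i t') (hUW i t') ?_ d1 d2 (by linarith) (ih i _ (by linarith)) (ih i _ (by linarith))
      have := hCm i t' d3
      linarith
  refine ⟨C + 3, by positivity, fun i t => ?_⟩
  obtain ⟨n, hn⟩ := exists_nat_ge (‖S.f t‖ / ℓ)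
  rw [div_le_iff₀ (by linarith)] at hn
  obtain ⟨ν, v1, v2, v3, v4, v5⟩ := key n i t hn
  have he := Real.exp_pos (ε * ‖S.f t‖)
  have hCpos : 0 < C := by positivity
  have hCe : 0 < C * Real.exp (ε * ‖S.f t‖) := by positivity
  refine ⟨ν, v1, fun s hs => v2 s (by linarith), fun x hx => (v3 x hx).trans (by linarith),
    fun x => (v4 x).trans (by nlinarith), fun s => (v5 s).trans (by nlinarith)⟩

end Pool.Agent.Run7.h688.SmythPUSH
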