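import Mathlib

/-!
# Degrees and colourings of finite vertex sets

Helper file for MP_663051 (recognition of beta-perfect graphs).
-/

namespace Run7.h688

open Finset

variable {V : Type*}

open Classical in
/-- The number of neighbours of `v` in the finite set `A`. -/
noncomputable def dg (G : SimpleGraph V) (A : Finset V) (v : V) : ℕ := (A.filter (G.Adj v)).card

/-- `c` is a proper colouring of the subgraph induced by `A` with at most `k` colours. -/
structure IsCol (G : SimpleGraph V) (A : Finset V) (k : ℕ) (c : V → ℕ) : Prop where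
  ne : ∀ u ∈ A, ∀ v ∈ A, G.Adj u v → c u ≠ c v
  card : (A.image c).card ≤ k

/-- The subgraph induced by `A` is `k`-colourable. -/
def Col (G : SimpleGraph V) (A : Finset V) (k : ℕ) : Prop := ∃ c : V → ℕ, IsCol G A k c

/-- `Q` is a clique. -/
def Cl (G : SimpleGraph V) (Q : Finset V) : Prop := ∀ u ∈ Q, ∀ v ∈ Q, u ≠ v → G.Adj u v

variable {G : SimpleGraph V} {A B Q : Finset V} {k : ℕ} {c : V → ℕ} {v : V}

theorem dg_le (h : ∀ y ∈ A, G.Adj v y → y ∈ B) : dg G A v ≤ B.card := by
  classical
  unfold dg
  exact Finset.card_le_card fun y hy => by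
    rw [Finset.mem_filter] at hy
    exact h y hy.1 hy.2

theorem le_dg (hB : B ⊆ A) (h : ∀ y ∈ B, G.Adj v y) : B.card ≤ dg G A v := by
  classical
  unfold dg
  exact Finset.card_le_card fun y hy => by
    rw [Finset.mem_filter]
    exact ⟨hB hy, h y hy⟩

theorem dg_mono (hB : B ⊆ A) : dg G B v ≤ dg G A v := by
  classical
  unfold dg
  exact Finset.card_le_card (Finset.filter_subset_filter _ hB)

theorem dg_full (h : ∀ y ∈ B, G.Adj v y) : dg G B v = B.card :=
  le_antisymm (dg_le fun _ hy _ => hy) (le_dg (Finset.Subset.refl _) h)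

theorem dg_none (h : ∀ y ∈ B, ¬ G.Adj v y) : dg G B v = 0 := by
  classical
  unfold dg
  rw [Finset.card_eq_zero, Finset.filter_eq_empty_iff]
  exact fun y hy => h y hy

theorem dg_clique (hv : v ∈ B) (h : Cl G B) : dg G B v + 1 = B.card := by
  classical
  have e : B.filter (G.Adj v) = B.erase v := by
    ext y
    rw [Finset.mem_filter, Finset.mem_erase]
    constructor
    · rintro ⟨h1, h2⟩
      exact ⟨h2.ne', h1⟩
    · rintro ⟨h1, h2⟩
      exact ⟨h2, h v hv y h2 h1.symm⟩
  have h1 := Finset.card_erase_add_one hv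
  unfold dg
  rw [← h1]
  congr 2

theorem dg_lt_card (hv : v ∈ B) : dg G B v + 1 ≤ B.card := by
  classical
  rw [← Finset.card_erase_add_one hv]
  exact Nat.succ_le_succ (dg_le fun y hy h => Finset.mem_erase.2 ⟨h.ne', hy⟩)

/-- Degrees are sums over the parts. -/
theorem dg_parts (P : V → ℕ) (n : ℕ) (hP : ∀ x ∈ A, P x < n) :
    dg G A v = ∑ i ∈ range n, dg G (A.filter fun x => P x = i) v := by
  classical
  unfold dg
  rw [Finset.card_eq_sum_card_fiberwise (f := P) (t := range n)]
  · refine Finset.sum_congr rfl fun i _ => ?_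
    congr 1
    ext x
    simp only [Finset.mem_filter]
    tauto
  · intro x hx
    have h := (Finset.mem_filter.1 hx).1
    simpa using hP x h

theorem dg_union (h : Disjoint A B) [DecidableEq V] : dg G (A ∪ B) v = dg G A v + dg G B v := by
  classical
  unfold dg
  rw [← Finset.card_union_of_disjoint (Finset.disjoint_filter_filter h)]
  congr 1
  ext x
  simp only [Finset.mem_filter, Finset.mem_union]
  tauto

theorem IsCol.mono (h : IsCol G A k c) (hB : B ⊆ A) : IsCol G B k c :=
  ⟨fun u hu v hv => h.ne u (hB hu) v (hB hv),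
    (Finset.card_le_card (Finset.image_subset_image hB)).trans h.card⟩

theorem IsCol.card_clique (h : IsCol G A k c) (hQ : Q ⊆ A) (hc : Cl G Q) :
    (Q.image c).card = Q.card := by
  refine Finset.card_image_of_injOn fun u hu v hv e => ?_
  by_contra hne
  exact h.ne u (hQ hu) v (hQ hv) (hc u hu v hv hne) e

theorem IsCol.clique_le (h : IsCol G A k c) (hQ : Q ⊆ A) (hc : Cl G Q) : Q.card ≤ k := by
  rw [← h.card_clique hQ hc]
  exact (Finset.card_le_card (Finset.image_subset_image hQ)).trans h.card

/-- A clique of `k` vertices meets every colour. -/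
theorem IsCol.surj (h : IsCol G A k c) (hQ : Q ⊆ A) (hc : Cl G Q) (hk : k ≤ Q.card) :
    ∀ v ∈ A, ∃ q ∈ Q, c q = c v := by
  have h1 : Q.image c = A.image c :=
    Finset.eq_of_subset_of_card_le (Finset.image_subset_image hQ) (by
      rw [h.card_clique hQ hc]; exact h.card.trans hk)
  intro v hv
  have h2 : c v ∈ Q.image c := by
    rw [h1]; exact Finset.mem_image_of_mem c hv
  obtain ⟨q, hq, e⟩ := Finset.mem_image.1 h2
  exact ⟨q, hq, e⟩

/-- If the clique `Q` is complete to `B`, then `B` uses at most `k - |Q|` colours. -/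
theorem IsCol.join (h : IsCol G A k c) (hQ : Q ⊆ A) (hB : B ⊆ A) (hc : Cl G Q)
    (hQB : ∀ q ∈ Q, ∀ b ∈ B, G.Adj q b) : (B.image c).card + Q.card ≤ k := by
  rw [← h.card_clique hQ hc]
  refine le_trans ?_ h.card
  rw [← Finset.card_union_of_disjoint]
  · exact Finset.card_le_card (Finset.union_subset (Finset.image_subset_image hB)
      (Finset.image_subset_image hQ))
  · rw [Finset.disjoint_left]
    intro x hx hx'
    obtain ⟨b, hb, rfl⟩ := Finset.mem_image.1 hx
    obtain ⟨q, hq, e⟩ := Finset.mem_image.1 hx'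
    exact h.ne q (hQ hq) b (hB hb) (hQB q hq b hb) e

theorem Col.pos (h : Col G A k) (hA : A.Nonempty) : 1 ≤ k := by
  obtain ⟨c, hc⟩ := h
  obtain ⟨v, hv⟩ := hA
  have : (A.image c).Nonempty := ⟨c v, Finset.mem_image_of_mem c hv⟩
  exact (Finset.card_pos.2 this).trans_le hc.card

end Run7.h688
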