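import Mathlib

/-!
# Beta-perfect graphs: definitions
-/

namespace Run7.h688

open Classical in
/-- The number `β(G)`: the maximum of `δ(G') + 1` over all nonempty induced subgraphs `G'` of the
finite graph `G`, where `δ` is the minimum degree (and `0` if `G` has no vertices). -/
noncomputable def beta {V : Type} [Fintype V] (G : SimpleGraph V) : ℕ :=
  ((Finset.univ : Finset (Finset V)).filter fun S => S.Nonempty).sup fun S =>
    (G.induce (S : Set V)).minDegree + 1

/-- A finite graph is beta-perfect if `χ(H) = β(H)` for each of its induced subgraphs `H`. -/
def BetaPerfect {V : Type} [Fintype V] (G : SimpleGraph V) : Prop :=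
  ∀ S : Finset V, (G.induce (S : Set V)).chromaticNumber = (beta (G.induce (S : Set V)) : ℕ∞)

end Run7.h688
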