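import Pool.Agent.Run7.h688.Red
import Pool.Agent.Run7.h688.Defs

/-!
# Beta-perfect graphs
-/

namespace Run7.h688

open Finset

section

variable {V : Type*} {G : SimpleGraph V} {A : Finset V} {k : ℕ}

theorem IsCol.of_lt {c : V → ℕ} (h : ∀ u ∈ A, ∀ v ∈ A, G.Adj u v → c u ≠ c v)
    (hk : ∀ v ∈ A, c v < k) : IsCol G A k c := by
  refine ⟨h, ?_⟩
  have h1 : A.image c ⊆ Finset.range k := by
    intro y hy
    obtain ⟨v, hv, rfl⟩ := Finset.mem_image.1 hy
    exact Finset.mem_range.2 (hk v hv)
  have h2 := Finset.card_le_card h1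
  rwa [Finset.card_range] at h2

/-- Colourings may be assumed to have small values. -/
theorem Col.lt (h : Col G A k) : ∃ c : V → ℕ,
    (∀ u ∈ A, ∀ v ∈ A, G.Adj u v → c u ≠ c v) ∧ ∀ v ∈ A, c v < k := by
  classical
  obtain ⟨c, hc⟩ := h
  let e := (A.image c).equivFin
  refine ⟨fun v => if hv : c v ∈ A.image c then (e ⟨c v, hv⟩ : ℕ) else 0,
    fun u hu v hv huv => ?_, fun v hv => ?_⟩
  · have h1 := Finset.mem_image_of_mem c hu
    have h2 := Finset.mem_image_of_mem c hv
    simp only [h1, h2, dif_pos]
    intro h3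
    have h4 := e.injective (Fin.ext h3)
    exact hc.ne u hu v hv huv (by simpa using h4)
  · have h1 := Finset.mem_image_of_mem c hv
    simp only [h1, dif_pos]
    exact (e ⟨c v, h1⟩).2.trans_le hc.card

theorem col_iff : Col G A k ↔ (G.induce (A : Set V)).Colorable k := by
  constructor
  · intro h
    obtain ⟨c, h1, h2⟩ := h.lt
    exact ⟨SimpleGraph.Coloring.mk (fun v => ⟨c v.1, h2 v.1 v.2⟩) fun {u v} huv => by
      intro h3
      exact h1 u.1 u.2 v.1 v.2 huv (congrArg Fin.val h3)⟩
  · rintro ⟨C⟩
    classical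
    refine ⟨fun v => if hv : v ∈ A then (C ⟨v, hv⟩ : ℕ) else 0, IsCol.of_lt
      (fun u hu v hv huv => ?_) fun v hv => ?_⟩
    · simp only [hu, hv, dif_pos]
      intro h3
      exact C.valid (v := ⟨u, hu⟩) (w := ⟨v, hv⟩) huv (Fin.ext h3)
    · simp only [hv, dif_pos]
      exact (C ⟨v, hv⟩).2

/-- The greedy bound. -/
theorem greedy : ∀ A : Finset V, (∀ B ⊆ A, B.Nonempty → ∃ v ∈ B, dg G B v < k) → Col G A k := by
  classical
  intro A
  induction A using Finset.strongInduction with
  | H A ih =>
    intro h
    rcases A.eq_empty_or_nonempty with rfl | hne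
    · exact ⟨fun _ => 0, fun u hu => absurd hu (Finset.notMem_empty u), by simp⟩
    · obtain ⟨v, hv, hd⟩ := h A (Finset.Subset.refl _) hne
      have hsub : A.erase v ⊂ A := Finset.erase_ssubset hv
      obtain ⟨c, hc1, hc2⟩ := (ih _ hsub fun B hB => h B (hB.trans hsub.1)).lt
      have hex : ((Finset.range k) \ ((A.filter (G.Adj v)).image c)).Nonempty := by
        rw [← Finset.card_pos]
        have h1 := Finset.le_card_sdiff ((A.filter (G.Adj v)).image c) (Finset.range k)
        have h2 := Finset.card_image_le (s := A.filter (G.Adj v)) (f := c)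
        have h3 : dg G A v = (A.filter (G.Adj v)).card := by
          unfold dg; congr
        rw [Finset.card_range] at h1
        omega
      obtain ⟨a, ha⟩ := hex
      rw [Finset.mem_sdiff, Finset.mem_range] at ha
      have hnb : ∀ u ∈ A, G.Adj v u → a ≠ c u := fun u hu huv e =>
        ha.2 (e ▸ Finset.mem_image_of_mem c (Finset.mem_filter.2 ⟨hu, huv⟩))
      refine ⟨fun u => if u = v then a else c u, IsCol.of_lt (fun x hx y hy hxy => ?_)
        fun x hx => ?_⟩
      · by_cases h1 : x = v
        · subst h1
          have h2 : y ≠ x := hxy.ne'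
          simp only [h2, if_true, if_false]
          exact hnb y hy hxy
        · by_cases h2 : y = v
          · subst h2
            simp only [h1, if_true, if_false]
            exact (hnb x hx hxy.symm).symm
          · simp only [h1, h2, if_false]
            exact hc1 x (Finset.mem_erase.2 ⟨h1, hx⟩) y (Finset.mem_erase.2 ⟨h2, hy⟩) hxy
      · by_cases h1 : x = v
        · simp only [h1, if_true]
          exact ha.1
        · simp only [h1, if_false]
          exact hc2 x (Finset.mem_erase.2 ⟨h1, hx⟩)

end

section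

variable {V : Type} {G : SimpleGraph V}

open Classical in
theorem degree_induce [Fintype V] (A : Finset V) (v : (A : Set V)) :
    (G.induce (A : Set V)).degree v = dg G A v.1 := by
  rw [← SimpleGraph.card_neighborFinset_eq_degree]
  unfold dg
  rw [← Finset.card_image_of_injective _ Subtype.val_injective]
  congr 1
  ext x
  simp only [Finset.mem_image, SimpleGraph.mem_neighborFinset, Finset.mem_filter]
  constructor
  · rintro ⟨⟨y, hy⟩, h, rfl⟩
    exact ⟨hy, h⟩
  · rintro ⟨hx, h⟩
    exact ⟨⟨x, hx⟩, h, rfl⟩

open Classical in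
theorem le_minDegree [Fintype V] {A : Finset V} (hA : A.Nonempty) {k : ℕ} :
    k ≤ (G.induce (A : Set V)).minDegree ↔ ∀ v ∈ A, k ≤ dg G A v := by
  have : Nonempty (A : Set V) := ⟨⟨hA.choose, hA.choose_spec⟩⟩
  constructor
  · intro h v hv
    rw [← degree_induce A ⟨v, hv⟩]
    exact h.trans (SimpleGraph.minDegree_le_degree _ _)
  · intro h
    refine SimpleGraph.le_minDegree_of_forall_le_degree _ _ fun v => ?_
    rw [degree_induce]
    exact h v.1 v.2

/-- A number is below `β(G)` if and only if it is a lower bound for the degrees of some part. -/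
theorem lt_beta [Fintype V] {k : ℕ} : k < beta G ↔
    ∃ A : Finset V, A.Nonempty ∧ ∀ v ∈ A, k ≤ dg G A v := by
  classical
  unfold beta
  rw [Finset.lt_sup_iff]
  constructor
  · rintro ⟨A, hA, h⟩
    have hne := (Finset.mem_filter.1 hA).2
    refine ⟨A, hne, (le_minDegree hne).1 ?_⟩
    exact Nat.lt_succ_iff.1 (by convert h)
  · rintro ⟨A, hne, h⟩
    refine ⟨A, Finset.mem_filter.2 ⟨Finset.mem_univ _, hne⟩, ?_⟩
    have := (le_minDegree hne).2 h
    exact Nat.lt_succ_iff.2 (by convert this)

/-- A graph is beta-perfect if and only if no part of it is `κ`-colourable with all degrees at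
least `κ`. -/
theorem betaPerfect_iff [Fintype V] :
    BetaPerfect G ↔ ¬ ∃ (A : Finset V) (κ : ℕ), Bad G A κ := by
  classical
  constructor
  · rintro h ⟨A, κ, hb⟩
    have h1 := h A
    have h2 : (G.induce (A : Set V)).chromaticNumber ≤ κ := (col_iff.1 hb.col).chromaticNumber_le
    rw [h1] at h2
    have h3 : beta (G.induce (A : Set V)) ≤ κ := by exact_mod_cast h2
    have h4 : κ < beta (G.induce (A : Set V)) := by
      rw [lt_beta]
      refine ⟨Finset.univ, ?_, fun v _ => ?_⟩
      · obtain ⟨v, hv⟩ := hb.ne
        exact ⟨⟨v, hv⟩, Finset.mem_univ _⟩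
      · rw [← dg_image (G := G.induce (A : Set V)) (H := G) Subtype.val_injective
          (fun a b => Iff.rfl) Finset.univ v]
        have e : (Finset.univ : Finset (A : Set V)).image Subtype.val = A := by
          ext x
          simp
        rw [e]
        exact hb.deg v.1 v.2
    omega
  · intro h S
    have himg : ∀ (B : Finset (S : Set V)) (v : (S : Set V)),
        dg (G.induce (S : Set V)) B v = dg G (B.image Subtype.val) v.1 := fun B v =>
      (dg_image (G := G.induce (S : Set V)) (H := G) Subtype.val_injective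
        (fun a b => Iff.rfl) B v).symm
    have hcol : Col G S (beta (G.induce (S : Set V))) := by
      refine greedy S fun B hB hne => ?_
      by_contra hno
      push Not at hno
      refine lt_irrefl (beta (G.induce (S : Set V))) (lt_beta.2
        ⟨Finset.univ.filter fun v : (S : Set V) => v.1 ∈ B, ?_, fun v hv => ?_⟩)
      · obtain ⟨v, hv⟩ := hne
        exact ⟨⟨v, hB hv⟩, Finset.mem_filter.2 ⟨Finset.mem_univ _, hv⟩⟩
      · rw [himg]
        have e : (Finset.univ.filter fun v : (S : Set V) => v.1 ∈ B).image Subtype.val = B := by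
          ext x
          simp only [Finset.mem_image, Finset.mem_filter, Finset.mem_univ, true_and]
          constructor
          · rintro ⟨y, hy, rfl⟩
            exact hy
          · intro hx
            exact ⟨⟨x, hB hx⟩, hx, rfl⟩
        rw [e]
        exact hno v.1 (Finset.mem_filter.1 hv).2
    refine le_antisymm (col_iff.1 hcol).chromaticNumber_le ?_
    by_contra hlt
    rw [not_le] at hlt
    obtain ⟨m, hm⟩ := ENat.ne_top_iff_exists.1 (hlt.trans_le le_top).ne
    rw [← hm] at hlt
    have hm1 : m < beta (G.induce (S : Set V)) := by exact_mod_cast hlt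
    have hm2 : (G.induce (S : Set V)).Colorable m := by
      rw [← SimpleGraph.chromaticNumber_le_iff_colorable, ← hm]
    obtain ⟨B, hB, hB2⟩ := lt_beta.1 hm1
    have hBS : B.image Subtype.val ⊆ S := by
      intro x hx
      obtain ⟨y, -, rfl⟩ := Finset.mem_image.1 hx
      exact y.2
    obtain ⟨c, hc⟩ := col_iff.2 hm2
    refine h ⟨B.image Subtype.val, m, hB.image _, ⟨c, hc.mono hBS⟩, fun v hv => ?_⟩
    obtain ⟨y, hy, rfl⟩ := Finset.mem_image.1 hv
    rw [← himg]
    exact hB2 y hy

end

end Run7.h688
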