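import Pool.Agent.Run7.h688.Gadget

/-!
# Colourings of the gadgets
-/

namespace Run7.h688

open Finset

/-- A proper colouring of the gadgets. -/
def colG (x : T) : ℕ :=
  if x.1 = 2 then (x.2.2 + 1) % 3
  else if x.1 = 4 then x.2.1 % 2
  else if x.1 = 3 then x.2.1 + 2
  else if x.1 = 6 ∧ x.2.2 < 2 then x.2.2
  else if x.1 = 6 then x.2.1 + 2
  else x.2.2 + 2

theorem colG_lt {L : ℕ} {x : T} (h : okG L x) : colG x < L + 3 := by
  obtain ⟨a, b, c⟩ := x
  unfold okG at h
  unfold colG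
  simp only at h ⊢
  rcases h with h | h | h | h | h | h <;> obtain ⟨rfl, h⟩ := h <;> simp <;>
    (try split_ifs) <;> omega

theorem colG_ne {L : ℕ} {x y : T} (hx : okG L x) (hy : okG L y) (h : gR x y) :
    colG x ≠ colG y := by
  obtain ⟨a, b, c⟩ := x
  obtain ⟨a', b', c'⟩ := y
  have up : ∀ a b c a' b' c' : ℕ, okG L (a, b, c) → okG L (a', b', c') →
      uR (a, b, c) (a', b', c') → colG (a, b, c) ≠ colG (a', b', c') := by
    intro a b c a' b' c' hx hy h
    unfold uR at h
    unfold okG at hx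
    simp only at h hx
    obtain ⟨h1, rfl | ⟨rfl, rfl, rfl⟩⟩ := h
    · unfold colG
      simp only
      rcases hx with h | h | h | h | h | h <;> obtain ⟨rfl, h⟩ := h <;> simp <;>
        (try split_ifs) <;> omega
    · unfold colG
      simp
      omega
  have bs : ∀ a b c a' b' c' : ℕ, b = 0 → b' = 0 → bR (a, b, c) (a', b', c') →
      colG (a, b, c) ≠ colG (a', b', c') := by
    intro a b c a' b' c' hb hb' h
    unfold bR at h
    simp only at h
    subst hb hb'
    unfold colG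
    rcases h with ⟨rfl, rfl, h⟩ | ⟨rfl, rfl, h⟩
    · simp
      omega
    · simp
      omega
  unfold gR at h
  rcases h with h | h | h | h
  · exact up _ _ _ _ _ _ hx hy h
  · exact (up _ _ _ _ _ _ hy hx h).symm
  · unfold E at h
    unfold okG at hx hy
    simp only at h hx hy
    obtain ⟨rfl, h1, h2, h3⟩ := h
    unfold colG
    simp only
    rcases hx with hx | hx | hx | hx | hx | hx <;> obtain ⟨rfl, hx⟩ := hx <;>
    rcases hy with hy | hy | hy | hy | hy | hy <;> obtain ⟨rfl, hy⟩ := hy <;>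
    simp at h2 h3 ⊢ <;> (try split_ifs) <;> omega
  · obtain ⟨h1, h2, h | h⟩ := h
    · exact bs _ _ _ _ _ _ h1 h2 h
    · exact (bs _ _ _ _ _ _ h2 h1 h).symm

/-- Colouring a gadget from a palette of the right size, avoiding one colour at the special
vertex. -/
theorem palette {L : ℕ} (Q : Finset ℕ) (hQ : Q.card = L + 3) (b : ℕ) :
    ∃ f : T → ℕ, (∀ x ∈ VG L, f x ∈ Q) ∧ (∀ x ∈ VG L, ∀ y ∈ VG L, GD.Adj x y → f x ≠ f y) ∧
      f (sp L) ≠ b := by
  classical
  have h1 : 0 < (Q.erase b).card := by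
    have := Finset.pred_card_le_card_erase (s := Q) (a := b)
    omega
  obtain ⟨a, ha⟩ := Finset.card_pos.1 h1
  rw [Finset.mem_erase] at ha
  let e := Q.equivFinOfCardEq hQ
  have hsp : okG L (sp L) := by unfold okG sp; simp
  let i0 : Fin (L + 3) := ⟨colG (sp L), colG_lt hsp⟩
  let e' : Fin (L + 3) ≃ Q := (Equiv.swap i0 (e ⟨a, ha.2⟩)).trans e.symm
  refine ⟨fun x => if h : colG x < L + 3 then (e' ⟨colG x, h⟩ : ℕ) else 0, fun x hx => ?_,
    fun x hx y hy hxy => ?_, ?_⟩
  · have h2 := colG_lt (mem_VG.1 hx)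
    simp only [h2, dif_pos]
    exact (e' _).2
  · have h2 := colG_lt (mem_VG.1 hx)
    have h3 := colG_lt (mem_VG.1 hy)
    simp only [h2, h3, dif_pos]
    intro h4
    have h5 := e'.injective (Subtype.ext h4)
    exact colG_ne (mem_VG.1 hx) (mem_VG.1 hy) hxy (by simpa using h5)
  · have h2 := colG_lt hsp
    simp only [h2, dif_pos]
    have h3 : e' ⟨colG (sp L), h2⟩ = ⟨a, ha.2⟩ := by
      show e.symm (Equiv.swap i0 (e ⟨a, ha.2⟩) i0) = _
      rw [Equiv.swap_apply_left, Equiv.symm_apply_apply]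
    rw [h3]
    exact ha.1

theorem card_VG (L : ℕ) : L + 4 ≤ (VG L).card := by
  classical
  have h := exact_all L
  have h1 : L + 3 ≤ (VG L).card := by
    rw [← h.dw]
    exact dg_lt_card h.mem
  have h2 : 0 < ((VG L).erase (sp L)).card := by
    rw [Finset.card_erase_of_mem h.mem]
    omega
  obtain ⟨v, hv⟩ := Finset.card_pos.1 h2
  rw [Finset.mem_erase] at hv
  have h3 := h.dv v hv.2 hv.1
  have h4 := dg_lt_card (G := GD) hv.2
  omega

end Run7.h688
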