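import Pool.Agent.Run7.h688.Sound

/-!
# From an exact hitting set to a bad part of the big graph
-/

namespace Run7.h688

open Finset

variable {n L : ℕ} {R : ℕ → T → Prop} {K : Finset T}

open Classical in
/-- Completeness. -/
theorem compl (h : SysOK n L R K) (he : EHit n R) :
    ∃ (A : Finset (ℕ × T)) (κ : ℕ), (∀ u ∈ A, okB n L K u) ∧ Bad (BG n L R) A κ := by
  obtain ⟨X, hX⟩ := he
  set KA : Finset T := (Finset.range (n + 1)).image tok ∪ X.filter (fun t => ∃ j < n, R j t)
    with hKA
  set A : Finset (ℕ × T) := emb 0 KA ∪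
    (Finset.range (n + 1)).biUnion (fun j => emb (j + 1) (VG (lv n L j))) with hA
  have hA0 : ∀ t, (0, t) ∈ A ↔ t ∈ KA := by
    intro t
    rw [hA, Finset.mem_union, mem_emb, Finset.mem_biUnion]
    constructor
    · rintro (h1 | ⟨j, -, h2⟩)
      · exact h1.2
      · rw [mem_emb] at h2
        exact absurd h2.1 (by simp)
    · intro h1
      exact Or.inl ⟨rfl, h1⟩
  have hA1 : ∀ j x, (j + 1, x) ∈ A ↔ j ≤ n ∧ x ∈ VG (lv n L j) := by
    intro j x
    rw [hA, Finset.mem_union, mem_emb, Finset.mem_biUnion]
    constructor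
    · rintro (h1 | ⟨i, h1, h2⟩)
      · exact absurd h1.1 (by simp)
      · rw [mem_emb] at h2
        obtain ⟨h3, h4⟩ := h2
        simp only at h3 h4
        have h5 : j = i := by omega
        subst h5
        rw [Finset.mem_range] at h1
        exact ⟨by omega, h4⟩
    · rintro ⟨h1, h2⟩
      exact Or.inr ⟨j, Finset.mem_range.2 (by omega), mem_emb.2 ⟨rfl, h2⟩⟩
  have hKAK : KA ⊆ K := by
    intro t ht
    rw [hKA, Finset.mem_union, Finset.mem_image, Finset.mem_filter] at ht
    rcases ht with ⟨j, hj, rfl⟩ | ⟨-, j, hj, ht⟩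
    · rw [Finset.mem_range] at hj
      exact h.tokK j (by omega)
    · exact h.RK j hj t ht
  have htokKA : ∀ j ≤ n, tok j ∈ KA := by
    intro j hj
    rw [hKA, Finset.mem_union, Finset.mem_image]
    exact Or.inl ⟨j, Finset.mem_range.2 (by omega), rfl⟩
  have hKAc : KA.card ≤ L + 2 := by
    have := Finset.card_le_card hKAK
    have := h.card
    omega
  have hnx : ∀ j ≤ n, nx n j ≤ n ∧ nx n j ≠ j := by
    intro j hj
    have := h.pos
    unfold nx
    split <;> omega
  -- the attached vertices
  set Q : ℕ → Finset T := fun j => KA.filter (att n R j) with hQ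
  have hQc : ∀ j ≤ n, (Q j).card + (lv n L j + 3) = L + 5 := by
    intro j hj
    rcases Nat.lt_or_ge j n with hlt | hge
    · obtain ⟨t, ⟨htX, htR⟩, huniq⟩ := hX j hlt
      have h1 : Q j = {tok j, t} := by
        ext s
        rw [hQ, Finset.mem_filter, Finset.mem_insert, Finset.mem_singleton]
        unfold att
        constructor
        · rintro ⟨h2, h3 | ⟨-, h3⟩⟩
          · exact Or.inl h3
          · right
            refine huniq s ⟨?_, h3⟩
            rw [hKA, Finset.mem_union, Finset.mem_image, Finset.mem_filter] at h2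
            rcases h2 with ⟨i, -, rfl⟩ | ⟨h2, -⟩
            · exact absurd rfl (h.R0 j hlt _ h3)
            · exact h2
        · rintro (rfl | rfl)
          · exact ⟨htokKA j hj, Or.inl rfl⟩
          · refine ⟨?_, Or.inr ⟨hlt, htR⟩⟩
            rw [hKA, Finset.mem_union, Finset.mem_filter]
            exact Or.inr ⟨htX, j, hlt, htR⟩
      have h2 : tok j ≠ t := by
        rintro rfl
        exact h.R0 j hlt _ htR rfl
      rw [h1, Finset.card_pair h2]
      unfold lv
      rw [if_pos hlt]
      omega
    · have hjn : j = n := by omega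
      subst hjn
      have h1 : Q j = {tok j} := by
        ext s
        rw [hQ, Finset.mem_filter, Finset.mem_singleton]
        unfold att
        constructor
        · rintro ⟨h2, h3 | ⟨h3, -⟩⟩
          · exact h3
          · exact absurd h3 (lt_irrefl _)
        · rintro rfl
          exact ⟨htokKA j hj, Or.inl rfl⟩
      rw [h1, Finset.card_singleton]
      unfold lv
      rw [if_neg (lt_irrefl _)]
      omega
  have hQK : ∀ j, Q j ⊆ KA := fun j => Finset.filter_subset _ _
  -- the colours of the clique
  obtain ⟨c0, hc0, hc0i⟩ : ∃ c0 : T → ℕ, (∀ t ∈ KA, c0 t < L + 5) ∧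
      ∀ s ∈ KA, ∀ t ∈ KA, c0 s = c0 t → s = t := by
    refine ⟨fun t => if ht : t ∈ KA then (KA.equivFin ⟨t, ht⟩ : ℕ) else 0, fun t ht => ?_,
      fun s hs t ht hst => ?_⟩
    · simp only [ht, dif_pos]
      have := (KA.equivFin ⟨t, ht⟩).2
      omega
    · simp only [hs, ht, dif_pos] at hst
      have := KA.equivFin.injective (Fin.ext hst)
      simpa using this
  have hpal : ∀ j, j ≤ n → ∃ f : T → ℕ,
      (∀ x ∈ VG (lv n L j), f x ∈ Finset.range (L + 5) \ (Q j).image c0) ∧
      (∀ x ∈ VG (lv n L j), ∀ y ∈ VG (lv n L j), GD.Adj x y → f x ≠ f y) ∧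
      f (sp (lv n L j)) ≠ c0 (tok (nx n j)) := by
    intro j hj
    refine palette _ ?_ _
    rw [Finset.card_sdiff_of_subset, Finset.card_range, Finset.card_image_of_injOn]
    · have := hQc j hj
      omega
    · intro s hs t ht hst
      exact hc0i s (hQK j hs) t (hQK j ht) hst
    · intro y hy
      rw [Finset.mem_image] at hy
      obtain ⟨t, ht, rfl⟩ := hy
      rw [Finset.mem_range]
      exact hc0 t (hQK j ht)
  choose! f hf using hpal
  have hokB : ∀ u ∈ A, okB n L K u := by
    rintro ⟨g, t⟩ hu
    rcases g with _ | j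
    · exact Or.inl ⟨rfl, hKAK ((hA0 t).1 hu)⟩
    · obtain ⟨h1, h2⟩ := (hA1 j t).1 hu
      rw [mem_VG] at h2
      exact Or.inr ⟨Nat.succ_pos j, by simpa using h1, by simpa using h2⟩
  refine ⟨A, L + 5, hokB, ⟨(0, tok 0), (hA0 _).2 (htokKA 0 (Nat.zero_le _))⟩, ?_, ?_⟩
  · -- colouring
    have hKg : ∀ t j x, (0, t) ∈ A → (j + 1, x) ∈ A → kg n L R t j x → c0 t ≠ f j x := by
      intro t j x ht hx hk
      rw [hA0] at ht
      obtain ⟨hj, hx⟩ := (hA1 j x).1 hx
      obtain ⟨f1, f2, f3⟩ := hf j hj
      rcases hk with hk | ⟨rfl, rfl⟩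
      · intro e
        have h1 := f1 x hx
        rw [Finset.mem_sdiff] at h1
        refine h1.2 ?_
        rw [← e]
        exact Finset.mem_image_of_mem _ (by rw [hQ, Finset.mem_filter]; exact ⟨ht, hk⟩)
      · exact f3.symm
    refine ⟨fun u => if u.1 = 0 then c0 u.2 else f (u.1 - 1) u.2, ?_, ?_⟩
    · rintro ⟨g, t⟩ hu ⟨g', t'⟩ hv huv
      rcases g with _ | j <;> rcases g' with _ | j'
      · simp only [if_true]
        rw [BG_KK] at huv
        rw [hA0] at hu hv
        exact fun e => huv (hc0i t hu t' hv e)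
      · rw [BG_Kg] at huv
        simpa using hKg t j' t' hu hv huv
      · rw [BG_gK] at huv
        simpa using (hKg t' j t hv hu huv).symm
      · rw [BG_gg] at huv
        obtain ⟨rfl, huv⟩ := huv
        obtain ⟨hj, hx⟩ := (hA1 j t).1 hu
        obtain ⟨-, hy⟩ := (hA1 j t').1 hv
        simpa using (hf j hj).2.1 t hx t' hy huv
    · have h1 : A.image (fun u : ℕ × T => if u.1 = 0 then c0 u.2 else f (u.1 - 1) u.2) ⊆
          Finset.range (L + 5) := by
        intro y hy
        rw [Finset.mem_image] at hy
        obtain ⟨⟨g, t⟩, hu, rfl⟩ := hy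
        rcases g with _ | j
        · simp only [if_true]
          rw [Finset.mem_range]
          exact hc0 t ((hA0 t).1 hu)
        · obtain ⟨hj, hx⟩ := (hA1 j t).1 hu
          have h2 := (hf j hj).1 t hx
          rw [Finset.mem_sdiff] at h2
          simpa using h2.1
      have h2 := Finset.card_le_card h1
      rwa [Finset.card_range] at h2
  · -- degrees
    have hK : ∀ t ∈ KA, ∀ j ≤ n, att n R j t → ∀ s ∈ KA, s ≠ t →
        L + 5 ≤ dg (BG n L R) A (0, t) := by
      intro t ht j hj hat s hs hst
      have h1 : (emb (j + 1) (VG (lv n L j)) ∪ {((0, s) : ℕ × T)}).card ≤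
          dg (BG n L R) A (0, t) := by
        refine le_dg ?_ ?_
        · refine Finset.union_subset ?_ ?_
          · rintro ⟨g, x⟩ hx
            rw [mem_emb] at hx
            obtain ⟨h2, h3⟩ := hx
            simp only at h2 h3
            subst h2
            exact (hA1 j x).2 ⟨hj, h3⟩
          · rw [Finset.singleton_subset_iff]
            exact (hA0 s).2 hs
        · rintro ⟨g, x⟩ hx
          rw [Finset.mem_union, mem_emb, Finset.mem_singleton] at hx
          rcases hx with ⟨h2, h3⟩ | h2
          · simp only at h2 h3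
            subst h2
            rw [BG_Kg]
            exact Or.inl hat
          · rw [h2, BG_KK]
            exact hst.symm
      rw [Finset.card_union_of_disjoint, card_emb, Finset.card_singleton] at h1
      · have h2 := card_VG (lv n L j)
        have h3 : L ≤ lv n L j := by unfold lv; split <;> omega
        omega
      · rw [Finset.disjoint_singleton_right, mem_emb]
        simp
    have hg : ∀ j ≤ n, ∀ x ∈ VG (lv n L j),
        dg GD (VG (lv n L j)) x + (Q j).card ≤ dg (BG n L R) A (j + 1, x) ∧
        (x = sp (lv n L j) →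
          dg GD (VG (lv n L j)) x + (Q j).card + 1 ≤ dg (BG n L R) A (j + 1, x)) := by
      intro j hj x hx
      have hB : (emb (j + 1) ((VG (lv n L j)).filter (GD.Adj x)) ∪ emb 0 (Q j)).card =
          dg GD (VG (lv n L j)) x + (Q j).card := by
        rw [Finset.card_union_of_disjoint, card_emb, card_emb]
        · unfold dg
          congr
        · rw [Finset.disjoint_left]
          rintro ⟨g, t⟩ h2 h3
          rw [mem_emb] at h2 h3
          have h4 := h2.1
          have h5 := h3.1
          simp only at h4 h5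
          omega
      have hBA : emb (j + 1) ((VG (lv n L j)).filter (GD.Adj x)) ∪ emb 0 (Q j) ⊆ A := by
        refine Finset.union_subset ?_ ?_
        · rintro ⟨g, y⟩ hy
          rw [mem_emb, Finset.mem_filter] at hy
          obtain ⟨h2, h3⟩ := hy
          simp only at h2 h3
          subst h2
          exact (hA1 j y).2 ⟨hj, h3.1⟩
        · rintro ⟨g, y⟩ hy
          rw [mem_emb] at hy
          obtain ⟨h2, h3⟩ := hy
          simp only at h2 h3
          subst h2
          exact (hA0 y).2 (hQK j h3)
      have hBadj : ∀ y ∈ emb (j + 1) ((VG (lv n L j)).filter (GD.Adj x)) ∪ emb 0 (Q j),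
          (BG n L R).Adj (j + 1, x) y := by
        rintro ⟨g, y⟩ hy
        rw [Finset.mem_union, mem_emb, mem_emb, Finset.mem_filter] at hy
        rcases hy with ⟨h2, h3⟩ | ⟨h2, h3⟩
        · simp only at h2 h3
          subst h2
          rw [BG_gg]
          exact ⟨rfl, h3.2⟩
        · simp only at h2 h3
          subst h2
          rw [BG_gK]
          rw [hQ, Finset.mem_filter] at h3
          exact Or.inl h3.2
      refine ⟨?_, ?_⟩
      · rw [← hB]
        exact le_dg hBA hBadj
      · intro hxs
        have hnot : ((0, tok (nx n j)) : ℕ × T) ∉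
            emb (j + 1) ((VG (lv n L j)).filter (GD.Adj x)) ∪ emb 0 (Q j) := by
          have hQm : ∀ t, t ∈ Q j ↔ t ∈ KA ∧ att n R j t := fun t => by
            rw [hQ, Finset.mem_filter]
          rw [Finset.mem_union, mem_emb, mem_emb, hQm]
          rintro (h2 | ⟨-, -, h2 | ⟨h3, h2⟩⟩)
          · exact absurd h2.1 (by simp)
          · exact (hnx j hj).2 (tok_inj h2)
          · exact h.R0 j h3 _ h2 rfl
        rw [← hB, ← Finset.card_insert_of_notMem hnot]
        refine le_dg ?_ ?_
        · exact Finset.insert_subset ((hA0 _).2 (htokKA _ (hnx j hj).1)) hBA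
        · intro y hy
          rw [Finset.mem_insert] at hy
          rcases hy with rfl | hy
          · rw [BG_gK]
            exact Or.inr ⟨rfl, hxs⟩
          · exact hBadj y hy
    rintro ⟨g, x⟩ hu
    rcases g with _ | j
    · have hx : x ∈ KA := (hA0 x).1 hu
      have hx' := hx
      rw [hKA, Finset.mem_union, Finset.mem_image, Finset.mem_filter] at hx'
      rcases hx' with ⟨j, hj, rfl⟩ | ⟨-, j, hj, hR⟩
      · rw [Finset.mem_range] at hj
        exact hK _ hx j (by omega) (Or.inl rfl) (tok (nx n j)) (htokKA _ (hnx j (by omega)).1)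
          fun e => (hnx j (by omega)).2 (tok_inj e)
      · refine hK _ hx j hj.le (Or.inr ⟨hj, hR⟩) (tok 0) (htokKA 0 (Nat.zero_le _)) ?_
        rintro rfl
        exact h.R0 j hj _ hR rfl
    · obtain ⟨hj, hx⟩ := (hA1 j x).1 hu
      obtain ⟨h1, h2⟩ := hg j hj x hx
      have hE := exact_all (lv n L j)
      have h3 := hQc j hj
      by_cases hxs : x = sp (lv n L j)
      · have h4 := h2 hxs
        have h5 := hE.dw
        rw [← hxs] at h5
        omega
      · have h4 := hE.dv x hx hxs
        omega

end Run7.h688
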