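import Pool.Agent.Run7.h688.Basic

/-!
# The extension step for exact gadgets
-/

namespace Run7.h688

open Finset

variable {V : Type*} {G : SimpleGraph V}

/-- An exact gadget: the only way to have minimum degree at least the number of colours on a
part of `S`, when the special vertex `w` is credited with one further neighbour, is to use `k`
colours and the vertex `w`. -/
structure Exact (G : SimpleGraph V) (S : Finset V) (w : V) (k : ℕ) : Prop where
  mem : w ∈ S
  ex : ∀ A ⊆ S, A.Nonempty → ∀ m, Col G A m → (∀ v ∈ A, v ≠ w → m ≤ dg G A v) →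
    (w ∈ A → 1 ≤ dg G A w ∧ m ≤ dg G A w + 1) → m = k ∧ w ∈ A
  dw : dg G S w + 1 = k
  dv : ∀ v ∈ S, v ≠ w → k ≤ dg G S v

/-- The pairs of parts that are complete to each other. -/
def E (i j : ℕ) : Prop :=
  (i = 0 ∧ j = 1) ∨ (i = 1 ∧ j = 0) ∨ (i = 1 ∧ j = 2) ∨ (i = 2 ∧ j = 1) ∨ (i = 1 ∧ j = 5) ∨
  (i = 5 ∧ j = 1) ∨ (i = 2 ∧ j = 3) ∨ (i = 3 ∧ j = 2) ∨ (i = 3 ∧ j = 3) ∨ (i = 3 ∧ j = 4) ∨
  (i = 4 ∧ j = 3) ∨ (i = 4 ∧ j = 4) ∨ (i = 4 ∧ j = 5) ∨ (i = 5 ∧ j = 4) ∨ (i = 5 ∧ j = 5)

/-- `S'` with special vertex `c` is the extension of `S` with special vertex `w`. -/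
structure IsExt (G : SimpleGraph V) (S : Finset V) (w : V) (k : ℕ) (S' : Finset V) (c : V)
    (P : V → ℕ) : Prop where
  lt : ∀ x ∈ S', P x < 6
  sub : S ⊆ S'
  zero : ∀ x ∈ S', (P x = 0 ↔ x ∈ S)
  hc : c ∈ S'
  two : ∀ x ∈ S', (P x = 2 ↔ x = c)
  c1 : (S'.filter fun x => P x = 1).card = 1
  c3 : (S'.filter fun x => P x = 3).card + 2 = k
  c4 : (S'.filter fun x => P x = 4).card = 3
  c5 : (S'.filter fun x => P x = 5).card + 2 = k
  adj : ∀ x ∈ S', ∀ y ∈ S', x ≠ y → ¬ (P x = 0 ∧ P y = 0) → ¬ (P x = 0 ∧ P y = 2) →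
    ¬ (P x = 2 ∧ P y = 0) → (G.Adj x y ↔ E (P x) (P y))
  adjw : ∀ x ∈ S, (G.Adj x c ↔ x = w)

section

variable {S : Finset V} {w : V} {k : ℕ} {S' : Finset V} {c : V} {P : V → ℕ} {A : Finset V}
  {v : V} {i j : ℕ}

/-- The part `i` of `A`. -/
def pt (P : V → ℕ) (A : Finset V) (i : ℕ) : Finset V := A.filter fun x => P x = i

theorem mem_pt {x : V} : x ∈ pt P A i ↔ x ∈ A ∧ P x = i := by
  unfold pt; rw [Finset.mem_filter]

theorem pt_sub : pt P A i ⊆ A := Finset.filter_subset _ _

theorem IsExt.full (h : IsExt G S w k S' c P) (hA : A ⊆ S') (hv : v ∈ A) (hi : P v = i)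
    (hij : i ≠ j) (he : E i j) (h1 : ¬ (i = 0 ∧ j = 2) ∧ ¬ (i = 2 ∧ j = 0)) :
    dg G (pt P A j) v = (pt P A j).card := by
  refine dg_full fun y hy => ?_
  rw [mem_pt] at hy
  have hne : v ≠ y := fun e => hij (by rw [← hi, ← hy.2, e])
  rw [h.adj v (hA hv) y (hA hy.1) hne (by omega) (by omega) (by omega), hi, hy.2]
  exact he

theorem IsExt.none (h : IsExt G S w k S' c P) (hA : A ⊆ S') (hv : v ∈ A) (hi : P v = i)
    (he : ¬ E i j) (h1 : ¬ (i = 0 ∧ j = 0) ∧ ¬ (i = 0 ∧ j = 2) ∧ ¬ (i = 2 ∧ j = 0)) :
    dg G (pt P A j) v = 0 := by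
  refine dg_none fun y hy ha => ?_
  rw [mem_pt] at hy
  have hne : v ≠ y := ha.ne
  rw [h.adj v (hA hv) y (hA hy.1) hne (by omega) (by omega) (by omega), hi, hy.2] at ha
  exact he ha

theorem IsExt.cl (h : IsExt G S w k S' c P) (hA : A ⊆ S') (he : E i i) (h0 : i ≠ 0) :
    Cl G (pt P A i) := by
  intro x hx y hy hne
  rw [mem_pt] at hx hy
  rw [h.adj x (hA hx.1) y (hA hy.1) hne (by omega) (by omega) (by omega), hx.2, hy.2]
  exact he

theorem IsExt.self (h : IsExt G S w k S' c P) (hA : A ⊆ S') (hv : v ∈ A) (hi : P v = i)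
    (he : E i i) (h0 : i ≠ 0) : dg G (pt P A i) v + 1 = (pt P A i).card :=
  dg_clique (mem_pt.2 ⟨hv, hi⟩) (h.cl hA he h0)

theorem IsExt.dsum (h : IsExt G S w k S' c P) (hA : A ⊆ S') (v : V) :
    dg G A v = dg G (pt P A 0) v + dg G (pt P A 1) v + dg G (pt P A 2) v + dg G (pt P A 3) v +
      dg G (pt P A 4) v + dg G (pt P A 5) v := by
  rw [dg_parts P 6 fun x hx => h.lt x (hA hx)]
  simp only [Finset.sum_range_succ, Finset.sum_range_zero, zero_add]
  rfl

theorem IsExt.deg1 (h : IsExt G S w k S' c P) (hA : A ⊆ S') (hv : v ∈ A) (hi : P v = 1) :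
    dg G A v = (pt P A 0).card + (pt P A 2).card + (pt P A 5).card := by
  have hu : dg G (pt P A 1) v = 0 := h.none hA hv hi (by unfold E; omega) (by omega)
  rw [h.dsum hA v, h.full (j := 0) hA hv hi (by omega) (by unfold E; omega) (by omega),
    hu, h.full (j := 2) hA hv hi (by omega) (by unfold E; omega) (by omega),
    h.none (j := 3) hA hv hi (by unfold E; omega) (by omega),
    h.none (j := 4) hA hv hi (by unfold E; omega) (by omega),
    h.full (j := 5) hA hv hi (by omega) (by unfold E; omega) (by omega)]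
  omega

theorem IsExt.deg2 (h : IsExt G S w k S' c P) (hA : A ⊆ S') (hv : v ∈ A) (hi : P v = 2) :
    dg G A v = dg G (pt P A 0) v + (pt P A 1).card + (pt P A 3).card := by
  rw [h.dsum hA v, h.full (j := 1) hA hv hi (by omega) (by unfold E; omega) (by omega),
    h.none (j := 2) hA hv hi (by unfold E; omega) (by omega),
    h.full (j := 3) hA hv hi (by omega) (by unfold E; omega) (by omega),
    h.none (j := 4) hA hv hi (by unfold E; omega) (by omega),
    h.none (j := 5) hA hv hi (by unfold E; omega) (by omega)]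
  omega

theorem IsExt.deg3 (h : IsExt G S w k S' c P) (hA : A ⊆ S') (hv : v ∈ A) (hi : P v = 3) :
    dg G A v + 1 = (pt P A 2).card + (pt P A 3).card + (pt P A 4).card := by
  have h3 := h.self hA hv hi (by unfold E; omega) (by omega)
  rw [h.dsum hA v, h.none (j := 0) hA hv hi (by unfold E; omega) (by omega),
    h.none (j := 1) hA hv hi (by unfold E; omega) (by omega),
    h.full (j := 2) hA hv hi (by omega) (by unfold E; omega) (by omega),
    h.full (j := 4) hA hv hi (by omega) (by unfold E; omega) (by omega),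
    h.none (j := 5) hA hv hi (by unfold E; omega) (by omega)]
  omega

theorem IsExt.deg4 (h : IsExt G S w k S' c P) (hA : A ⊆ S') (hv : v ∈ A) (hi : P v = 4) :
    dg G A v + 1 = (pt P A 3).card + (pt P A 4).card + (pt P A 5).card := by
  have h3 := h.self hA hv hi (by unfold E; omega) (by omega)
  rw [h.dsum hA v, h.none (j := 0) hA hv hi (by unfold E; omega) (by omega),
    h.none (j := 1) hA hv hi (by unfold E; omega) (by omega),
    h.none (j := 2) hA hv hi (by unfold E; omega) (by omega),
    h.full (j := 3) hA hv hi (by omega) (by unfold E; omega) (by omega),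
    h.full (j := 5) hA hv hi (by omega) (by unfold E; omega) (by omega)]
  omega

theorem IsExt.deg5 (h : IsExt G S w k S' c P) (hA : A ⊆ S') (hv : v ∈ A) (hi : P v = 5) :
    dg G A v + 1 = (pt P A 1).card + (pt P A 4).card + (pt P A 5).card := by
  have h3 := h.self hA hv hi (by unfold E; omega) (by omega)
  rw [h.dsum hA v, h.none (j := 0) hA hv hi (by unfold E; omega) (by omega),
    h.full (j := 1) hA hv hi (by omega) (by unfold E; omega) (by omega),
    h.none (j := 2) hA hv hi (by unfold E; omega) (by omega),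
    h.none (j := 3) hA hv hi (by unfold E; omega) (by omega),
    h.full (j := 4) hA hv hi (by omega) (by unfold E; omega) (by omega)]
  omega

theorem IsExt.deg0 (h : IsExt G S w k S' c P) (hA : A ⊆ S') (hv : v ∈ A) (hi : P v = 0)
    (hw : v ≠ w) : dg G A v = dg G (pt P A 0) v + (pt P A 1).card := by
  have h2 : dg G (pt P A 2) v = 0 := by
    refine dg_none fun y hy ha => ?_
    rw [mem_pt] at hy
    rw [(h.two y (hA hy.1)).1 hy.2] at ha
    exact hw ((h.adjw v ((h.zero v (hA hv)).1 hi)).1 ha)
  rw [h.dsum hA v, h2, h.full (j := 1) hA hv hi (by omega) (by unfold E; omega) (by omega),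
    h.none (j := 3) hA hv hi (by unfold E; omega) (by omega),
    h.none (j := 4) hA hv hi (by unfold E; omega) (by omega),
    h.none (j := 5) hA hv hi (by unfold E; omega) (by omega)]
  omega

theorem IsExt.degw (h : IsExt G S w k S' c P) (hA : A ⊆ S') (hv : w ∈ A) (hi : P w = 0) :
    dg G A w = dg G (pt P A 0) w + (pt P A 1).card + (pt P A 2).card := by
  have h2 : dg G (pt P A 2) w = (pt P A 2).card := by
    refine dg_full fun y hy => ?_
    rw [mem_pt] at hy
    rw [(h.two y (hA hy.1)).1 hy.2]
    exact (h.adjw w ((h.zero w (hA hv)).1 hi)).2 rfl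
  rw [h.dsum hA w, h2, h.full (j := 1) hA hv hi (by omega) (by unfold E; omega) (by omega),
    h.none (j := 3) hA hv hi (by unfold E; omega) (by omega),
    h.none (j := 4) hA hv hi (by unfold E; omega) (by omega),
    h.none (j := 5) hA hv hi (by unfold E; omega) (by omega)]
  omega

theorem pt_disj (hij : i ≠ j) : Disjoint (pt P A i) (pt P A j) := by
  rw [Finset.disjoint_left]
  intro x hx hy
  rw [mem_pt] at hx hy
  exact hij (hx.2.symm.trans hy.2)

theorem card_pt_mono (hA : A ⊆ S') : (pt P A i).card ≤ (pt P S' i).card :=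
  Finset.card_le_card (Finset.filter_subset_filter _ hA)

/-- Two complete parts which are cliques form a clique. -/
theorem IsExt.clq [DecidableEq V] (h : IsExt G S w k S' c P) (hA : A ⊆ S')
    (h1 : Cl G (pt P A i)) (h2 : Cl G (pt P A j)) (he : E i j) (he' : E j i)
    (hn : ¬ (i = 0 ∧ j = 0) ∧ ¬ (i = 0 ∧ j = 2) ∧ ¬ (i = 2 ∧ j = 0)) :
    Cl G (pt P A i ∪ pt P A j) := by
  intro x hx y hy hne
  rw [Finset.mem_union] at hx hy
  rcases hx with hx | hx <;> rcases hy with hy | hy
  · exact h1 x hx y hy hne
  · rw [mem_pt] at hx hy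
    rw [h.adj x (hA hx.1) y (hA hy.1) hne (by omega) (by omega) (by omega), hx.2, hy.2]
    exact he
  · rw [mem_pt] at hx hy
    rw [h.adj x (hA hx.1) y (hA hy.1) hne (by omega) (by omega) (by omega), hx.2, hy.2]
    exact he'
  · exact h2 x hx y hy hne

theorem cl_one {Q : Finset V} (h : Q.card ≤ 1) : Cl G Q := fun x hx y hy hne =>
  absurd (Finset.card_le_one.1 h x hx y hy) hne

theorem exists_pt (h : (pt P A i).card ≠ 0) : ∃ v ∈ A, P v = i := by
  obtain ⟨v, hv⟩ := Finset.card_pos.1 (Nat.pos_of_ne_zero h)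
  exact ⟨v, (mem_pt.1 hv).1, (mem_pt.1 hv).2⟩

theorem IsExt.clqb [DecidableEq V] (h : IsExt G S w k S' c P) (hA : A ⊆ S') {m : ℕ} {f : V → ℕ}
    (hf : IsCol G A m f)
    (h1 : Cl G (pt P A i)) (h2 : Cl G (pt P A j)) (he : E i j) (he' : E j i)
    (hn : ¬ (i = 0 ∧ j = 0) ∧ ¬ (i = 0 ∧ j = 2) ∧ ¬ (i = 2 ∧ j = 0)) (hij : i ≠ j) :
    (pt P A i).card + (pt P A j).card ≤ m := by
  have := hf.clique_le (Finset.union_subset pt_sub pt_sub) (h.clq hA h1 h2 he he' hn)
  rwa [Finset.card_union_of_disjoint (pt_disj hij)] at this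

/-- The extension of an exact gadget is exact. -/
theorem Exact.ext (hk : 3 ≤ k) (hS : Exact G S w k) (h : IsExt G S w k S' c P) :
    Exact G S' c (k + 1) := by
  classical
  have hwS' : w ∈ S' := h.sub hS.mem
  have hw0 : P w = 0 := (h.zero w hwS').2 hS.mem
  have hc2 : P c = 2 := (h.two c h.hc).2 rfl
  have m2 : ∀ A ⊆ S', (pt P A 2).card ≤ 1 := fun A hA => by
    rw [Finset.card_le_one]
    intro x hx y hy
    rw [mem_pt] at hx hy
    rw [(h.two x (hA hx.1)).1 hx.2, (h.two y (hA hy.1)).1 hy.2]
  have hc2' : ∀ A ⊆ S', (c ∈ A ↔ (pt P A 2).card = 1) := fun A hA => by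
    constructor
    · intro hc
      exact le_antisymm (m2 A hA) (Finset.card_pos.2 ⟨c, mem_pt.2 ⟨hc, hc2⟩⟩)
    · intro h1
      obtain ⟨v, hv, hv2⟩ := exists_pt (by rw [h1]; omega)
      rw [(h.two v (hA hv)).1 hv2] at hv
      exact hv
  have m1 : ∀ A ⊆ S', (pt P A 1).card ≤ 1 := fun A hA => (card_pt_mono hA).trans (le_of_eq h.c1)
  have d0 : ∀ A ⊆ S', dg G (pt P A 0) c ≤ 1 := fun A hA => by
    rw [← Finset.card_singleton w]
    refine dg_le fun y hy ha => ?_
    rw [mem_pt] at hy
    rw [Finset.mem_singleton]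
    exact (h.adjw y ((h.zero y (hA hy.1)).1 hy.2)).1 ha.symm
  refine ⟨h.hc, ?_, ?_, ?_⟩
  · rintro A hA hne m ⟨f, hf⟩ hdeg hsp
    -- cliques
    have c1 : Cl G (pt P A 1) := cl_one (m1 A hA)
    have c2 : Cl G (pt P A 2) := cl_one (m2 A hA)
    have c3 : Cl G (pt P A 3) := h.cl hA (by unfold E; omega) (by omega)
    have c4 : Cl G (pt P A 4) := h.cl hA (by unfold E; omega) (by omega)
    have c5 : Cl G (pt P A 5) := h.cl hA (by unfold E; omega) (by omega)
    have q12 := h.clqb hA hf c1 c2 (by unfold E; omega) (by unfold E; omega) (by omega) (by omega)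
    have q15 := h.clqb hA hf c1 c5 (by unfold E; omega) (by unfold E; omega) (by omega) (by omega)
    have q23 := h.clqb hA hf c2 c3 (by unfold E; omega) (by unfold E; omega) (by omega) (by omega)
    have q34 := h.clqb hA hf c3 c4 (by unfold E; omega) (by unfold E; omega) (by omega) (by omega)
    have q45 := h.clqb hA hf c4 c5 (by unfold E; omega) (by unfold E; omega) (by omega) (by omega)
    have b1 := m1 A hA
    have b2 := m2 A hA
    have hlt : ∀ v ∈ A, P v < 6 := fun v hv => h.lt v (hA hv)
    have e1 : (pt P A 1).card ≠ 0 → m ≤ (pt P A 0).card + (pt P A 2).card + (pt P A 5).card := by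
      intro hh
      obtain ⟨v, hv, hi⟩ := exists_pt hh
      rw [← h.deg1 hA hv hi]
      exact hdeg v hv fun e => by rw [e, hc2] at hi; omega
    have e3 : (pt P A 3).card ≠ 0 →
        m + 1 ≤ (pt P A 2).card + (pt P A 3).card + (pt P A 4).card := by
      intro hh
      obtain ⟨v, hv, hi⟩ := exists_pt hh
      rw [← h.deg3 hA hv hi]
      exact Nat.succ_le_succ (hdeg v hv fun e => by rw [e, hc2] at hi; omega)
    have e4 : (pt P A 4).card ≠ 0 →
        m + 1 ≤ (pt P A 3).card + (pt P A 4).card + (pt P A 5).card := by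
      intro hh
      obtain ⟨v, hv, hi⟩ := exists_pt hh
      rw [← h.deg4 hA hv hi]
      exact Nat.succ_le_succ (hdeg v hv fun e => by rw [e, hc2] at hi; omega)
    have e5 : (pt P A 5).card ≠ 0 →
        m + 1 ≤ (pt P A 1).card + (pt P A 4).card + (pt P A 5).card := by
      intro hh
      obtain ⟨v, hv, hi⟩ := exists_pt hh
      rw [← h.deg5 hA hv hi]
      exact Nat.succ_le_succ (hdeg v hv fun e => by rw [e, hc2] at hi; omega)
    by_cases hB : (pt P A 0).card = 0
    · -- nothing in the old gadget
      exfalso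
      have hB' : dg G (pt P A 0) c = 0 := by
        have := dg_le (G := G) (A := pt P A 0) (B := pt P A 0) (v := c) fun y hy _ => hy
        omega
      have e2 : (pt P A 2).card ≠ 0 → 1 ≤ (pt P A 1).card + (pt P A 3).card := by
        intro hh
        obtain ⟨v, hv, hi⟩ := exists_pt hh
        have hvc : v = c := (h.two v (hA hv)).1 hi
        rw [hvc] at hv hi
        have := (hsp hv).1
        rw [h.deg2 hA hv hi, hB'] at this
        omega
      by_cases hZ : (pt P A 4).card = 0
      · have hpos : 0 < m := by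
          have := Col.pos ⟨f, hf⟩ hne
          omega
        obtain ⟨v, hv⟩ := hne
        have hv6 := hlt v hv
        have hpv : (pt P A (P v)).card ≠ 0 := by
          have : 0 < (pt P A (P v)).card := Finset.card_pos.2 ⟨v, mem_pt.2 ⟨hv, rfl⟩⟩
          omega
        have : P v = 0 ∨ P v = 1 ∨ P v = 2 ∨ P v = 3 ∨ P v = 4 ∨ P v = 5 := by omega
        rcases this with e | e | e | e | e | e <;> rw [e] at hpv <;> omega
      · have f4 : (pt P A 4).card = 1 := by omega
        have f5 : (pt P A 5).card + 1 = m := by omega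
        have f3 : (pt P A 3).card + 1 = m := by omega
        have f1 : (pt P A 1).card = 1 := by omega
        have f2 : (pt P A 2).card = 1 := by omega
        obtain ⟨z, hz⟩ := Finset.card_eq_one.1 f4
        have hzA : z ∈ pt P A 4 := by rw [hz]; exact Finset.mem_singleton_self z
        obtain ⟨u, hu, hu1⟩ := exists_pt (P := P) (A := A) (i := 1) (by omega)
        obtain ⟨c', hc', hc1⟩ := exists_pt (P := P) (A := A) (i := 2) (by omega)
        -- the colour of `u`
        have k1 := hf.surj (Finset.union_subset pt_sub pt_sub)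
          (h.clq hA c4 c5 (by unfold E; omega) (by unfold E; omega) (by omega))
          (by rw [Finset.card_union_of_disjoint (pt_disj (by omega))]; omega) u hu
        have k2 := hf.surj (Finset.union_subset pt_sub pt_sub)
          (h.clq hA c3 c4 (by unfold E; omega) (by unfold E; omega) (by omega))
          (by rw [Finset.card_union_of_disjoint (pt_disj (by omega))]; omega) c' hc'
        obtain ⟨q1, hq1, hqu⟩ := k1
        obtain ⟨q2, hq2, hqc⟩ := k2
        have g1 : f u = f z := by
          rw [Finset.mem_union] at hq1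
          rcases hq1 with hq1 | hq1
          · rw [hz, Finset.mem_singleton] at hq1
            rw [← hqu, hq1]
          · exfalso
            rw [mem_pt] at hq1
            refine hf.ne q1 hq1.1 u hu ?_ hqu
            rw [h.adj q1 (hA hq1.1) u (hA hu) (fun e => by rw [e] at hq1; omega) (by omega)
              (by omega) (by omega), hq1.2, hu1]
            unfold E; omega
        have g2 : f c' = f z := by
          rw [Finset.mem_union] at hq2
          rcases hq2 with hq2 | hq2
          · exfalso
            rw [mem_pt] at hq2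
            refine hf.ne q2 hq2.1 c' hc' ?_ hqc
            rw [h.adj q2 (hA hq2.1) c' (hA hc') (fun e => by rw [e] at hq2; omega) (by omega)
              (by omega) (by omega), hq2.2, hc1]
            unfold E; omega
          · rw [hz, Finset.mem_singleton] at hq2
            rw [← hqc, hq2]
        refine hf.ne u hu c' hc' ?_ (g1.trans g2.symm)
        rw [h.adj u (hA hu) c' (hA hc') (fun e => by rw [e] at hu1; omega) (by omega)
          (by omega) (by omega), hu1, hc1]
        unfold E; omega
    · -- the old gadget is used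
      have hBne : (pt P A 0).Nonempty := Finset.card_pos.1 (Nat.pos_of_ne_zero hB)
      have hBS : pt P A 0 ⊆ S := fun x hx => by
        rw [mem_pt] at hx
        exact (h.zero x (hA hx.1)).1 hx.2
      have hj := hf.join (Q := pt P A 1) (B := pt P A 0) pt_sub pt_sub c1 (by
        intro q hq b hb
        rw [mem_pt] at hq hb
        rw [h.adj q (hA hq.1) b (hA hb.1) (fun e => by rw [e] at hq; omega) (by omega)
          (by omega) (by omega), hq.2, hb.2]
        unfold E; omega)
      have hwcl : w ∈ A → 1 + (pt P A 1).card + (pt P A 2).card ≤ m := by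
        intro hwA
        have hcl : Cl G ({w} ∪ (pt P A 1 ∪ pt P A 2)) := by
          have h12 := h.clq hA c1 c2 (by unfold E; omega) (by unfold E; omega) (by omega)
          have hwx : ∀ y ∈ pt P A 1 ∪ pt P A 2, G.Adj w y := by
            intro y hy
            rw [Finset.mem_union] at hy
            rcases hy with hy | hy
            · rw [mem_pt] at hy
              rw [h.adj w hwS' y (hA hy.1) (fun e => by rw [← e] at hy; omega) (by omega)
                (by omega) (by omega), hw0, hy.2]
              unfold E; omega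
            · rw [mem_pt] at hy
              rw [(h.two y (hA hy.1)).1 hy.2]
              exact (h.adjw w hS.mem).2 rfl
          intro x hx y hy hne
          rw [Finset.mem_union, Finset.mem_singleton] at hx hy
          rcases hx with hx | hx <;> rcases hy with hy | hy
          · exact absurd (hx.trans hy.symm) hne
          · rw [hx]; exact hwx y hy
          · rw [hy]; exact (hwx x hx).symm
          · exact h12 x hx y hy hne
        have := hf.clique_le (Finset.union_subset (Finset.singleton_subset_iff.2 hwA)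
          (Finset.union_subset pt_sub pt_sub)) hcl
        rw [Finset.card_union_of_disjoint, Finset.card_union_of_disjoint (pt_disj (by omega)),
          Finset.card_singleton] at this
        · omega
        · rw [Finset.disjoint_singleton_left, Finset.mem_union, mem_pt, mem_pt]
          omega
      have hpos : 1 ≤ ((pt P A 0).image f).card :=
        Finset.card_pos.2 (hBne.image f)
      have key := hS.ex (pt P A 0) hBS hBne (m - (pt P A 1).card)
        ⟨f, fun x hx y hy => hf.ne x (pt_sub hx) y (pt_sub hy), by omega⟩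
        (fun v hv hvw => by
          rw [mem_pt] at hv
          have := hdeg v hv.1 fun e => by rw [e, hc2] at hv; omega
          rw [h.deg0 hA hv.1 hv.2 hvw] at this
          omega)
        (fun hw => by
          rw [mem_pt] at hw
          have h1 := hdeg w hw.1 fun e => by rw [e, hc2] at hw0; omega
          rw [h.degw hA hw.1 hw0] at h1
          have h2 := hwcl hw.1
          omega)
      obtain ⟨km, kw⟩ := key
      have hwA : w ∈ A := (mem_pt.1 kw).1
      have h1 := hdeg w hwA fun e => by rw [e, hc2] at hw0; omega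
      rw [h.degw hA hwA hw0] at h1
      have h2 : dg G (pt P A 0) w ≤ dg G S w := dg_mono hBS
      have h3 := hS.dw
      have f2 : (pt P A 2).card = 1 := by omega
      have hcA : c ∈ A := (hc2' A hA).2 f2
      have h4 := (hsp hcA).2
      rw [h.deg2 hA hcA hc2] at h4
      have h5 := d0 A hA
      have h6 : (pt P A 3).card + 2 ≤ k := by
        have := card_pt_mono (P := P) (i := 3) hA
        have h7 : (pt P S' 3).card + 2 = k := h.c3
        omega
      have h8 : (pt P A 5).card + 2 ≤ k := by
        have := card_pt_mono (P := P) (i := 5) hA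
        have h7 : (pt P S' 5).card + 2 = k := h.c5
        omega
      refine ⟨by omega, hcA⟩
  · have hd : dg G (pt P S' 0) c = 1 := by
      refine le_antisymm (d0 S' (Finset.Subset.refl _)) ?_
      rw [← Finset.card_singleton w]
      refine le_dg (Finset.singleton_subset_iff.2 (mem_pt.2 ⟨hwS', hw0⟩)) fun y hy => ?_
      rw [Finset.mem_singleton] at hy
      rw [hy]
      exact ((h.adjw w hS.mem).2 rfl).symm
    have h1 : (pt P S' 1).card = 1 := h.c1
    have h3 : (pt P S' 3).card + 2 = k := h.c3
    rw [h.deg2 (Finset.Subset.refl _) h.hc hc2, hd]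
    omega
  · intro v hv hvc
    have hS0 : pt P S' 0 = S := by
      ext x
      rw [mem_pt]
      exact ⟨fun hx => (h.zero x hx.1).1 hx.2, fun hx => ⟨h.sub hx, (h.zero x (h.sub hx)).2 hx⟩⟩
    have hv6 := h.lt v hv
    have h1 : (pt P S' 1).card = 1 := h.c1
    have h2 : (pt P S' 2).card = 1 := (hc2' S' (Finset.Subset.refl _)).1 h.hc
    have h3 : (pt P S' 3).card + 2 = k := h.c3
    have h4 : (pt P S' 4).card = 3 := h.c4
    have h5 : (pt P S' 5).card + 2 = k := h.c5
    have hcS : k ≤ (pt P S' 0).card := by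
      rw [hS0, ← hS.dw]
      exact dg_lt_card hS.mem
    have : P v = 0 ∨ P v = 1 ∨ P v = 2 ∨ P v = 3 ∨ P v = 4 ∨ P v = 5 := by omega
    rcases this with e | e | e | e | e | e
    · by_cases hvw : v = w
      · rw [hvw, h.degw (Finset.Subset.refl _) hwS' hw0, hS0]
        have := hS.dw
        omega
      · rw [h.deg0 (Finset.Subset.refl _) hv e hvw, hS0]
        have := hS.dv v ((h.zero v hv).1 e) hvw
        omega
    · rw [h.deg1 (Finset.Subset.refl _) hv e]
      omega
    · exact absurd ((h.two v hv).1 e) hvc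
    · have := h.deg3 (Finset.Subset.refl _) hv e
      omega
    · have := h.deg4 (Finset.Subset.refl _) hv e
      omega
    · have := h.deg5 (Finset.Subset.refl _) hv e
      omega

end

end Run7.h688
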