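import Pool.Agent.Run7.h688.Ext

/-!
# The family of exact gadgets
-/

namespace Run7.h688

open Finset

instance (i j : ℕ) : Decidable (E i j) := by unfold E; infer_instance

theorem E_symm {i j : ℕ} (h : E i j) : E j i := by
  unfold E at h ⊢
  rcases h with h | h | h | h | h | h | h | h | h | h | h | h | h | h | h <;>
    (obtain ⟨rfl, rfl⟩ := h; simp)

theorem E_zero {j : ℕ} : E 0 j ↔ j = 1 := by
  unfold E
  simp

theorem E_zero' {j : ℕ} : E j 0 ↔ j = 1 := by
  unfold E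
  simp

/-- Codes of gadget vertices: kind, level, index. -/
abbrev T := ℕ × ℕ × ℕ

/-- Generators of the adjacency of the gadget of level `0`. -/
def bR (x y : T) : Prop :=
  (x.1 = 4 ∧ y.1 = 2 ∧ y.2.2 ≤ 1) ∨
  (x.1 = 2 ∧ y.1 = 2 ∧
    ((x.2.2 = 0 ∧ y.2.2 = 1) ∨ (x.2.2 = 0 ∧ y.2.2 = 2) ∨ (x.2.2 = 2 ∧ y.2.2 = 3) ∨
      (x.2.2 = 2 ∧ y.2.2 = 4) ∨ (x.2.2 = 3 ∧ y.2.2 = 4) ∨ (x.2.2 = 3 ∧ y.2.2 = 5) ∨
      (x.2.2 = 4 ∧ y.2.2 = 5) ∨ (x.2.2 = 1 ∧ y.2.2 = 5)))

instance (x y : T) : Decidable (bR x y) := by unfold bR; infer_instance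

/-- Adjacency from a lower level to a higher level. -/
def uR (x y : T) : Prop :=
  x.2.1 < y.2.1 ∧ (y.1 = 3 ∨ (x.1 = 4 ∧ y.1 = 4 ∧ y.2.1 = x.2.1 + 1))

instance (x y : T) : Decidable (uR x y) := by unfold uR; infer_instance

/-- The adjacency of the gadgets. -/
def gR (x y : T) : Prop :=
  uR x y ∨ uR y x ∨
  (x.2.1 = y.2.1 ∧ 0 < x.2.1 ∧ (x.1 ≠ y.1 ∨ x.2.2 ≠ y.2.2) ∧ E (x.1 - 2) (y.1 - 2)) ∨
  (x.2.1 = 0 ∧ y.2.1 = 0 ∧ (bR x y ∨ bR y x))

instance : DecidableRel gR := fun _ _ => by unfold gR; infer_instance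

theorem gR_symm {x y : T} (h : gR x y) : gR y x := by
  unfold gR at h ⊢
  rcases h with h | h | h | h
  · exact Or.inr (Or.inl h)
  · exact Or.inl h
  · refine Or.inr (Or.inr (Or.inl ⟨h.1.symm, h.1 ▸ h.2.1, ?_, E_symm h.2.2.2⟩))
    exact h.2.2.1.imp Ne.symm Ne.symm
  · exact Or.inr (Or.inr (Or.inr ⟨h.2.1, h.1, h.2.2.symm⟩))

theorem gR_irrefl (x : T) : ¬ gR x x := by
  unfold gR uR bR
  omega

/-- The graph that contains all gadgets. -/
def GD : SimpleGraph T where
  Adj x y := gR x y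
  symm := ⟨fun _ _ h => gR_symm h⟩
  loopless := ⟨fun x h => gR_irrefl x h⟩

theorem GD_adj {x y : T} : GD.Adj x y ↔ gR x y := Iff.rfl

instance : DecidableRel GD.Adj := fun x y => decidable_of_iff _ (GD_adj (x := x) (y := y)).symm

/-- Valid codes. -/
def okG (L : ℕ) (x : T) : Prop :=
  (x.1 = 2 ∧ x.2.1 = 0 ∧ x.2.2 < 6) ∨
  (x.1 = 4 ∧ x.2.1 ≤ L ∧ x.2.2 = 0) ∨
  (x.1 = 3 ∧ 1 ≤ x.2.1 ∧ x.2.1 ≤ L ∧ x.2.2 = 0) ∨
  (x.1 = 5 ∧ 1 ≤ x.2.1 ∧ x.2.1 ≤ L ∧ x.2.2 < x.2.1) ∨
  (x.1 = 6 ∧ 1 ≤ x.2.1 ∧ x.2.1 ≤ L ∧ x.2.2 < 3) ∨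
  (x.1 = 7 ∧ 1 ≤ x.2.1 ∧ x.2.1 ≤ L ∧ x.2.2 < x.2.1)

instance (L : ℕ) : DecidablePred (okG L) := fun _ => by unfold okG; infer_instance

/-- The vertices of the gadget of level `L`. -/
def VG (L : ℕ) : Finset T :=
  (Finset.range 8 ×ˢ (Finset.range (L + 1) ×ˢ Finset.range (L + 6))).filter (okG L)

theorem mem_VG {L : ℕ} {x : T} : x ∈ VG L ↔ okG L x := by
  obtain ⟨a, b, c⟩ := x
  rw [VG, Finset.mem_filter, Finset.mem_product, Finset.mem_product, Finset.mem_range,
    Finset.mem_range, Finset.mem_range]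
  unfold okG
  simp only
  omega

/-- The special vertex. -/
def sp (L : ℕ) : T := (4, L, 0)

/-- The part function for the step from level `l` to level `l + 1`. -/
def PF (l : ℕ) (x : T) : ℕ := if x.2.1 ≤ l then 0 else x.1 - 2

theorem card_part {l j : ℕ} (a n : ℕ)
    (h : ∀ x y z : ℕ, ((x, y, z) ∈ VG (l + 1) ∧ PF l (x, y, z) = j) ↔ x = a ∧ y = l + 1 ∧ z < n) :
    ((VG (l + 1)).filter fun x => PF l x = j).card = n := by
  have e : ((VG (l + 1)).filter fun x => PF l x = j) =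
      (Finset.range n).image fun i => ((a, l + 1, i) : T) := by
    ext ⟨x, y, z⟩
    rw [Finset.mem_filter, h, Finset.mem_image]
    constructor
    · rintro ⟨rfl, rfl, h3⟩
      exact ⟨z, Finset.mem_range.2 h3, rfl⟩
    · rintro ⟨i, h1, h2⟩
      rw [Finset.mem_range] at h1
      simp only [Prod.mk.injEq] at h2
      omega
  rw [e, Finset.card_image_of_injective _ (fun i j h => by simpa using h), Finset.card_range]

theorem isExt (l : ℕ) : IsExt GD (VG l) (sp l) (l + 3) (VG (l + 1)) (sp (l + 1)) (PF l) := by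
  refine ⟨fun x hx => ?_, fun x hx => ?_, fun x hx => ?_, ?_, fun x hx => ?_, ?_, ?_, ?_, ?_,
    fun x hx y hy hne h1 h2 h3 => ?_, fun x hx => ?_⟩
  · rw [mem_VG] at hx
    unfold PF; unfold okG at hx
    split <;> omega
  · rw [mem_VG] at hx ⊢
    unfold okG at hx ⊢
    omega
  · rw [mem_VG] at hx ⊢
    unfold PF; unfold okG at hx ⊢
    split <;> omega
  · rw [mem_VG]; unfold okG sp; simp
  · obtain ⟨a, b, c⟩ := x
    rw [mem_VG] at hx
    unfold PF sp; unfold okG at hx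
    simp only [Prod.mk.injEq]
    simp only at hx
    split <;> omega
  · refine card_part 3 1 fun x y z => ?_
    rw [mem_VG]; unfold okG PF
    simp only
    split <;> omega
  · rw [card_part 5 (l + 1)]
    intro x y z
    rw [mem_VG]; unfold okG PF
    simp only
    split <;> omega
  · refine card_part 6 3 fun x y z => ?_
    rw [mem_VG]; unfold okG PF
    simp only
    split <;> omega
  · rw [card_part 7 (l + 1)]
    intro x y z
    rw [mem_VG]; unfold okG PF
    simp only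
    split <;> omega
  · obtain ⟨a, b, c⟩ := x
    obtain ⟨a', b', c'⟩ := y
    rw [mem_VG] at hx hy
    rw [GD_adj]
    unfold gR uR bR
    unfold PF at h1 h2 h3 ⊢
    unfold okG at hx hy
    simp only [ne_eq, Prod.mk.injEq] at hx hy hne h1 h2 h3 ⊢
    by_cases hb : b ≤ l
    · rw [if_pos hb] at h1 h2 h3 ⊢
      by_cases hb' : b' ≤ l
      · rw [if_pos hb'] at h1
        exact absurd ⟨rfl, rfl⟩ h1
      · rw [if_neg hb'] at h1 h2 h3 ⊢
        rw [E_zero]
        have e2 : b' = l + 1 := by clear hx h1 h2 h3; omega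
        have e3 : 3 ≤ a' := by clear hx h1 h2 h3; omega
        have e4 : a' ≠ 4 := fun e => h2 ⟨rfl, by rw [e]⟩
        subst e2
        clear hx hy h1 h2 h3 hne
        constructor
        · rintro (h | h | h | h)
          · omega
          · omega
          · omega
          · exact absurd h.2.1 (by omega)
        · intro h
          left
          refine ⟨by omega, Or.inl (by omega)⟩
    · rw [if_neg hb] at h1 h2 h3 ⊢
      have e1 : b = l + 1 := by clear hy h1 h2 h3; omega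
      subst e1
      by_cases hb' : b' ≤ l
      · rw [if_pos hb'] at h1 h2 h3 ⊢
        rw [E_zero']
        have e3 : 3 ≤ a := by clear hy h1 h2 h3; omega
        have e4 : a ≠ 4 := fun e => h3 ⟨by rw [e], rfl⟩
        clear hx hy h1 h2 h3 hne
        constructor
        · rintro (h | h | h | h)
          · omega
          · omega
          · omega
          · exact absurd h.1 (by omega)
        · intro h
          right; left
          refine ⟨by omega, Or.inl (by omega)⟩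
      · rw [if_neg hb'] at h1 h2 h3 ⊢
        have e2 : b' = l + 1 := by clear hx h1 h2 h3; omega
        subst e2
        clear hx hy h1 h2 h3
        constructor
        · rintro (h | h | h | h)
          · exact absurd h.1 (by omega)
          · exact absurd h.1 (by omega)
          · exact h.2.2.2
          · exact absurd h.1 (by omega)
        · intro h
          refine Or.inr (Or.inr (Or.inl ⟨rfl, by omega, by omega, h⟩))
  · obtain ⟨a, b, c⟩ := x
    rw [mem_VG] at hx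
    rw [GD_adj]
    unfold gR sp uR
    unfold okG at hx
    simp only [Prod.mk.injEq] at hx ⊢
    have e1 : b ≤ l := by omega
    constructor
    · rintro (h | h | h | h)
      · obtain ⟨-, h | h⟩ := h
        · omega
        · omega
      · exact absurd h.1 (by omega)
      · exact absurd h.1 (by omega)
      · exact absurd h.2.1 (by omega)
    · rintro ⟨rfl, rfl, rfl⟩
      exact Or.inl ⟨Nat.lt_succ_self _, Or.inr (by simp)⟩

/-- The indicator of membership. -/
def I (A : Finset T) (x : T) : ℕ := if x ∈ A then 1 else 0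

theorem I_le (A : Finset T) (x : T) : I A x ≤ 1 := by
  unfold I; split <;> omega

theorem I_iff (A : Finset T) (x : T) : x ∈ A ↔ I A x = 1 := by
  unfold I; split <;> simp [*]

theorem VG_zero : VG 0 =
    {(4, 0, 0), (2, 0, 0), (2, 0, 1), (2, 0, 2), (2, 0, 3), (2, 0, 4), (2, 0, 5)} := by
  decide

theorem dg_base {A : Finset T} (hA : A ⊆ VG 0) (v : T) :
    dg GD A v = ∑ y ∈ VG 0, if GD.Adj v y then I A y else 0 := by
  classical
  unfold dg
  rw [Finset.card_filter, ← Finset.sum_subset hA]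
  · refine Finset.sum_congr rfl fun y hy => ?_
    unfold I
    by_cases h : GD.Adj v y <;> simp [h, hy]
  · intro y _ hy
    unfold I
    rw [if_neg hy]
    simp

theorem base_arith {x0 x1 x2 x3 x4 x5 x6 m : ℕ} (b0 : x0 ≤ 1) (b1 : x1 ≤ 1) (b2 : x2 ≤ 1)
    (b3 : x3 ≤ 1) (b4 : x4 ≤ 1) (b5 : x5 ≤ 1) (b6 : x6 ≤ 1) (hm4 : m < 4) (hm : 1 ≤ m)
    (hpos : 1 ≤ x0 + x1 + x2 + x3 + x4 + x5 + x6)
    (p0 : x0 = 1 → 1 ≤ x1 + x2 ∧ m ≤ x1 + x2 + 1) (p1 : x1 = 1 → m ≤ x0 + x2 + x3)
    (p2 : x2 = 1 → m ≤ x0 + x1 + x6) (p3 : x3 = 1 → m ≤ x1 + x4 + x5)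
    (p4 : x4 = 1 → m ≤ x3 + x5 + x6)
    (p5 : x5 = 1 → m ≤ x3 + x4 + x6) (p6 : x6 = 1 → m ≤ x2 + x4 + x5)
    (n01 : x0 = 1 → x1 = 1 → 2 ≤ m) (n02 : x0 = 1 → x2 = 1 → 2 ≤ m)
    (n12 : x1 = 1 → x2 = 1 → 2 ≤ m)
    (n13 : x1 = 1 → x3 = 1 → 2 ≤ m) (n34 : x3 = 1 → x4 = 1 → 2 ≤ m)
    (n35 : x3 = 1 → x5 = 1 → 2 ≤ m)
    (n45 : x4 = 1 → x5 = 1 → 2 ≤ m) (n46 : x4 = 1 → x6 = 1 → 2 ≤ m)
    (n56 : x5 = 1 → x6 = 1 → 2 ≤ m)
    (n26 : x2 = 1 → x6 = 1 → 2 ≤ m)
    (t1 : x0 = 1 → x1 = 1 → x2 = 1 → 3 ≤ m) (t2 : x3 = 1 → x4 = 1 → x5 = 1 → 3 ≤ m)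
    (t3 : x4 = 1 → x5 = 1 → x6 = 1 → 3 ≤ m)
    (c1 : x1 = 1 → x3 = 1 → x4 = 1 → x6 = 1 → x2 = 1 → 3 ≤ m)
    (c2 : x1 = 1 → x3 = 1 → x5 = 1 → x6 = 1 → x2 = 1 → 3 ≤ m) : m = 3 ∧ x0 = 1 := by
  have hcase : m = 1 ∨ m = 2 ∨ m = 3 := by omega
  rcases hcase with rfl | rfl | rfl
  · exfalso
    have z0 : x0 = 0 := by
      by_contra hh
      have e : x0 = 1 := by omega
      have k := (p0 e).1
      have k1 := n01 e
      have k2 := n02 e
      clear p0 p1 p2 p3 p4 p5 p6 n01 n02 n12 n13 n34 n35 n45 n46 n56 n26 t1 t2 t3 c1 c2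
      omega
    have z1 : x1 = 0 := by
      by_contra hh
      have e : x1 = 1 := by omega
      have k := p1 e
      have k1 := n12 e
      have k2 := n13 e
      clear p0 p1 p2 p3 p4 p5 p6 n01 n02 n12 n13 n34 n35 n45 n46 n56 n26 t1 t2 t3 c1 c2
      omega
    have z2 : x2 = 0 := by
      by_contra hh
      have e : x2 = 1 := by omega
      have k := p2 e
      have k1 := n26 e
      clear p0 p1 p2 p3 p4 p5 p6 n01 n02 n12 n13 n34 n35 n45 n46 n56 n26 t1 t2 t3 c1 c2
      omega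
    have z3 : x3 = 0 := by
      by_contra hh
      have e : x3 = 1 := by omega
      have k := p3 e
      have k1 := n34 e
      have k2 := n35 e
      clear p0 p1 p2 p3 p4 p5 p6 n01 n02 n12 n13 n34 n35 n45 n46 n56 n26 t1 t2 t3 c1 c2
      omega
    have z4 : x4 = 0 := by
      by_contra hh
      have e : x4 = 1 := by omega
      have k := p4 e
      have k1 := n45 e
      have k2 := n46 e
      clear p0 p1 p2 p3 p4 p5 p6 n01 n02 n12 n13 n34 n35 n45 n46 n56 n26 t1 t2 t3 c1 c2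
      omega
    have z5 : x5 = 0 := by
      by_contra hh
      have e : x5 = 1 := by omega
      have k := p5 e
      have k1 := n56 e
      clear p0 p1 p2 p3 p4 p5 p6 n01 n02 n12 n13 n34 n35 n45 n46 n56 n26 t1 t2 t3 c1 c2
      omega
    have z6 : x6 = 0 := by
      by_contra hh
      have e : x6 = 1 := by omega
      have k := p6 e
      clear p0 p1 p2 p3 p4 p5 p6 n01 n02 n12 n13 n34 n35 n45 n46 n56 n26 t1 t2 t3 c1 c2
      omega
    omega
  · exfalso
    clear n01 n02 n12 n13 n34 n35 n45 n46 n56 n26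
    have z45 : x4 = 0 ∨ x5 = 0 := by
      by_contra hh
      have e4 : x4 = 1 := by omega
      have e5 : x5 = 1 := by omega
      have k1 := p4 e4
      have k2 : x3 = 0 := by
        by_contra h3
        have := t2 (by omega) e4 e5
        omega
      have k3 : x6 = 0 := by
        by_contra h3
        have := t3 e4 e5 (by omega)
        omega
      omega
    have z4 : x4 = 0 := by
      by_contra hh
      have e4 : x4 = 1 := by omega
      have e5 : x5 = 0 := by clear p0 p1 p2 p3 p4 p5 p6 t1 t2 t3 c1 c2; omega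
      have k4 := p4 e4
      have e3 : x3 = 1 := by clear p0 p1 p2 p3 p4 p5 p6 t1 t2 t3 c1 c2; omega
      have e6 : x6 = 1 := by clear p0 p1 p2 p3 p4 p5 p6 t1 t2 t3 c1 c2; omega
      have k3 := p3 e3
      have k6 := p6 e6
      have e1 : x1 = 1 := by clear p0 p1 p2 p3 p4 p5 p6 t1 t2 t3 c1 c2; omega
      have e2 : x2 = 1 := by clear p0 p1 p2 p3 p4 p5 p6 t1 t2 t3 c1 c2; omega
      have := c1 e1 e3 e4 e6 e2
      omega
    have z5 : x5 = 0 := by
      by_contra hh
      have e5 : x5 = 1 := by omega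
      have k5 := p5 e5
      have e3 : x3 = 1 := by clear p0 p1 p2 p3 p4 p5 p6 t1 t2 t3 c1 c2; omega
      have e6 : x6 = 1 := by clear p0 p1 p2 p3 p4 p5 p6 t1 t2 t3 c1 c2; omega
      have k3 := p3 e3
      have k6 := p6 e6
      have e1 : x1 = 1 := by clear p0 p1 p2 p3 p4 p5 p6 t1 t2 t3 c1 c2; omega
      have e2 : x2 = 1 := by clear p0 p1 p2 p3 p4 p5 p6 t1 t2 t3 c1 c2; omega
      have := c2 e1 e3 e5 e6 e2
      omega
    have z3 : x3 = 0 := by
      by_contra hh
      have k := p3 (by clear p0 p1 p2 p3 p4 p5 p6 t1 t2 t3 c1 c2; omega)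
      clear p0 p1 p2 p3 p4 p5 p6 t1 t2 t3 c1 c2
      omega
    have z6 : x6 = 0 := by
      by_contra hh
      have k := p6 (by clear p0 p1 p2 p3 p4 p5 p6 t1 t2 t3 c1 c2; omega)
      clear p0 p1 p2 p3 p4 p5 p6 t1 t2 t3 c1 c2
      omega
    have z1 : x1 = 0 := by
      by_contra hh
      have e1 : x1 = 1 := by omega
      have k := p1 e1
      have e0 : x0 = 1 := by clear p0 p1 p2 p3 p4 p5 p6 t1 t2 t3 c1 c2; omega
      have e2 : x2 = 1 := by clear p0 p1 p2 p3 p4 p5 p6 t1 t2 t3 c1 c2; omega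
      have := t1 e0 e1 e2
      omega
    have z2 : x2 = 0 := by
      by_contra hh
      have k := p2 (by clear p0 p1 p2 p3 p4 p5 p6 t1 t2 t3 c1 c2; omega)
      clear p0 p1 p2 p3 p4 p5 p6 t1 t2 t3 c1 c2
      omega
    have z0 := p0 (by clear p0 p1 p2 p3 p4 p5 p6 t1 t2 t3 c1 c2; omega)
    clear p0 p1 p2 p3 p4 p5 p6 t1 t2 t3 c1 c2
    omega
  · refine ⟨rfl, ?_⟩
    by_contra hh
    have e0 : x0 = 0 := by omega
    clear n01 n02 n12 n13 n34 n35 n45 n46 n56 n26 t1 t2 t3 c1 c2 p0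
    have z1 : x1 = 0 := by
      by_contra hh
      have k := p1 (by clear p1 p2 p3 p4 p5 p6; omega)
      clear p1 p2 p3 p4 p5 p6
      omega
    have z2 : x2 = 0 := by
      by_contra hh
      have k := p2 (by clear p1 p2 p3 p4 p5 p6; omega)
      clear p1 p2 p3 p4 p5 p6
      omega
    have z3 : x3 = 0 := by
      by_contra hh
      have k := p3 (by clear p1 p2 p3 p4 p5 p6; omega)
      clear p1 p2 p3 p4 p5 p6
      omega
    have z6 : x6 = 0 := by
      by_contra hh
      have k := p6 (by clear p1 p2 p3 p4 p5 p6; omega)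
      clear p1 p2 p3 p4 p5 p6
      omega
    have z4 : x4 = 0 := by
      by_contra hh
      have k := p4 (by clear p1 p2 p3 p4 p5 p6; omega)
      clear p1 p2 p3 p4 p5 p6
      omega
    have z5 : x5 = 0 := by
      by_contra hh
      have k := p5 (by clear p1 p2 p3 p4 p5 p6; omega)
      clear p1 p2 p3 p4 p5 p6
      omega
    clear p1 p2 p3 p4 p5 p6
    omega

theorem base : Exact GD (VG 0) (sp 0) 3 := by
  have sum : ∀ g : T → ℕ, ∑ y ∈ VG 0, g y = g (4, 0, 0) + g (2, 0, 0) + g (2, 0, 1) +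
      g (2, 0, 2) + g (2, 0, 3) + g (2, 0, 4) + g (2, 0, 5) := by
    intro g
    rw [VG_zero]
    simp [Finset.sum_insert]
    ring
  have d : ∀ A ⊆ VG 0, dg GD A (4, 0, 0) = I A (2, 0, 0) + I A (2, 0, 1) ∧
      dg GD A (2, 0, 0) = I A (4, 0, 0) + I A (2, 0, 1) + I A (2, 0, 2) ∧
      dg GD A (2, 0, 1) = I A (4, 0, 0) + I A (2, 0, 0) + I A (2, 0, 5) ∧
      dg GD A (2, 0, 2) = I A (2, 0, 0) + I A (2, 0, 3) + I A (2, 0, 4) ∧
      dg GD A (2, 0, 3) = I A (2, 0, 2) + I A (2, 0, 4) + I A (2, 0, 5) ∧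
      dg GD A (2, 0, 4) = I A (2, 0, 2) + I A (2, 0, 3) + I A (2, 0, 5) ∧
      dg GD A (2, 0, 5) = I A (2, 0, 1) + I A (2, 0, 3) + I A (2, 0, 4) := by
    intro A hA
    refine ⟨?_, ?_, ?_, ?_, ?_, ?_, ?_⟩ <;>
      (rw [dg_base hA, sum]; simp only [GD_adj]; simp [gR, uR, bR, E])
  have full : ∀ x ∈ VG 0, I (VG 0) x = 1 := fun x hx => (I_iff _ _).1 hx
  have f0 := full (4, 0, 0) (by rw [VG_zero]; decide)
  have f1 := full (2, 0, 0) (by rw [VG_zero]; decide)
  have f2 := full (2, 0, 1) (by rw [VG_zero]; decide)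
  have f3 := full (2, 0, 2) (by rw [VG_zero]; decide)
  have f4 := full (2, 0, 3) (by rw [VG_zero]; decide)
  have f5 := full (2, 0, 4) (by rw [VG_zero]; decide)
  have f6 := full (2, 0, 5) (by rw [VG_zero]; decide)
  obtain ⟨g0, g1, g2, g3, g4, g5, g6⟩ := d (VG 0) (Finset.Subset.refl _)
  refine ⟨by rw [VG_zero]; decide, ?_, ?_, ?_⟩
  · rintro A hA hne m ⟨f, hf⟩ hdeg hsp
    obtain ⟨d0, d1, d2, d3, d4, d5, d6⟩ := d A hA
    have hm : 1 ≤ m := Col.pos ⟨f, hf⟩ hne
    have hcol : ∀ x y : T, GD.Adj x y → I A x = 1 → I A y = 1 → f x ≠ f y := fun x y h hx hy =>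
      hf.ne x ((I_iff _ _).2 hx) y ((I_iff _ _).2 hy) h
    have e2 : ∀ x y : T, GD.Adj x y → I A x = 1 → I A y = 1 → 2 ≤ m := fun x y h hx hy => by
      have h1 := hcol x y h hx hy
      have h2 : ({f x, f y} : Finset ℕ) ⊆ A.image f := by
        intro z hz
        rw [Finset.mem_insert, Finset.mem_singleton] at hz
        rcases hz with rfl | rfl
        · exact Finset.mem_image_of_mem f ((I_iff _ _).2 hx)
        · exact Finset.mem_image_of_mem f ((I_iff _ _).2 hy)
      have h3 := (Finset.card_le_card h2).trans hf.card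
      rwa [Finset.card_pair h1] at h3
    have e3 : ∀ x y z : T, I A x = 1 → I A y = 1 → I A z = 1 → f x ≠ f y → f y ≠ f z →
        f x ≠ f z → 3 ≤ m := fun x y z hx hy hz h1 h2 h3 => by
      have h2' : ({f x, f y, f z} : Finset ℕ) ⊆ A.image f := by
        intro u hu
        rw [Finset.mem_insert, Finset.mem_insert, Finset.mem_singleton] at hu
        rcases hu with rfl | rfl | rfl
        · exact Finset.mem_image_of_mem f ((I_iff _ _).2 hx)
        · exact Finset.mem_image_of_mem f ((I_iff _ _).2 hy)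
        · exact Finset.mem_image_of_mem f ((I_iff _ _).2 hz)
      have h4 := (Finset.card_le_card h2').trans hf.card
      rwa [Finset.card_eq_three.2 ⟨f x, f y, f z, h1, h3, h2, rfl⟩] at h4
    have e5 : ∀ a b c e g : T, GD.Adj a b → GD.Adj b c → GD.Adj c e → GD.Adj e g → GD.Adj g a →
        I A a = 1 → I A b = 1 → I A c = 1 → I A e = 1 → I A g = 1 → 3 ≤ m := by
      intro a b c e g hab hbc hce heg hga ha hb hc he hg
      by_contra hlt
      have h1 := hcol a b hab ha hb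
      have h2 := hcol b c hbc hb hc
      have h3 := hcol c e hce hc he
      have h4 := hcol e g heg he hg
      have h5 := hcol g a hga hg ha
      have k1 : f a = f c := by
        by_contra hh; exact hlt (e3 a b c ha hb hc h1 h2 hh)
      have k2 : f b = f e := by
        by_contra hh; exact hlt (e3 b c e hb hc he h2 h3 hh)
      have k3 : f a = f e := by
        by_contra hh; exact hlt (e3 e g a he hg ha h4 h5 (Ne.symm hh))
      exact h3 (k1.symm.trans k3)
    have i0 := I_le A (4, 0, 0)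
    have i1 := I_le A (2, 0, 0)
    have i2 := I_le A (2, 0, 1)
    have i3 := I_le A (2, 0, 2)
    have i4 := I_le A (2, 0, 3)
    have i5 := I_le A (2, 0, 4)
    have i6 := I_le A (2, 0, 5)
    have p0 : I A (4, 0, 0) = 1 → 1 ≤ I A (2, 0, 0) + I A (2, 0, 1) ∧
        m ≤ I A (2, 0, 0) + I A (2, 0, 1) + 1 := fun h => by
      have := hsp ((I_iff _ _).2 h)
      rw [show sp 0 = (4, 0, 0) from rfl, d0] at this
      exact this
    have p1 : I A (2, 0, 0) = 1 → m ≤ I A (4, 0, 0) + I A (2, 0, 1) + I A (2, 0, 2) := fun h => by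
      rw [← d1]; exact hdeg _ ((I_iff _ _).2 h) (by decide)
    have p2 : I A (2, 0, 1) = 1 → m ≤ I A (4, 0, 0) + I A (2, 0, 0) + I A (2, 0, 5) := fun h => by
      rw [← d2]; exact hdeg _ ((I_iff _ _).2 h) (by decide)
    have p3 : I A (2, 0, 2) = 1 → m ≤ I A (2, 0, 0) + I A (2, 0, 3) + I A (2, 0, 4) := fun h => by
      rw [← d3]; exact hdeg _ ((I_iff _ _).2 h) (by decide)
    have p4 : I A (2, 0, 3) = 1 → m ≤ I A (2, 0, 2) + I A (2, 0, 4) + I A (2, 0, 5) := fun h => by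
      rw [← d4]; exact hdeg _ ((I_iff _ _).2 h) (by decide)
    have p5 : I A (2, 0, 4) = 1 → m ≤ I A (2, 0, 2) + I A (2, 0, 3) + I A (2, 0, 5) := fun h => by
      rw [← d5]; exact hdeg _ ((I_iff _ _).2 h) (by decide)
    have p6 : I A (2, 0, 5) = 1 → m ≤ I A (2, 0, 1) + I A (2, 0, 3) + I A (2, 0, 4) := fun h => by
      rw [← d6]; exact hdeg _ ((I_iff _ _).2 h) (by decide)
    have hpos : 1 ≤ I A (4, 0, 0) + I A (2, 0, 0) + I A (2, 0, 1) + I A (2, 0, 2) +
        I A (2, 0, 3) + I A (2, 0, 4) + I A (2, 0, 5) := by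
      obtain ⟨v, hv⟩ := hne
      have h1 := hA hv
      rw [VG_zero] at h1
      simp only [Finset.mem_insert, Finset.mem_singleton] at h1
      rw [I_iff] at hv
      rcases h1 with rfl | rfl | rfl | rfl | rfl | rfl | rfl <;> omega
    have n01 := e2 (4, 0, 0) (2, 0, 0) (by decide)
    have n02 := e2 (4, 0, 0) (2, 0, 1) (by decide)
    have n12 := e2 (2, 0, 0) (2, 0, 1) (by decide)
    have n13 := e2 (2, 0, 0) (2, 0, 2) (by decide)
    have n34 := e2 (2, 0, 2) (2, 0, 3) (by decide)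
    have n35 := e2 (2, 0, 2) (2, 0, 4) (by decide)
    have n45 := e2 (2, 0, 3) (2, 0, 4) (by decide)
    have n46 := e2 (2, 0, 3) (2, 0, 5) (by decide)
    have n56 := e2 (2, 0, 4) (2, 0, 5) (by decide)
    have n26 := e2 (2, 0, 1) (2, 0, 5) (by decide)
    have t1 : I A (4, 0, 0) = 1 → I A (2, 0, 0) = 1 → I A (2, 0, 1) = 1 → 3 ≤ m :=
      fun h1 h2 h3 => e3 _ _ _ h1 h2 h3 (hcol _ _ (by decide) h1 h2)
        (hcol _ _ (by decide) h2 h3) (hcol _ _ (by decide) h1 h3)
    have t2 : I A (2, 0, 2) = 1 → I A (2, 0, 3) = 1 → I A (2, 0, 4) = 1 → 3 ≤ m :=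
      fun h1 h2 h3 => e3 _ _ _ h1 h2 h3 (hcol _ _ (by decide) h1 h2)
        (hcol _ _ (by decide) h2 h3) (hcol _ _ (by decide) h1 h3)
    have t3 : I A (2, 0, 3) = 1 → I A (2, 0, 4) = 1 → I A (2, 0, 5) = 1 → 3 ≤ m :=
      fun h1 h2 h3 => e3 _ _ _ h1 h2 h3 (hcol _ _ (by decide) h1 h2)
        (hcol _ _ (by decide) h2 h3) (hcol _ _ (by decide) h1 h3)
    have c1 := e5 (2, 0, 0) (2, 0, 2) (2, 0, 3) (2, 0, 5) (2, 0, 1) (by decide) (by decide)
      (by decide) (by decide) (by decide)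
    have c2 := e5 (2, 0, 0) (2, 0, 2) (2, 0, 4) (2, 0, 5) (2, 0, 1) (by decide) (by decide)
      (by decide) (by decide) (by decide)
    rw [show sp 0 = (4, 0, 0) from rfl, I_iff]
    have hm4 : m < 4 := by
      by_contra hlt
      have z1 : I A (2, 0, 0) = 0 := by
        by_contra hh
        have := p1 (by omega)
        omega
      have z2 : I A (2, 0, 1) = 0 := by
        by_contra hh
        have := p2 (by omega)
        omega
      have z3 : I A (2, 0, 2) = 0 := by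
        by_contra hh
        have := p3 (by omega)
        omega
      have z4 : I A (2, 0, 3) = 0 := by
        by_contra hh
        have := p4 (by omega)
        omega
      have z5 : I A (2, 0, 4) = 0 := by
        by_contra hh
        have := p5 (by omega)
        omega
      have z6 : I A (2, 0, 5) = 0 := by
        by_contra hh
        have := p6 (by omega)
        omega
      have := p0 (by omega)
      omega
    exact base_arith i0 i1 i2 i3 i4 i5 i6 hm4 hm hpos p0 p1 p2 p3 p4 p5 p6 n01 n02 n12 n13 n34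
      n35 n45 n46 n56 n26 t1 t2 t3 c1 c2
  · rw [show sp 0 = (4, 0, 0) from rfl, g0]
    omega
  · intro v hv hne
    rw [VG_zero] at hv
    simp only [Finset.mem_insert, Finset.mem_singleton] at hv
    rcases hv with rfl | rfl | rfl | rfl | rfl | rfl | rfl
    · exact absurd rfl hne
    · rw [g1]; omega
    · rw [g2]; omega
    · rw [g3]; omega
    · rw [g4]; omega
    · rw [g5]; omega
    · rw [g6]; omega

theorem exact_all (L : ℕ) : Exact GD (VG L) (sp L) (L + 3) := by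
  induction L with
  | zero => exact base
  | succ l ih => exact ih.ext (by omega) (isExt l)

end Run7.h688
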