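import Pool.Agent.Run7.h688.Beta
import Pool.Agent.Lib.helper10.Kit2

/-!
# Recognition of beta-perfect graphs: polynomial-time bounds
-/

namespace Run7.h688

open Pool.Agent.Cx Pool.Agent.Cis Polynomial

theorem pt_sets : PT sets := by
  have h1 : PT fun i : ℕ => vS i := by unfold vS; fun_prop
  have h2 : PT fun x : CNF × ℕ => cS x.1 x.2 := by unfold cS; fun_prop
  have h3 : PT fun x : (CNF × ℕ) × ℕ => lS x.1.1 x.1.2 x.2 := by unfold lS lit; fun_prop
  unfold sets
  fun_prop

theorem pt_nS : PT nS := by
  have := pt_sets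
  unfold nS; fun_prop

theorem pt_bS : PT bS := by
  have := pt_nS
  unfold bS; fun_prop

theorem pt_LS : PT LS := by
  have := pt_bS
  unfold LS; fun_prop

theorem pt_lv {α : Type} [Enc α] {n L j : α → ℕ} (hn : PT n) (hL : PT L) (hj : PT j) :
    PT fun a => lv (n a) (L a) (j a) := by
  unfold lv
  exact PP.ite (by fun_prop) (by fun_prop) (by fun_prop)

theorem pt_nx {α : Type} [Enc α] {n j : α → ℕ} (hn : PT n) (hj : PT j) :
    PT fun a => nx (n a) (j a) := by
  unfold nx
  exact PP.ite (by fun_prop) (by fun_prop) (by fun_prop)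

theorem pp_okG {α : Type} [Enc α] {L : α → ℕ} {x : α → T} (hL : PT L) (hx : PT x) :
    PP fun a => okG (L a) (x a) := by
  unfold okG
  fun_prop

theorem pt_vL {α : Type} [Enc α] {n L b : α → ℕ} (hn : PT n) (hL : PT L) (hb : PT b) :
    PT fun a => vL (n a) (L a) (b a) := by
  unfold vL
  refine PT.filter (f := fun a u => decide (okL (n a) (L a) (b a) u)) (PP.decide ?_) (by fun_prop)
  unfold okL
  have h1 : PT fun x : α × (ℕ × T) => lv (n x.1) (L x.1) (x.2.1 - 1) :=
    pt_lv (by fun_prop) (by fun_prop) (by fun_prop)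
  have h2 := pp_okG (x := fun x : α × (ℕ × T) => x.2.2) h1 (by fun_prop)
  fun_prop

theorem pp_E {α : Type} [Enc α] {i j : α → ℕ} (hi : PT i) (hj : PT j) :
    PP fun a => E (i a) (j a) := by
  unfold E
  fun_prop

theorem pp_gR {α : Type} [Enc α] {x y : α → T} (hx : PT x) (hy : PT y) :
    PP fun a => gR (x a) (y a) := by
  have h1 : PP fun a => uR (x a) (y a) := by unfold uR; fun_prop
  have h2 : PP fun a => uR (y a) (x a) := by unfold uR; fun_prop
  have h3 : PP fun a => bR (x a) (y a) := by unfold bR; fun_prop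
  have h4 : PP fun a => bR (y a) (x a) := by unfold bR; fun_prop
  have h5 : PP fun a => E ((x a).1 - 2) ((y a).1 - 2) := pp_E (by fun_prop) (by fun_prop)
  unfold gR
  fun_prop

theorem pp_kg {α : Type} [Enc α] {φ : α → CNF} {n L j : α → ℕ} {t x : α → T} (hφ : PT φ)
    (hn : PT n) (hL : PT L) (hj : PT j) (ht : PT t) (hx : PT x) :
    PP fun a => kg (n a) (L a) (RS (φ a)) (t a) (j a) (x a) := by
  have h1 := pt_nx hn hj
  have h2 := pt_lv hn hL hj
  have h3 : PT fun a => sets (φ a) := pt_sets.comp hφ
  unfold kg att RS tok sp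
  fun_prop

theorem pt_gr : PT gr := by
  have hn := pt_nS
  have hL := pt_LS
  have hb := pt_bS
  unfold gr
  refine PT.mat (r := fun φ p q => decide (bA (nS φ) (LS φ) (RS φ) p q)) (pt_vL hn hL hb)
    (PP.decide ?_)
  have hn' : PT fun x : CNF × (ℕ × T) × (ℕ × T) => nS x.1 := hn.comp (by fun_prop)
  have hL' : PT fun x : CNF × (ℕ × T) × (ℕ × T) => LS x.1 := hL.comp (by fun_prop)
  have h1 := pp_kg (φ := fun x : CNF × (ℕ × T) × (ℕ × T) => x.1) (j := fun x => x.2.2.1 - 1)
    (t := fun x => x.2.1.2) (x := fun x => x.2.2.2) (by fun_prop) hn' hL' (by fun_prop)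
    (by fun_prop) (by fun_prop)
  have h2 := pp_kg (φ := fun x : CNF × (ℕ × T) × (ℕ × T) => x.1) (j := fun x => x.2.1.1 - 1)
    (t := fun x => x.2.2.2) (x := fun x => x.2.1.2) (by fun_prop) hn' hL' (by fun_prop)
    (by fun_prop) (by fun_prop)
  have h3 := pp_gR (x := fun x : CNF × (ℕ × T) × (ℕ × T) => x.2.1.2) (y := fun x => x.2.2.2)
    (by fun_prop) (by fun_prop)
  unfold bA
  fun_prop

/-- Recognition of beta-perfect graphs is coNP-hard. -/
theorem hard_beta : Hard fun M : List (List Bool) => ¬ (IsGraph M ∧ BetaPerfect (graphOf M)) := by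
  refine hard_sat.red pt_gr fun φ => ?_
  obtain ⟨h1, h2⟩ := gr_spec φ
  rw [h2, betaPerfect_iff]
  constructor
  · intro h h3
    exact h3.2 h
  · intro h
    by_contra hno
    exact h ⟨h1, hno⟩

/-- The verifier for graphs that are not beta-perfect: the certificate consists of a vertex set,
a colouring and the number of colours. -/
def ver (z : List (List Bool) × (List Bool × List ℕ × ℕ)) : Prop :=
  ¬ IsGraph z.1 ∨
    ((∃ i < z.1.length, z.2.1.getD i false = true) ∧
      (¬ ∃ i < z.1.length, z.2.1.getD i false = true ∧ ¬ z.2.2.1.getD i 0 < z.2.2.2) ∧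
      (¬ ∃ i < z.1.length, ∃ j < z.1.length, z.2.1.getD i false = true ∧
        z.2.1.getD j false = true ∧ ent z.1 i j = true ∧
        z.2.2.1.getD i 0 = z.2.2.1.getD j 0) ∧
      ¬ ∃ i < z.1.length, z.2.1.getD i false = true ∧ ¬ z.2.2.2 ≤
        (List.range z.1.length).countP fun j => z.2.1.getD j false && ent z.1 i j)

theorem pp_ver : PP ver := by
  have h1 : PP fun z : List (List Bool) × (List Bool × List ℕ × ℕ) => IsGraph z.1 :=
    pp_isGraph.comp (by fun_prop)
  unfold ver
  fun_prop

theorem countP_fin (n : ℕ) (p : ℕ → Bool) :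
    (List.range n).countP p = (Finset.univ.filter fun i : Fin n => p i = true).card := by
  rw [← Finset.card_image_of_injective _ Fin.val_injective, List.countP_eq_length_filter,
    ← List.toFinset_card_of_nodup (List.nodup_range.filter _)]
  congr 1
  ext i
  simp only [List.mem_toFinset, List.mem_filter, List.mem_range, Finset.mem_image,
    Finset.mem_filter, Finset.mem_univ, true_and]
  constructor
  · rintro ⟨h1, h2⟩
    exact ⟨⟨i, h1⟩, h2, rfl⟩
  · rintro ⟨a, h1, rfl⟩
    exact ⟨a.2, h1⟩

/-- The vertex set with characteristic vector `w`. -/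
def wset (n : ℕ) (w : List Bool) : Finset (Fin n) :=
  Finset.univ.filter fun i => w.getD i false = true

theorem mem_wset {n : ℕ} {w : List Bool} {i : Fin n} : i ∈ wset n w ↔ w.getD i false = true := by
  unfold wset
  rw [Finset.mem_filter]
  simp

theorem dg_count {M : List (List Bool)} (hM : IsGraph M) (w : List Bool) (v : Fin M.length) :
    ((List.range M.length).countP fun j => w.getD j false && ent M v j) =
      dg (graphOf M) (wset _ w) v := by
  classical
  rw [countP_fin]
  unfold dg
  congr 1
  ext u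
  rw [Finset.mem_filter, Finset.mem_filter, mem_wset, adj_iff hM]
  simp

theorem ver_spec {M : List (List Bool)} (hM : IsGraph M) (w : List Bool) (cs : List ℕ) (κ : ℕ) :
    ver (M, (w, cs, κ)) ↔ ((wset M.length w).Nonempty ∧
      (∀ v ∈ wset M.length w, cs.getD v 0 < κ) ∧
      (∀ u ∈ wset M.length w, ∀ v ∈ wset M.length w, (graphOf M).Adj u v →
        cs.getD u 0 ≠ cs.getD v 0) ∧
      ∀ v ∈ wset M.length w, κ ≤ dg (graphOf M) (wset M.length w) v) := by
  unfold ver
  simp only [hM, not_true_eq_false, false_or]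
  refine and_congr ?_ (and_congr ?_ (and_congr ?_ ?_))
  · constructor
    · rintro ⟨i, h1, h2⟩
      exact ⟨⟨i, h1⟩, mem_wset.2 h2⟩
    · rintro ⟨i, h⟩
      exact ⟨i, i.2, mem_wset.1 h⟩
  · push Not
    constructor
    · intro h v hv
      exact h v v.2 (mem_wset.1 hv)
    · intro h i hi h1
      exact h ⟨i, hi⟩ (mem_wset.2 h1)
  · push Not
    constructor
    · intro h u hu v hv huv
      exact h u u.2 v v.2 (mem_wset.1 hu) (mem_wset.1 hv) ((adj_iff hM u v).1 huv)
    · intro h i hi j hj h1 h2 h3
      exact h ⟨i, hi⟩ (mem_wset.2 h1) ⟨j, hj⟩ (mem_wset.2 h2) ((adj_iff hM _ _).2 h3)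
  · push Not
    constructor
    · intro h v hv
      rw [← dg_count hM]
      exact h v v.2 (mem_wset.1 hv)
    · intro h i hi h1
      have := h ⟨i, hi⟩ (mem_wset.2 h1)
      rw [← dg_count hM] at this
      exact this

theorem conp_beta :
    InCoNP (Lang fun M : List (List Bool) => IsGraph M ∧ BetaPerfect (graphOf M)) := by
  classical
  obtain ⟨V, hV, hV2⟩ := pp_ver
  refine inCoNP_Lang (V := V) hV (C 2 * X ^ 2 + C 8 * X + C 10) (fun M hM => ?_) fun M b hb => ?_
  · by_cases hG : IsGraph M
    · have hB : ¬ BetaPerfect (graphOf M) := fun h => hM ⟨hG, h⟩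
      rw [betaPerfect_iff, not_not] at hB
      obtain ⟨A, κ, hbad⟩ := hB
      obtain ⟨c, hc1, hc2⟩ := hbad.col.lt
      have hκ : κ ≤ M.length := by
        obtain ⟨v, hv⟩ := hbad.ne
        have h1 := hbad.deg v hv
        have h2 := dg_lt_card (G := graphOf M) hv
        have h3 := Finset.card_le_univ A
        rw [Fintype.card_fin] at h3
        omega
      set w := List.ofFn fun v : Fin M.length => decide (v ∈ A) with hw
      set cs := List.ofFn fun v : Fin M.length => if v ∈ A then c v else 0 with hcs
      have hwA : wset M.length w = A := by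
        ext v
        rw [mem_wset, hw]
        simp
      have hcv : ∀ v ∈ A, cs.getD v 0 = c v := by
        intro v hv
        rw [hcs]
        simp [hv]
      refine ⟨(w, cs, κ), ?_, ?_⟩
      · have s1 : size w ≤ 4 * M.length + 1 := by
          have := size_list_le w 3 fun a _ => size_bool a
          have h2 : w.length = M.length := by rw [hw]; simp
          rw [h2] at this
          omega
        have s2 : size cs ≤ M.length * (2 * M.length + 2) + 1 := by
          have h3 := size_list_le cs (2 * M.length + 1) (fun a ha => by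
            rw [hcs, List.mem_ofFn] at ha
            obtain ⟨v, rfl⟩ := ha
            rw [size_nat]
            split
            · have := hc2 v ‹_›
              omega
            · omega)
          have h2 : cs.length = M.length := by rw [hcs]; simp
          rw [h2] at h3
          exact h3
        have s3 : size κ ≤ 2 * M.length + 1 := by rw [size_nat]; omega
        have s4 : M.length ≤ size M := (length_lt_size M).le
        rw [size_pair, size_pair]
        simp only [eval_add, eval_mul, eval_C, eval_pow, eval_X]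
        nlinarith
      · rw [← hV2, ver_spec hG, hwA]
        refine ⟨hbad.ne, fun v hv => ?_, fun u hu v hv huv => ?_, hbad.deg⟩
        · rw [hcv v hv]
          exact hc2 v hv
        · rw [hcv u hu, hcv v hv]
          exact hc1 u hu v hv huv
    · refine ⟨([], [], 0), ?_, ?_⟩
      · simp
      · rw [← hV2]
        exact Or.inl hG
  · rintro ⟨hG, hB⟩
    rw [← hV2] at hb
    obtain ⟨w, cs, κ⟩ := b
    rw [ver_spec hG] at hb
    obtain ⟨h1, h2, h3, h4⟩ := hb
    rw [betaPerfect_iff] at hB
    exact hB ⟨wset M.length w, κ, h1, ⟨fun v => cs.getD v 0, IsCol.of_lt h3 h2⟩, h4⟩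

/-- Recognition of beta-perfect graphs is coNP-complete. -/
theorem coNPComplete_beta :
    CoNPComplete (Lang fun M : List (List Bool) => IsGraph M ∧ BetaPerfect (graphOf M)) :=
  ⟨conp_beta, hard_beta.coNPHard⟩

/-- Beta-perfect graphs can be recognised in polynomial time if and only if P = NP. -/
theorem inP_beta_iff :
    InP (Lang fun M : List (List Bool) => IsGraph M ∧ BetaPerfect (graphOf M)) ↔
      ∀ L, InP L ↔ InNP L := by
  constructor
  · intro h L
    exact ⟨InP.inNP, Hard.p_eq_np' hard_beta h L⟩
  · intro h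
    have h1 := (h _).2 conp_beta
    have h2 := h1.compl
    rwa [compl_compl] at h2

end Run7.h688
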