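import Pool.Agent.Run7.h688.SatHit
import Pool.Agent.Lib.helper10.Kit

/-!
# The reduction
-/

namespace Run7.h688

open Pool.Agent.Cx Finset

/-- The number of sets. -/
def nS (φ : CNF) : ℕ := (sets φ).length

/-- A bound for the coordinates of the big clique. -/
def bS (φ : CNF) : ℕ := nS φ + size φ + 2

/-- The level of the gadgets. -/
def LS (φ : CNF) : ℕ := 4 * (bS φ * bS φ)

/-- The relation of membership in the sets. -/
def RS (φ : CNF) (j : ℕ) (t : T) : Prop := t ∈ (sets φ).getD j []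

/-- The big clique. -/
def KS (φ : CNF) : Finset T := Finset.range 4 ×ˢ (Finset.range (bS φ) ×ˢ Finset.range (bS φ))

theorem mem_KS {φ : CNF} {t : T} : t ∈ KS φ ↔ t.1 < 4 ∧ t.2.1 < bS φ ∧ t.2.2 < bS φ := by
  unfold KS
  simp only [Finset.mem_product, Finset.mem_range]

theorem card_KS (φ : CNF) : (KS φ).card = LS φ := by
  unfold KS LS
  simp

theorem clen_lt {φ : CNF} {c : ℕ} (hc : c < φ.length) :
    (φ.getD c []).length < size φ := by
  have h1 : φ.getD c [] ∈ φ := by
    rw [List.getD_eq_getElem _ _ hc]; exact List.getElem_mem hc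
  exact (length_lt_size _).trans (size_lt_of_mem h1)

theorem sets_lt {φ : CNF} {r : List T} (hr : r ∈ sets φ) {t : T} (ht : t ∈ r) :
    t.1 ≠ 0 ∧ t.1 < 4 ∧ t.2.1 < size φ ∧ t.2.2 < size φ + 2 := by
  have hφ := length_lt_size φ
  rw [mem_sets] at hr
  rcases hr with ⟨i, hi, rfl⟩ | ⟨c, hc, rfl⟩ | ⟨c, hc, p, hp, rfl⟩
  · unfold vS at ht
    simp only [List.mem_cons, List.not_mem_nil, or_false] at ht
    rcases ht with rfl | rfl
    · refine ⟨by simp, by simp, hi, by simp⟩
    · refine ⟨by simp, by simp, hi, by simp⟩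
  · unfold cS at ht
    rw [List.mem_map] at ht
    obtain ⟨p, hp, rfl⟩ := ht
    rw [List.mem_range] at hp
    have := clen_lt hc
    refine ⟨by simp, by simp, by simp only; omega, by simp only; omega⟩
  · have h1 := clen_lt hc
    have h2 : (lit φ c p).1 < size φ := by
      have h3 : φ.getD c [] ∈ φ := by
        rw [List.getD_eq_getElem _ _ hc]; exact List.getElem_mem hc
      have h4 : lit φ c p ∈ φ.getD c [] := by
        unfold lit
        rw [List.getD_eq_getElem _ _ hp]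
        exact List.getElem_mem hp
      exact var_lt_size h3 h4
    unfold lS at ht
    simp only [List.mem_cons, List.not_mem_nil, or_false] at ht
    rcases ht with rfl | rfl | rfl
    · refine ⟨by simp, by simp, by simp only; omega, by simp only; omega⟩
    · refine ⟨by simp, by simp, h2, ?_⟩
      simp only
      cases (lit φ c p).2 <;> simp
    · refine ⟨by simp, by simp, by simp only; omega, by simp only; omega⟩

theorem sysOK (φ : CNF) : SysOK (nS φ) (LS φ) (RS φ) (KS φ) := by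
  have hmem : ∀ j < nS φ, ∀ t, RS φ j t → ∃ r ∈ sets φ, t ∈ r := by
    intro j hj t ht
    unfold RS at ht
    refine ⟨_, ?_, ht⟩
    rw [List.getD_eq_getElem _ _ hj]
    exact List.getElem_mem hj
  refine ⟨?_, fun j hj => ?_, fun j hj t ht => ?_, fun j hj t ht => ?_, ?_⟩
  · have h1 : vS 0 ∈ sets φ := mem_sets.2 (Or.inl ⟨0, size_pos φ, rfl⟩)
    exact List.length_pos_of_mem h1
  · rw [mem_KS]
    unfold tok bS
    simp only
    omega
  · obtain ⟨r, hr, h1⟩ := hmem j hj t ht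
    have h2 := sets_lt hr h1
    rw [mem_KS]
    unfold bS
    omega
  · obtain ⟨r, hr, h1⟩ := hmem j hj t ht
    exact (sets_lt hr h1).1
  · rw [card_KS]
    omega

theorem hit_iff (φ : CNF) : Sat φ ↔ EHit (nS φ) (RS φ) := by
  classical
  rw [sat_hit]
  constructor
  · rintro ⟨X, hX⟩
    refine ⟨(KS φ).filter X, fun j hj => ?_⟩
    have h1 : (sets φ).getD j [] ∈ sets φ := by
      rw [List.getD_eq_getElem _ _ hj]; exact List.getElem_mem hj
    obtain ⟨t, ⟨h2, h3⟩, h4⟩ := hX _ h1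
    refine ⟨t, ⟨Finset.mem_filter.2 ⟨(sysOK φ).RK j hj t h3, h2⟩, h3⟩, ?_⟩
    rintro s ⟨h5, h6⟩
    exact h4 s ⟨(Finset.mem_filter.1 h5).2, h6⟩
  · rintro ⟨X, hX⟩
    refine ⟨fun t => t ∈ X, fun r hr => ?_⟩
    obtain ⟨j, hj, rfl⟩ := List.getElem_of_mem hr
    obtain ⟨t, ⟨h2, h3⟩, h4⟩ := hX j hj
    unfold RS at h3 h4
    rw [List.getD_eq_getElem _ _ hj] at h3 h4
    exact ⟨t, ⟨h2, h3⟩, h4⟩

/-- The big graph of a formula has a bad part if and only if the formula is satisfiable. -/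
theorem sat_bad (φ : CNF) : Sat φ ↔ ∃ (A : Finset (ℕ × T)) (κ : ℕ),
    (∀ u ∈ A, okB (nS φ) (LS φ) (KS φ) u) ∧ Bad (BG (nS φ) (LS φ) (RS φ)) A κ := by
  rw [hit_iff]
  constructor
  · exact compl (sysOK φ)
  · rintro ⟨A, κ, h1, h2⟩
    exact sound (sysOK φ) h1 h2

/-- Valid codes of vertices. -/
def okL (n L b : ℕ) (u : ℕ × T) : Prop :=
  (u.1 = 0 ∧ u.2.1 < 4 ∧ u.2.2.1 < b ∧ u.2.2.2 < b) ∨
    (0 < u.1 ∧ u.1 ≤ n + 1 ∧ okG (lv n L (u.1 - 1)) u.2)

instance (n L b : ℕ) : DecidablePred (okL n L b) := fun _ => by unfold okL; infer_instance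

/-- The list of vertices. -/
def vL (n L b : ℕ) : List (ℕ × T) :=
  (List.range (n + 2) ×ˢ (List.range 8 ×ˢ (List.range (L + b + 2) ×ˢ
    List.range (L + b + 7)))).filter fun u => decide (okL n L b u)

theorem mem_vL {n L b : ℕ} {u : ℕ × T} : u ∈ vL n L b ↔ okL n L b u := by
  obtain ⟨g, x, y, z⟩ := u
  have h : (g, x, y, z) ∈ List.range (n + 2) ×ˢ (List.range 8 ×ˢ (List.range (L + b + 2) ×ˢ
    List.range (L + b + 7))) ↔ g < n + 2 ∧ x < 8 ∧ y < L + b + 2 ∧ z < L + b + 7 := by simp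
  rw [vL, List.mem_filter, h, decide_eq_true_eq]
  constructor
  · exact fun h => h.2
  · intro h1
    refine ⟨?_, h1⟩
    unfold okL at h1
    rcases h1 with h1 | ⟨h1, h2, h3⟩
    · simp only at h1
      omega
    · have hl : lv n L (g - 1) ≤ L + 1 := by unfold lv; split <;> omega
      simp only at h1 h2 h3
      generalize lv n L (g - 1) = l at hl h3
      unfold okG at h3
      simp only at h3
      omega

theorem vL_nodup {n L b : ℕ} : (vL n L b).Nodup :=
  (List.nodup_range.product (List.nodup_range.product (List.nodup_range.product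
    List.nodup_range))).filter _

theorem okL_iff {φ : CNF} {u : ℕ × T} :
    okL (nS φ) (LS φ) (bS φ) u ↔ okB (nS φ) (LS φ) (KS φ) u := by
  unfold okL okB
  rw [mem_KS]

instance (φ : CNF) (j : ℕ) (t : T) : Decidable (RS φ j t) := by unfold RS; infer_instance

instance (φ : CNF) : DecidableRel (bA (nS φ) (LS φ) (RS φ)) := fun _ _ => by
  unfold bA kg att; infer_instance

/-- The graph of a formula. -/
def gr (φ : CNF) : List (List Bool) :=
  mat (vL (nS φ) (LS φ) (bS φ)) fun p q => decide (bA (nS φ) (LS φ) (RS φ) p q)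

section Transfer

variable {V W : Type*} [DecidableEq W] {G : SimpleGraph V} {H : SimpleGraph W} {f : V → W}

theorem dg_image (hf : f.Injective) (ha : ∀ a b, G.Adj a b ↔ H.Adj (f a) (f b)) (A : Finset V)
    (v : V) : dg H (A.image f) (f v) = dg G A v := by
  classical
  unfold dg
  rw [← Finset.card_image_of_injective (A.filter (G.Adj v)) hf]
  congr 1
  ext y
  simp only [Finset.mem_filter, Finset.mem_image]
  constructor
  · rintro ⟨⟨a, h1, rfl⟩, h2⟩
    exact ⟨a, ⟨h1, (ha _ _).2 h2⟩, rfl⟩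
  · rintro ⟨a, ⟨h1, h2⟩, rfl⟩
    exact ⟨⟨a, h1, rfl⟩, (ha _ _).1 h2⟩

theorem bad_image (hf : f.Injective) (ha : ∀ a b, G.Adj a b ↔ H.Adj (f a) (f b)) (A : Finset V)
    (κ : ℕ) : Bad H (A.image f) κ ↔ Bad G A κ := by
  classical
  constructor
  · rintro ⟨h1, ⟨c, hc⟩, h3⟩
    refine ⟨Finset.image_nonempty.1 h1, ⟨fun v => c (f v), fun u hu v hv h => ?_, ?_⟩,
      fun v hv => ?_⟩
    · exact hc.ne _ (Finset.mem_image_of_mem f hu) _ (Finset.mem_image_of_mem f hv) ((ha _ _).1 h)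
    · have := hc.card
      rw [Finset.image_image] at this
      exact this
    · rw [← dg_image hf ha]
      exact h3 _ (Finset.mem_image_of_mem f hv)
  · rintro ⟨h1, ⟨c, hc⟩, h3⟩
    have : Nonempty V := ⟨h1.choose⟩
    have hinv : ∀ v, Function.invFun f (f v) = v := Function.leftInverse_invFun hf
    refine ⟨h1.image f, ⟨fun w => c (Function.invFun f w), fun u hu v hv h => ?_, ?_⟩,
      fun v hv => ?_⟩
    · obtain ⟨a, ha1, rfl⟩ := Finset.mem_image.1 hu
      obtain ⟨b, hb1, rfl⟩ := Finset.mem_image.1 hv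
      rw [hinv, hinv]
      exact hc.ne _ ha1 _ hb1 ((ha _ _).2 h)
    · rw [Finset.image_image]
      have h5 : A.image ((fun w => c (Function.invFun f w)) ∘ f) = A.image c := by
        refine Finset.image_congr fun v _ => ?_
        simp [hinv]
      rw [h5]
      exact hc.card
    · obtain ⟨a, ha1, rfl⟩ := Finset.mem_image.1 hv
      rw [dg_image hf ha]
      exact h3 _ ha1

end Transfer

theorem gr_spec (φ : CNF) : IsGraph (gr φ) ∧
    (Sat φ ↔ ∃ (A : Finset (Fin (gr φ).length)) (κ : ℕ), Bad (graphOf (gr φ)) A κ) := by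
  classical
  obtain ⟨h1, f, h2, h3, h4, -⟩ := graph_kit (vL (nS φ) (LS φ) (bS φ))
    (bA (nS φ) (LS φ) (RS φ)) (fun _ _ => bA_symm) bA_irrefl vL_nodup (M := gr φ) rfl
  have ha : ∀ a b, (graphOf (gr φ)).Adj a b ↔ (BG (nS φ) (LS φ) (RS φ)).Adj (f a) (f b) := h2
  refine ⟨h1, ?_⟩
  rw [sat_bad]
  constructor
  · rintro ⟨A, κ, hA, hb⟩
    refine ⟨Finset.univ.filter fun a => f a ∈ A, κ, ?_⟩
    rw [← bad_image h4 ha]
    have e : (Finset.univ.filter fun a => f a ∈ A).image f = A := by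
      ext u
      rw [Finset.mem_image]
      constructor
      · rintro ⟨a, h5, rfl⟩
        exact (Finset.mem_filter.1 h5).2
      · intro hu
        obtain ⟨a, rfl⟩ := (h3 u).2 (mem_vL.2 (okL_iff.2 (hA u hu)))
        exact ⟨a, Finset.mem_filter.2 ⟨Finset.mem_univ _, hu⟩, rfl⟩
    rw [e]
    exact hb
  · rintro ⟨A, κ, hb⟩
    refine ⟨A.image f, κ, fun u hu => ?_, (bad_image h4 ha A κ).2 hb⟩
    obtain ⟨a, -, rfl⟩ := Finset.mem_image.1 hu
    exact okL_iff.1 (mem_vL.1 ((h3 _).1 ⟨a, rfl⟩))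

end Run7.h688
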