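import Pool.Agent.Run7.h688.Compl
import Pool.Agent.Lib.helper10.CisMem

/-!
# Satisfiability as an exact hitting problem
-/

namespace Run7.h688

open Pool.Agent.Cx

/-- The set of variable `i`. -/
def vS (i : ℕ) : List T := [(1, i, 0), (1, i, 1)]

/-- The literal at position `p` of clause `c`. -/
def lit (φ : CNF) (c p : ℕ) : ℕ × Bool := (φ.getD c []).getD p (0, false)

/-- The set of clause `c`. -/
def cS (φ : CNF) (c : ℕ) : List T := (List.range (φ.getD c []).length).map fun p => (2, c, p)

/-- The set of position `p` of clause `c`. -/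
def lS (φ : CNF) (c p : ℕ) : List T :=
  [(2, c, p), (1, (lit φ c p).1, bif (lit φ c p).2 then 0 else 1), (3, c, p)]

/-- All sets. -/
def sets (φ : CNF) : List (List T) :=
  ((List.range (size φ)).map vS ++ (List.range φ.length).map (cS φ)) ++
    (List.range φ.length).flatMap fun c => (List.range (φ.getD c []).length).map (lS φ c)

theorem mem_sets {φ : CNF} {r : List T} : r ∈ sets φ ↔ (∃ i < size φ, r = vS i) ∨
    (∃ c < φ.length, r = cS φ c) ∨
    (∃ c < φ.length, ∃ p < (φ.getD c []).length, r = lS φ c p) := by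
  unfold sets
  simp only [List.mem_append, List.mem_map, List.mem_range, List.mem_flatMap]
  constructor
  · rintro ((⟨i, h, rfl⟩ | ⟨i, h, rfl⟩) | ⟨i, h, p, hp, rfl⟩)
    · exact Or.inl ⟨i, h, rfl⟩
    · exact Or.inr (Or.inl ⟨i, h, rfl⟩)
    · exact Or.inr (Or.inr ⟨i, h, p, hp, rfl⟩)
  · rintro (⟨i, h, rfl⟩ | ⟨i, h, rfl⟩ | ⟨i, h, p, hp, rfl⟩)
    · exact Or.inl (Or.inl ⟨i, h, rfl⟩)
    · exact Or.inl (Or.inr ⟨i, h, rfl⟩)
    · exact Or.inr ⟨i, h, p, hp, rfl⟩

theorem sat_hit (φ : CNF) : Sat φ ↔ ∃ X : T → Prop, ∀ r ∈ sets φ, ∃! t, X t ∧ t ∈ r := by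
  constructor
  · rintro ⟨τ, hτ⟩
    have hw : ∀ c, c < φ.length → ∃ p, p < (φ.getD c []).length ∧
        τ (lit φ c p).1 = (lit φ c p).2 := by
      intro c hc
      have h1 : φ.getD c [] ∈ φ := by
        rw [List.getD_eq_getElem _ _ hc]; exact List.getElem_mem hc
      obtain ⟨l, hl, e⟩ := hτ _ h1
      obtain ⟨p, hp, rfl⟩ := List.getElem_of_mem hl
      refine ⟨p, hp, ?_⟩
      unfold lit
      rw [List.getD_eq_getElem _ _ hp]
      exact e
    choose! w hw1 hw2 using hw
    refine ⟨fun t => (t.1 = 1 ∧ t.2.2 = (τ t.2.1).toNat) ∨ (t.1 = 2 ∧ t.2.2 = w t.2.1) ∨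
      (t.1 = 3 ∧ t.2.2 ≠ w t.2.1 ∧ τ (lit φ t.2.1 t.2.2).1 = (lit φ t.2.1 t.2.2).2),
      fun r hr => ?_⟩
    rw [mem_sets] at hr
    rcases hr with ⟨i, -, rfl⟩ | ⟨c, hc, rfl⟩ | ⟨c, hc, p, hp, rfl⟩
    · refine ⟨(1, i, (τ i).toNat), ⟨Or.inl ⟨rfl, rfl⟩, ?_⟩, ?_⟩
      · unfold vS; cases τ i <;> simp
      · rintro ⟨a, b, d⟩ ⟨h1, h2⟩
        unfold vS at h2
        simp only [List.mem_cons, Prod.mk.injEq, List.not_mem_nil, or_false] at h1 h2
        have e1 : a = 1 ∧ b = i := by omega
        obtain ⟨rfl, rfl⟩ := e1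
        rcases h1 with h1 | h1 | h1
        · rw [h1.2]
        · exact absurd h1.1 (by omega)
        · exact absurd h1.1 (by omega)
    · refine ⟨(2, c, w c), ⟨Or.inr (Or.inl ⟨rfl, rfl⟩), ?_⟩, ?_⟩
      · unfold cS
        rw [List.mem_map]
        exact ⟨w c, List.mem_range.2 (hw1 c hc), rfl⟩
      · rintro ⟨a, b, d⟩ ⟨h1, h2⟩
        unfold cS at h2
        rw [List.mem_map] at h2
        obtain ⟨p, -, h2⟩ := h2
        simp only [Prod.mk.injEq] at h1 h2
        obtain ⟨rfl, rfl, rfl⟩ := h2
        rcases h1 with h1 | h1 | h1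
        · exact absurd h1.1 (by omega)
        · rw [h1.2]
        · exact absurd h1.1 (by omega)
    · have hmem : ∀ t : T, t ∈ lS φ c p ↔ t = (2, c, p) ∨
          t = (1, (lit φ c p).1, bif (lit φ c p).2 then 0 else 1) ∨ t = (3, c, p) := by
        intro t; unfold lS; simp
      by_cases hpw : p = w c
      · have hl : τ (lit φ c p).1 = (lit φ c p).2 := by rw [hpw]; exact hw2 c hc
        refine ⟨(2, c, p), ⟨Or.inr (Or.inl ⟨rfl, hpw⟩), (hmem _).2 (Or.inl rfl)⟩, ?_⟩
        rintro t ⟨h1, h2⟩
        rw [hmem] at h2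
        rcases h2 with rfl | rfl | rfl
        · rfl
        · exfalso
          simp only at h1
          rw [hl] at h1
          cases h3 : (lit φ c p).2 <;> rw [h3] at h1 <;> simp at h1
        · exfalso
          simp only at h1
          rcases h1 with h1 | h1 | h1
          · exact absurd h1.1 (by omega)
          · exact absurd h1.1 (by omega)
          · exact h1.2.1 hpw
      · by_cases hl : τ (lit φ c p).1 = (lit φ c p).2
        · refine ⟨(3, c, p), ⟨Or.inr (Or.inr ⟨rfl, hpw, hl⟩), (hmem _).2 (Or.inr (Or.inr rfl))⟩,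
            ?_⟩
          rintro t ⟨h1, h2⟩
          rw [hmem] at h2
          rcases h2 with rfl | rfl | rfl
          · exfalso
            simp only at h1
            rcases h1 with h1 | h1 | h1
            · exact absurd h1.1 (by omega)
            · exact hpw h1.2
            · exact absurd h1.1 (by omega)
          · exfalso
            simp only at h1
            rw [hl] at h1
            cases h3 : (lit φ c p).2 <;> rw [h3] at h1 <;> simp at h1
          · rfl
        · refine ⟨(1, (lit φ c p).1, bif (lit φ c p).2 then 0 else 1), ⟨Or.inl ⟨rfl, ?_⟩,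
            (hmem _).2 (Or.inr (Or.inl rfl))⟩, ?_⟩
          · simp only
            cases h3 : (lit φ c p).2 <;> cases h4 : τ (lit φ c p).1 <;> simp_all
          · rintro t ⟨h1, h2⟩
            rw [hmem] at h2
            rcases h2 with rfl | rfl | rfl
            · exfalso
              simp only at h1
              rcases h1 with h1 | h1 | h1
              · exact absurd h1.1 (by omega)
              · exact hpw h1.2
              · exact absurd h1.1 (by omega)
            · rfl
            · exfalso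
              simp only at h1
              rcases h1 with h1 | h1 | h1
              · exact absurd h1.1 (by omega)
              · exact absurd h1.1 (by omega)
              · exact hl h1.2.2
  · rintro ⟨X, hX⟩
    classical
    refine ⟨fun i => decide (X (1, i, 1)), fun c hc => ?_⟩
    obtain ⟨k, hk, rfl⟩ := List.getElem_of_mem hc
    have hk' : φ.getD k [] = φ[k] := List.getD_eq_getElem _ _ hk
    obtain ⟨t, ⟨ht1, ht2⟩, -⟩ := hX _ (mem_sets.2 (Or.inr (Or.inl ⟨k, hk, rfl⟩)))
    unfold cS at ht2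
    rw [List.mem_map] at ht2
    obtain ⟨p, hp, rfl⟩ := ht2
    rw [List.mem_range] at hp
    have hlm : lit φ k p ∈ φ[k] := by
      unfold lit
      rw [List.getD_eq_getElem _ _ hp, ← hk']
      exact List.getElem_mem hp
    refine ⟨lit φ k p, hlm, ?_⟩
    obtain ⟨s, -, hs⟩ := hX _ (mem_sets.2 (Or.inr (Or.inr ⟨k, hk, p, hp, rfl⟩)))
    have h1 : ((2, k, p) : T) = s := hs _ ⟨ht1, by unfold lS; simp⟩
    have h2 : ¬ X (1, (lit φ k p).1, bif (lit φ k p).2 then 0 else 1) := by
      intro h
      have h3 := hs _ ⟨h, by unfold lS; simp⟩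
      rw [← h1] at h3
      simp at h3
    have hi : (lit φ k p).1 < size φ := var_lt_size hc hlm
    obtain ⟨u, ⟨hu1, hu2⟩, hu⟩ := hX _ (mem_sets.2 (Or.inl ⟨_, hi, rfl⟩))
    unfold vS at hu2 hu
    simp only [List.mem_cons, List.not_mem_nil, or_false] at hu2 hu
    cases h3 : (lit φ k p).2
    · rw [h3] at h2
      simpa using h2
    · rw [h3] at h2
      rcases hu2 with rfl | rfl
      · exact absurd hu1 h2
      · simpa using hu1

end Run7.h688
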