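import Pool.Agent.Run7.h446.Smyth.Iface

/-!
# Piece ROOT of MP_ed3ef1_nt: a relation between roots of unity gives permutations
-/

set_option autoImplicit false

namespace Pool.Agent.Run7.h688.SmythROOT

open Pool.Agent.Run7.h446.Smyth

theorem main : St_root := by
  intro K _ _ n a ω hω hsum
  classical
  choose m hm hm' using hω
  set M : ℕ := ∏ i, m i with hM
  have hM0 : M ≠ 0 := Finset.prod_ne_zero_iff.2 fun i _ => (hm i).ne'
  have : NeZero M := ⟨hM0⟩
  let H := rootsOfUnity M (AlgebraicClosure K)
  have hfin : Fintype H := Fintype.ofFinite _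
  have hω' : ∀ i, ω i ^ M = 1 := by
    intro i
    obtain ⟨k, hk⟩ : m i ∣ M := Finset.dvd_prod_of_mem _ (Finset.mem_univ i)
    rw [hk, pow_mul, hm' i, one_pow]
  let o : Fin n → H := fun i => rootsOfUnity.mkOfPowEq (ω i) (hω' i)
  have ho : ∀ i, ((o i : (AlgebraicClosure K)ˣ) : AlgebraicClosure K) = ω i := fun i => rfl
  let B : Matrix H H K := Matrix.of fun h h' => ∑ i, if h' = h * o i then a i else 0
  have hB : (B.map (algebraMap K (AlgebraicClosure K))).mulVec
      (fun h => ((h : (AlgebraicClosure K)ˣ) : AlgebraicClosure K)) = 0 := by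
    ext h
    simp only [Matrix.mulVec, dotProduct, Matrix.map_apply, B, Matrix.of_apply, map_sum,
      Finset.sum_mul, Pi.zero_apply]
    rw [Finset.sum_comm]
    have : ∀ i, ∑ h' : H, (algebraMap K (AlgebraicClosure K)) (if h' = h * o i then a i else 0) *
        ((h' : (AlgebraicClosure K)ˣ) : AlgebraicClosure K) =
        ((h : (AlgebraicClosure K)ˣ) : AlgebraicClosure K) *
          ((algebraMap K (AlgebraicClosure K)) (a i) * ω i) := by
      intro i
      rw [Finset.sum_eq_single (h * o i)]
      · rw [if_pos rfl]
        simp only [Subgroup.coe_mul, Units.val_mul, ho]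
        ring
      · intro h' _ hne
        rw [if_neg hne, map_zero, zero_mul]
      · intro hcon
        exact absurd (Finset.mem_univ _) hcon
    rw [Finset.sum_congr rfl fun i _ => this i, ← Finset.mul_sum, hsum, mul_zero]
  have hdet : B.det = 0 := by
    have h1 : (B.map (algebraMap K (AlgebraicClosure K))).det = 0 := by
      rw [← Matrix.exists_mulVec_eq_zero_iff]
      refine ⟨_, ?_, hB⟩
      intro hcon
      have := congrFun hcon 1
      simp at this
    have h2 := (algebraMap K (AlgebraicClosure K)).map_det B
    rw [RingHom.mapMatrix_apply, h1] at h2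
    exact (map_eq_zero _).1 h2
  obtain ⟨w, hw0, hw⟩ := Matrix.exists_mulVec_eq_zero_iff.2 hdet
  let e := Fintype.equivFin H
  refine ⟨Fintype.card H, fun k => w (e.symm k),
    fun i => (e.symm.trans (Equiv.mulRight (o i))).trans e, ?_, ?_⟩
  · by_contra hcon
    push Not at hcon
    apply hw0
    ext h
    have := hcon (e h)
    simpa using this
  · intro k
    have h1 := congrFun hw (e.symm k)
    rw [Pi.zero_apply] at h1
    rw [← h1]
    simp only [Matrix.mulVec, dotProduct, B, Matrix.of_apply, Finset.sum_mul]
    rw [Finset.sum_comm]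
    refine Finset.sum_congr rfl fun i _ => ?_
    rw [Finset.sum_eq_single (e.symm k * o i)]
    · rw [if_pos rfl]
      simp
    · intro h' _ hne
      rw [if_neg hne, zero_mul]
    · intro hcon
      exact absurd (Finset.mem_univ _) hcon

end Pool.Agent.Run7.h688.SmythROOT
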