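import Pool.Agent.Run7.h688.System

/-!
# From a bad part of the big graph to an exact hitting set
-/

namespace Run7.h688

open Finset

variable {n L : ℕ} {R : ℕ → T → Prop} {K : Finset T} {A : Finset (ℕ × T)} {κ : ℕ}

theorem fib_sub (hA : ∀ u ∈ A, okB n L K u) {j : ℕ} : fib A (j + 1) ⊆ VG (lv n L j) := by
  intro x hx
  rw [mem_fib] at hx
  rcases hA _ hx with h | h
  · exact absurd h.1 (Nat.succ_ne_zero j)
  · rw [mem_VG]
    exact h.2.2

theorem fib_K (hA : ∀ u ∈ A, okB n L K u) : fib A 0 ⊆ K := by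
  intro x hx
  rw [mem_fib] at hx
  rcases hA _ hx with h | h
  · exact h.2
  · exact absurd h.1 (lt_irrefl 0)

theorem lt_of_fib (hA : ∀ u ∈ A, okB n L K u) {j : ℕ} {x : T} (hx : (j + 1, x) ∈ A) : j ≤ n := by
  rcases hA _ hx with h | h
  · exact absurd h.1 (Nat.succ_ne_zero j)
  · have := h.2.1
    simp only at this
    omega

open Classical in
theorem dgB_le {j : ℕ} {x : T} :
    dg (BG n L R) A (j + 1, x) ≤ dg GD (fib A (j + 1)) x +
      ((fib A 0).filter (att n R j)).card +
      ((fib A 0).filter fun t => t = tok (nx n j) ∧ x = sp (lv n L j)).card := by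
  have h1 : dg (BG n L R) A (j + 1, x) ≤ (emb (j + 1) ((fib A (j + 1)).filter (GD.Adj x)) ∪
      (emb 0 ((fib A 0).filter (att n R j)) ∪
      emb 0 ((fib A 0).filter fun t => t = tok (nx n j) ∧ x = sp (lv n L j)))).card := by
    refine dg_le ?_
    rintro ⟨g, z⟩ hy ha
    rw [Finset.mem_union, Finset.mem_union, mem_emb, mem_emb, mem_emb, Finset.mem_filter,
      Finset.mem_filter, Finset.mem_filter, mem_fib, mem_fib]
    simp only
    rcases g with _ | g
    · rw [BG_gK] at ha
      rcases ha with ha | ha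
      · exact Or.inr (Or.inl ⟨rfl, hy, ha⟩)
      · exact Or.inr (Or.inr ⟨rfl, hy, ha⟩)
    · rw [BG_gg] at ha
      obtain ⟨rfl, ha⟩ := ha
      exact Or.inl ⟨rfl, hy, ha⟩
  refine h1.trans ((Finset.card_union_le _ _).trans ?_)
  have h2 := Finset.card_union_le (emb 0 ((fib A 0).filter (att n R j)))
    (emb 0 ((fib A 0).filter fun t => t = tok (nx n j) ∧ x = sp (lv n L j)))
  rw [card_emb, card_emb] at h2
  rw [card_emb]
  have h3 : ((fib A (j + 1)).filter (GD.Adj x)).card = dg GD (fib A (j + 1)) x := by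
    unfold dg
    congr
  omega

open Classical in
/-- A nonempty slice is complete in the sense of exactness. -/
theorem slice (hA : ∀ u ∈ A, okB n L K u) (hb : Bad (BG n L R) A κ) {j : ℕ}
    (hn : 1 ≤ n) (hR0 : ∀ j < n, ∀ t, R j t → t.1 ≠ 0)
    (hj : (fib A (j + 1)).Nonempty) :
    κ = ((fib A 0).filter (att n R j)).card + (lv n L j + 3) ∧ (0, tok (nx n j)) ∈ A := by
  obtain ⟨f, hf⟩ := hb.col
  set S := fib A (j + 1) with hS
  set Q := (fib A 0).filter (att n R j) with hQ
  have hQA : emb 0 Q ⊆ A := by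
    rintro ⟨g, t⟩ h
    rw [mem_emb, hQ, Finset.mem_filter, mem_fib] at h
    obtain ⟨h1, h2, h3⟩ := h
    simp only at h1
    subst h1
    exact h2
  have hSA : emb (j + 1) S ⊆ A := by
    rintro ⟨g, t⟩ h
    rw [mem_emb, hS, mem_fib] at h
    obtain ⟨h1, h2⟩ := h
    simp only at h1
    subst h1
    exact h2
  have hQc : Cl (BG n L R) (emb 0 Q) := by
    rintro ⟨g, t⟩ h ⟨g', t'⟩ h' hne
    rw [mem_emb] at h h'
    obtain ⟨h1, -⟩ := h
    obtain ⟨h2, -⟩ := h'
    simp only at h1 h2
    subst h1 h2
    rw [BG_KK]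
    rintro rfl
    exact hne rfl
  have hQS : ∀ q ∈ emb 0 Q, ∀ b ∈ emb (j + 1) S, (BG n L R).Adj q b := by
    rintro ⟨g, t⟩ h ⟨g', x⟩ h'
    rw [mem_emb] at h h'
    obtain ⟨h1, h3⟩ := h
    obtain ⟨h2, -⟩ := h'
    simp only at h1 h2 h3
    subst h1 h2
    rw [BG_Kg]
    rw [hQ, Finset.mem_filter] at h3
    exact Or.inl h3.2
  have hjoin := hf.join hQA hSA hQc hQS
  rw [card_emb] at hjoin
  have himg : (emb (j + 1) S).image f = S.image fun x => f (j + 1, x) := by
    unfold emb
    rw [Finset.image_image]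
    rfl
  rw [himg] at hjoin
  have himg1 : 1 ≤ (S.image fun x => f (j + 1, x)).card := Finset.card_pos.2 (hj.image _)
  have hcol : Col GD S (κ - Q.card) := by
    refine ⟨fun x => f (j + 1, x), fun x hx y hy hxy => ?_, by omega⟩
    refine hf.ne _ (hSA (mem_emb.2 ⟨rfl, hx⟩)) _ (hSA (mem_emb.2 ⟨rfl, hy⟩)) ?_
    rw [BG_gg]
    exact ⟨rfl, hxy⟩
  set X := (fib A 0).filter fun t => t = tok (nx n j) with hX
  have hX1 : X.card ≤ 1 := by
    rw [Finset.card_le_one]
    intro a ha b hb
    rw [hX, Finset.mem_filter] at ha hb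
    rw [ha.2, hb.2]
  have hXx : ∀ x, x ≠ sp (lv n L j) →
      ((fib A 0).filter fun t => t = tok (nx n j) ∧ x = sp (lv n L j)).card = 0 := by
    intro x hx
    rw [Finset.card_eq_zero, Finset.filter_eq_empty_iff]
    intro t _ h
    exact hx h.2
  have hXs : ((fib A 0).filter fun t => t = tok (nx n j) ∧ sp (lv n L j) = sp (lv n L j)) = X := by
    rw [hX]
    refine Finset.filter_congr fun t _ => ?_
    simp
  have hnatt : ¬ att n R j (tok (nx n j)) := by
    unfold att nx
    rintro (h | ⟨h1, h2⟩)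
    · have := tok_inj h
      split at this <;> omega
    · exact hR0 j h1 _ h2 rfl
  have hdeg : ∀ x ∈ S, x ≠ sp (lv n L j) → κ ≤ dg GD S x + Q.card := by
    intro x hx hne
    have h1 := hb.deg (j + 1, x) (hSA (mem_emb.2 ⟨rfl, hx⟩))
    have h2 := dgB_le (n := n) (L := L) (R := R) (A := A) (j := j) (x := x)
    rw [hXx x hne] at h2
    exact h1.trans h2
  have hdegs : sp (lv n L j) ∈ S → κ ≤ dg GD S (sp (lv n L j)) + Q.card + X.card := by
    intro hx
    have h1 := hb.deg (j + 1, sp (lv n L j)) (hSA (mem_emb.2 ⟨rfl, hx⟩))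
    have h2 := dgB_le (n := n) (L := L) (R := R) (A := A) (j := j) (x := sp (lv n L j))
    rw [hXs] at h2
    exact h1.trans h2
  have hclq : sp (lv n L j) ∈ S → 1 + Q.card + X.card ≤ κ := by
    intro hx
    have hsub : emb (j + 1) {sp (lv n L j)} ∪ (emb 0 (Q ∪ X)) ⊆ A := by
      refine Finset.union_subset ?_ ?_
      · rintro ⟨g, t⟩ h
        rw [mem_emb, Finset.mem_singleton] at h
        obtain ⟨h1, h2⟩ := h
        simp only at h1 h2
        subst h1 h2
        exact hSA (mem_emb.2 ⟨rfl, hx⟩)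
      · rintro ⟨g, t⟩ h
        rw [mem_emb, Finset.mem_union] at h
        obtain ⟨h1, h2⟩ := h
        simp only at h1 h2
        subst h1
        rcases h2 with h2 | h2
        · exact hQA (mem_emb.2 ⟨rfl, h2⟩)
        · rw [hX, Finset.mem_filter, mem_fib] at h2
          exact h2.1
    have hcl : Cl (BG n L R) (emb (j + 1) {sp (lv n L j)} ∪ (emb 0 (Q ∪ X))) := by
      have hadj : ∀ t ∈ Q ∪ X, kg n L R t j (sp (lv n L j)) := by
        intro t ht
        rw [Finset.mem_union] at ht
        rcases ht with ht | ht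
        · rw [hQ, Finset.mem_filter] at ht
          exact Or.inl ht.2
        · rw [hX, Finset.mem_filter] at ht
          exact Or.inr ⟨ht.2, rfl⟩
      rintro ⟨g, t⟩ h ⟨g', t'⟩ h' hne
      rw [Finset.mem_union, mem_emb, mem_emb, Finset.mem_singleton] at h h'
      simp only at h h'
      rcases h with ⟨rfl, rfl⟩ | ⟨rfl, h⟩ <;> rcases h' with ⟨rfl, rfl⟩ | ⟨rfl, h'⟩
      · exact absurd rfl hne
      · rw [BG_gK]
        exact hadj _ h'
      · rw [BG_Kg]
        exact hadj _ h
      · rw [BG_KK]
        rintro rfl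
        exact hne rfl
    have h1 := hf.clique_le hsub hcl
    rw [Finset.card_union_of_disjoint, card_emb, card_emb, Finset.card_union_of_disjoint,
      Finset.card_singleton] at h1
    · omega
    · rw [Finset.disjoint_left]
      intro t h2 h3
      rw [hQ, Finset.mem_filter] at h2
      rw [hX, Finset.mem_filter] at h3
      rw [h3.2] at h2
      exact hnatt h2.2
    · rw [Finset.disjoint_left]
      rintro ⟨g, t⟩ h2 h3
      rw [mem_emb] at h2 h3
      have h4 := h2.1
      have h5 := h3.1
      simp only at h4 h5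
      omega
  have hSV : S ⊆ VG (lv n L j) := fib_sub hA
  have hE := exact_all (lv n L j)
  obtain ⟨h1, h2⟩ := hE.ex S hSV hj (κ - Q.card) hcol
    (fun x hx hne => by have := hdeg x hx hne; omega)
    (fun hx => by
      have h3 := hdegs hx
      have h4 := hclq hx
      omega)
  have h3 := hdegs h2
  have h4 : dg GD S (sp (lv n L j)) ≤ dg GD (VG (lv n L j)) (sp (lv n L j)) := dg_mono hSV
  have h5 := hE.dw
  refine ⟨by omega, ?_⟩
  have h6 : 0 < X.card := by omega
  obtain ⟨t, ht⟩ := Finset.card_pos.1 h6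
  rw [hX, Finset.mem_filter, mem_fib] at ht
  rw [← ht.2]
  exact ht.1

theorem dg_tok_le (hA : ∀ u ∈ A, okB n L K u) (hR0 : ∀ j < n, ∀ t, R j t → t.1 ≠ 0) {j : ℕ}
    (ht : (0, tok j) ∈ A) :
    dg (BG n L R) A (0, tok j) ≤ K.card + (fib A (j + 1)).card := by
  classical
  have h1 : dg (BG n L R) A (0, tok j) ≤ (emb 0 ((fib A 0).erase (tok j)) ∪
      (emb (j + 1) (fib A (j + 1)) ∪
      {((if j = 0 then n else j - 1) + 1, sp (lv n L (if j = 0 then n else j - 1)))})).card := by
    refine dg_le ?_
    rintro ⟨g, z⟩ hy ha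
    rw [Finset.mem_union, Finset.mem_union, mem_emb, mem_emb, Finset.mem_singleton,
      Finset.mem_erase, mem_fib, mem_fib]
    simp only
    rcases g with _ | g
    · rw [BG_KK] at ha
      exact Or.inl ⟨rfl, ha.symm, hy⟩
    · rw [BG_Kg] at ha
      have hg := lt_of_fib hA hy
      rcases ha with (ha | ⟨h1, h2⟩) | ⟨ha, hz⟩
      · have := tok_inj ha
        subst this
        exact Or.inr (Or.inl ⟨rfl, hy⟩)
      · exact absurd rfl (hR0 g h1 _ h2)
      · have h3 := tok_inj ha
        right; right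
        unfold nx at h3
        have h4 : (if j = 0 then n else j - 1) = g := by
          split at h3
          · rw [if_neg (by omega)]; omega
          · rw [if_pos h3]; omega
        rw [h4, hz]
  have h2 := Finset.card_union_le (emb (j + 1) (fib A (j + 1)))
    {((if j = 0 then n else j - 1) + 1, sp (lv n L (if j = 0 then n else j - 1)))}
  have h3 := Finset.card_union_le (emb 0 ((fib A 0).erase (tok j))) (emb (j + 1) (fib A (j + 1)) ∪
      {((if j = 0 then n else j - 1) + 1, sp (lv n L (if j = 0 then n else j - 1)))})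
  rw [card_emb] at h2 h3
  rw [Finset.card_singleton] at h2
  have h4 := Finset.card_erase_add_one (mem_fib.2 ht)
  have h5 := Finset.card_le_card (fib_K hA)
  omega

/-- Soundness. -/
theorem sound (h : SysOK n L R K) (hA : ∀ u ∈ A, okB n L K u) (hb : Bad (BG n L R) A κ) :
    EHit n R := by
  classical
  have hlv : ∀ j, L ≤ lv n L j := fun j => by unfold lv; split <;> omega
  have hstep : ∀ j, (fib A (j + 1)).Nonempty → (fib A (nx n j + 1)).Nonempty := by
    intro j hj
    obtain ⟨h1, h2⟩ := slice hA hb h.pos h.R0 hj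
    have h3 := dg_tok_le hA h.R0 h2
    have h4 := hb.deg _ h2
    have h5 := h.card
    have h6 := hlv j
    exact Finset.card_pos.1 (by omega)
  have hle : ∀ j, (fib A (j + 1)).Nonempty → j ≤ n := by
    rintro j ⟨x, hx⟩
    exact lt_of_fib hA (mem_fib.1 hx)
  -- some slice is nonempty
  have hsome : ∃ j, (fib A (j + 1)).Nonempty := by
    by_contra hno
    have hall : ∀ u ∈ A, u.1 = 0 := by
      rintro ⟨g, x⟩ hu
      rcases g with _ | g
      · rfl
      · exact absurd ⟨g, x, mem_fib.2 hu⟩ hno
    have hcl : Cl (BG n L R) A := by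
      rintro ⟨g, t⟩ h1 ⟨g', t'⟩ h2 hne
      have h3 := hall _ h1
      have h4 := hall _ h2
      simp only at h3 h4
      subst h3 h4
      rw [BG_KK]
      rintro rfl
      exact hne rfl
    obtain ⟨f, hf⟩ := hb.col
    obtain ⟨v, hv⟩ := hb.ne
    have h1 := hf.clique_le (Finset.Subset.refl _) hcl
    have h2 := hb.deg v hv
    have h3 := dg_lt_card (G := BG n L R) hv
    omega
  obtain ⟨j0, hj0⟩ := hsome
  have hup : ∀ d j, (fib A (j + 1)).Nonempty → j + d ≤ n → (fib A (j + d + 1)).Nonempty := by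
    intro d
    induction d with
    | zero => intro j hj _; exact hj
    | succ d ih =>
      intro j hj hd
      have h1 := hstep _ (ih j hj (by omega))
      unfold nx at h1
      rw [if_pos (by omega)] at h1
      exact h1
  have hN : (fib A (n + 1)).Nonempty := by
    have h1 := hup (n - j0) j0 hj0 (by have := hle _ hj0; omega)
    rwa [show j0 + (n - j0) = n by have := hle _ hj0; omega] at h1
  have h0 : (fib A (0 + 1)).Nonempty := by
    have h1 := hstep _ hN
    unfold nx at h1
    rwa [if_neg (by omega)] at h1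
  have hall : ∀ j ≤ n, (fib A (j + 1)).Nonempty := by
    intro j hj
    have := hup j 0 h0 (by omega)
    rwa [Nat.zero_add] at this
  have htok : ∀ j ≤ n, (0, tok j) ∈ A := by
    intro j hj
    rcases Nat.eq_zero_or_pos j with rfl | hp
    · have := (slice hA hb h.pos h.R0 (hall n le_rfl)).2
      unfold nx at this
      rwa [if_neg (by omega)] at this
    · have := (slice hA hb h.pos h.R0 (hall (j - 1) (by omega))).2
      unfold nx at this
      rw [if_pos (by omega)] at this
      rwa [show j - 1 + 1 = j by omega] at this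
  -- the number of colours
  have hκ : κ = L + 5 := by
    have h1 := (slice hA hb h.pos h.R0 (hall n le_rfl)).1
    have h2 : (fib A 0).filter (att n R n) = {tok n} := by
      ext t
      rw [Finset.mem_filter, mem_fib, Finset.mem_singleton]
      unfold att
      constructor
      · rintro ⟨-, h3 | h3⟩
        · exact h3
        · exact absurd h3.1 (lt_irrefl _)
      · rintro rfl
        exact ⟨htok n le_rfl, Or.inl rfl⟩
    rw [h2, Finset.card_singleton] at h1
    unfold lv at h1
    rw [if_neg (lt_irrefl _)] at h1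
    omega
  refine ⟨fib A 0, fun j hj => ?_⟩
  have h1 := (slice hA hb h.pos h.R0 (hall j hj.le)).1
  unfold lv at h1
  rw [if_pos hj] at h1
  have h2 : (fib A 0).filter (att n R j) = insert (tok j) ((fib A 0).filter (R j)) := by
    ext t
    rw [Finset.mem_filter, Finset.mem_insert, Finset.mem_filter]
    unfold att
    constructor
    · rintro ⟨h3, h4 | h4⟩
      · exact Or.inl h4
      · exact Or.inr ⟨h3, h4.2⟩
    · rintro (rfl | h4)
      · exact ⟨mem_fib.2 (htok j hj.le), Or.inl rfl⟩
      · exact ⟨h4.1, Or.inr ⟨hj, h4.2⟩⟩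
  rw [h2, Finset.card_insert_of_notMem] at h1
  · have h3 : ((fib A 0).filter (R j)).card = 1 := by omega
    obtain ⟨t, ht⟩ := Finset.card_eq_one.1 h3
    refine ⟨t, ?_, fun s hs => ?_⟩
    · have : t ∈ (fib A 0).filter (R j) := by rw [ht]; exact Finset.mem_singleton_self t
      rwa [Finset.mem_filter] at this
    · have : s ∈ (fib A 0).filter (R j) := by rw [Finset.mem_filter]; exact hs
      rwa [ht, Finset.mem_singleton] at this
  · rw [Finset.mem_filter]
    rintro ⟨-, h3⟩
    exact h.R0 j hj _ h3 rfl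

end Run7.h688
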