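import Pool.Agent.Run7.h688.Colour

/-!
# The graph of an exact hitting problem
-/

namespace Run7.h688

open Finset

/-- The tokens. -/
def tok (j : ℕ) : T := (0, j, 0)

/-- The level of gadget `j`. -/
def lv (n L j : ℕ) : ℕ := if j < n then L else L + 1

/-- The gadget after gadget `j`. -/
def nx (n j : ℕ) : ℕ := if j < n then j + 1 else 0

/-- The vertex `t` of the big clique is attached to gadget `j`. -/
def att (n : ℕ) (R : ℕ → T → Prop) (j : ℕ) (t : T) : Prop := t = tok j ∨ (j < n ∧ R j t)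

/-- The vertex `t` of the big clique is adjacent to the vertex `x` of gadget `j`. -/
def kg (n L : ℕ) (R : ℕ → T → Prop) (t : T) (j : ℕ) (x : T) : Prop :=
  att n R j t ∨ (t = tok (nx n j) ∧ x = sp (lv n L j))

/-- The adjacency of the big graph. -/
def bA (n L : ℕ) (R : ℕ → T → Prop) (u v : ℕ × T) : Prop :=
  (u.1 = 0 ∧ v.1 = 0 ∧ u.2 ≠ v.2) ∨
  (u.1 = 0 ∧ 0 < v.1 ∧ kg n L R u.2 (v.1 - 1) v.2) ∨
  (v.1 = 0 ∧ 0 < u.1 ∧ kg n L R v.2 (u.1 - 1) u.2) ∨
  (0 < u.1 ∧ u.1 = v.1 ∧ gR u.2 v.2)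

theorem bA_symm {n L : ℕ} {R : ℕ → T → Prop} {u v : ℕ × T} (h : bA n L R u v) :
    bA n L R v u := by
  unfold bA at h ⊢
  rcases h with h | h | h | h
  · exact Or.inl ⟨h.2.1, h.1, h.2.2.symm⟩
  · exact Or.inr (Or.inr (Or.inl h))
  · exact Or.inr (Or.inl h)
  · exact Or.inr (Or.inr (Or.inr ⟨h.2.1 ▸ h.1, h.2.1.symm, gR_symm h.2.2⟩))

theorem bA_irrefl {n L : ℕ} {R : ℕ → T → Prop} (u : ℕ × T) : ¬ bA n L R u u := by
  unfold bA
  rintro (h | h | h | h)
  · exact h.2.2 rfl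
  · omega
  · omega
  · exact gR_irrefl _ h.2.2

/-- The big graph. -/
def BG (n L : ℕ) (R : ℕ → T → Prop) : SimpleGraph (ℕ × T) where
  Adj u v := bA n L R u v
  symm := ⟨fun _ _ h => bA_symm h⟩
  loopless := ⟨fun u h => bA_irrefl u h⟩

section

variable {n L : ℕ} {R : ℕ → T → Prop} {t t' x x' : T} {j j' : ℕ}

theorem BG_KK : (BG n L R).Adj (0, t) (0, t') ↔ t ≠ t' := by
  change bA n L R _ _ ↔ _
  unfold bA
  simp

theorem BG_Kg : (BG n L R).Adj (0, t) (j + 1, x) ↔ kg n L R t j x := by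
  change bA n L R _ _ ↔ _
  unfold bA
  simp

theorem BG_gK : (BG n L R).Adj (j + 1, x) (0, t) ↔ kg n L R t j x := by
  rw [SimpleGraph.adj_comm, BG_Kg]

theorem BG_gg : (BG n L R).Adj (j + 1, x) (j' + 1, x') ↔ j = j' ∧ GD.Adj x x' := by
  change bA n L R _ _ ↔ _
  rw [GD_adj]
  unfold bA
  simp

/-- The vertices of the big graph. -/
def okB (n L : ℕ) (K : Finset T) (u : ℕ × T) : Prop :=
  (u.1 = 0 ∧ u.2 ∈ K) ∨ (0 < u.1 ∧ u.1 ≤ n + 1 ∧ okG (lv n L (u.1 - 1)) u.2)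

/-- The part of `A` with first coordinate `g`. -/
def fib (A : Finset (ℕ × T)) (g : ℕ) : Finset T := (A.filter fun u => u.1 = g).image Prod.snd

theorem mem_fib {A : Finset (ℕ × T)} {g : ℕ} : x ∈ fib A g ↔ (g, x) ∈ A := by
  unfold fib
  rw [Finset.mem_image]
  constructor
  · rintro ⟨⟨a, b⟩, h, rfl⟩
    rw [Finset.mem_filter] at h
    obtain ⟨h1, h2⟩ := h
    simp only at h2
    subst h2
    exact h1
  · intro h
    exact ⟨(g, x), Finset.mem_filter.2 ⟨h, rfl⟩, rfl⟩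

/-- The copy of `B` with first coordinate `g`. -/
def emb (g : ℕ) (B : Finset T) : Finset (ℕ × T) := B.image fun x => (g, x)

theorem mem_emb {B : Finset T} {g : ℕ} {u : ℕ × T} : u ∈ emb g B ↔ u.1 = g ∧ u.2 ∈ B := by
  unfold emb
  rw [Finset.mem_image]
  constructor
  · rintro ⟨x, hx, rfl⟩
    exact ⟨rfl, hx⟩
  · rintro ⟨h1, h2⟩
    exact ⟨u.2, h2, by rw [← h1]⟩

theorem card_emb {B : Finset T} {g : ℕ} : (emb g B).card = B.card :=
  Finset.card_image_of_injective _ fun x y h => by simpa using h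

/-- Assumptions on the data of the big graph. -/
structure SysOK (n L : ℕ) (R : ℕ → T → Prop) (K : Finset T) : Prop where
  pos : 1 ≤ n
  tokK : ∀ j ≤ n, tok j ∈ K
  RK : ∀ j < n, ∀ t, R j t → t ∈ K
  R0 : ∀ j < n, ∀ t, R j t → t.1 ≠ 0
  card : K.card + 1 ≤ L + 3

/-- An exact hitting set. -/
def EHit (n : ℕ) (R : ℕ → T → Prop) : Prop := ∃ X : Finset T, ∀ j < n, ∃! t, t ∈ X ∧ R j t

/-- A part of the graph that shows that the graph is not beta-perfect. -/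
structure Bad {V : Type*} (G : SimpleGraph V) (A : Finset V) (m : ℕ) : Prop where
  ne : A.Nonempty
  col : Col G A m
  deg : ∀ v ∈ A, m ≤ dg G A v

theorem tok_inj {i j : ℕ} (h : tok i = tok j) : i = j := by
  unfold tok at h
  simpa using h

end

end Run7.h688
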